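import Mathlib

set_option autoImplicit false
set_option linter.unusedSectionVars false
set_option linter.unusedVariables false
set_option linter.style.haveILetI false

namespace Pool.Agent.Lib.MP_16ef92_ag.RS

open TensorProduct

noncomputable section

/-- A countable algebraically closed field that receives all countable domains of its
characteristic. -/
class Bg where
  L : Type
  fld : Field L
  cl : IsAlgClosed L
  cnt : Countable L
  univ : ∀ (D : Type) [CommRing D] [IsDomain D] [Countable D], ringChar D = ringChar L →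
    ∃ f : D →+* L, Function.Injective f

attribute [instance_reducible, instance] Bg.fld
attribute [instance] Bg.cl Bg.cnt

section Ten

variable {R V T W : Type} [CommRing R] [CommRing V] [CommRing T] [CommRing W]

/-- The tensor product along two ring homomorphisms. -/
def Ten (a : R →+* V) (g : R →+* T) : Type :=
  @TensorProduct R _ V T _ _ a.toAlgebra.toModule g.toAlgebra.toModule

instance tenRing (a : R →+* V) (g : R →+* T) : CommRing (Ten a g) :=
  @Algebra.TensorProduct.instCommRing R V T _ _ a.toAlgebra _ g.toAlgebra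

/-- The first inclusion. -/
def Ten.inl (a : R →+* V) (g : R →+* T) : V →+* Ten a g :=
  letI := a.toAlgebra
  letI := g.toAlgebra
  Algebra.TensorProduct.includeLeftRingHom

/-- The second inclusion. -/
def Ten.inr (a : R →+* V) (g : R →+* T) : T →+* Ten a g :=
  letI := a.toAlgebra
  letI := g.toAlgebra
  (Algebra.TensorProduct.includeRight (R := R) (A := V) (B := T)).toRingHom

theorem Ten.comm (a : R →+* V) (g : R →+* T) :
    (Ten.inl a g).comp a = (Ten.inr a g).comp g := by
  letI := a.toAlgebra
  letI := g.toAlgebra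
  exact Algebra.TensorProduct.includeLeftRingHom_comp_algebraMap

theorem Ten.exists_lift {a : R →+* V} {g : R →+* T} (d : V →+* W) (e : T →+* W)
    (h : d.comp a = e.comp g) :
    ∃ u : Ten a g →+* W, u.comp (Ten.inl a g) = d ∧ u.comp (Ten.inr a g) = e := by
  letI := a.toAlgebra
  letI := g.toAlgebra
  letI := (d.comp a).toAlgebra
  let d' : V →ₐ[R] W := ⟨d, fun _ => rfl⟩
  let e' : T →ₐ[R] W := ⟨e, fun r => (RingHom.congr_fun h r).symm⟩
  refine ⟨(Algebra.TensorProduct.productMap d' e').toRingHom, RingHom.ext fun v => ?_,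
    RingHom.ext fun t => ?_⟩
  · exact Algebra.TensorProduct.productMap_left_apply d' e' v
  · exact Algebra.TensorProduct.productMap_right_apply d' e' t

/-- The map out of the tensor product. -/
def Ten.lift {a : R →+* V} {g : R →+* T} (d : V →+* W) (e : T →+* W) (h : d.comp a = e.comp g) :
    Ten a g →+* W := (Ten.exists_lift d e h).choose

@[simp] theorem Ten.lift_inl {a : R →+* V} {g : R →+* T} (d : V →+* W) (e : T →+* W)
    (h : d.comp a = e.comp g) : (Ten.lift d e h).comp (Ten.inl a g) = d :=
  (Ten.exists_lift d e h).choose_spec.1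

@[simp] theorem Ten.lift_inr {a : R →+* V} {g : R →+* T} (d : V →+* W) (e : T →+* W)
    (h : d.comp a = e.comp g) : (Ten.lift d e h).comp (Ten.inr a g) = e :=
  (Ten.exists_lift d e h).choose_spec.2

theorem Ten.hom_ext {a : R →+* V} {g : R →+* T} {u v : Ten a g →+* W}
    (h1 : u.comp (Ten.inl a g) = v.comp (Ten.inl a g))
    (h2 : u.comp (Ten.inr a g) = v.comp (Ten.inr a g)) : u = v := by
  letI := a.toAlgebra
  letI := g.toAlgebra
  exact Algebra.TensorProduct.ringHom_ext h1 h2

/-- Functoriality in the first factor. -/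
def Ten.map {a : R →+* V} {a' : R →+* W} (g : R →+* T) (b : V →+* W) (h : b.comp a = a') :
    Ten a g →+* Ten a' g :=
  Ten.lift ((Ten.inl a' g).comp b) (Ten.inr a' g) (by rw [RingHom.comp_assoc, h, Ten.comm])

@[simp] theorem Ten.map_inl {a : R →+* V} {a' : R →+* W} (g : R →+* T) (b : V →+* W)
    (h : b.comp a = a') : (Ten.map g b h).comp (Ten.inl a g) = (Ten.inl a' g).comp b :=
  Ten.lift_inl ..

@[simp] theorem Ten.map_inr {a : R →+* V} {a' : R →+* W} (g : R →+* T) (b : V →+* W)
    (h : b.comp a = a') : (Ten.map g b h).comp (Ten.inr a g) = Ten.inr a' g :=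
  Ten.lift_inr ..

/-- Functoriality in the second factor. -/
def Ten.mapR (a : R →+* V) {g : R →+* T} {g' : R →+* W} (e : T →+* W) (h : e.comp g = g') :
    Ten a g →+* Ten a g' :=
  Ten.lift (Ten.inl a g') ((Ten.inr a g').comp e) (by rw [RingHom.comp_assoc, h, Ten.comm])

@[simp] theorem Ten.mapR_inl (a : R →+* V) {g : R →+* T} {g' : R →+* W} (e : T →+* W)
    (h : e.comp g = g') : (Ten.mapR a e h).comp (Ten.inl a g) = Ten.inl a g' :=
  Ten.lift_inl ..

@[simp] theorem Ten.mapR_inr (a : R →+* V) {g : R →+* T} {g' : R →+* W} (e : T →+* W)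
    (h : e.comp g = g') : (Ten.mapR a e h).comp (Ten.inr a g) = (Ten.inr a g').comp e :=
  Ten.lift_inr ..

/-- The square `R → V → W`, `R → T → W` is a pushout. -/
structure PO (a : R →+* V) (g : R →+* T) (d : V →+* W) (e : T →+* W) : Prop where
  comm : d.comp a = e.comp g
  bij : Function.Bijective (Ten.lift d e comm)

end Ten

variable [Bg]

/-- The big field. -/
abbrev OO : Type := Bg.L

/-- Points of a ring. -/
abbrev Pnt (R : Type) [CommRing R] : Type := R →+* OO

/-- Every prime is the kernel of a point. -/
def Good (R : Type) [CommRing R] : Prop :=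
  ∀ p : Ideal R, p.IsPrime → ∃ y : Pnt R, RingHom.ker y = p

variable {R V T W : Type} [CommRing R] [CommRing V] [CommRing T] [CommRing W]

/-- Restriction of functions on points. -/
def rs {A : Type} (b : V →+* W) (s : Pnt V → A) : Pnt W → A := fun z => s (z.comp b)

@[simp] theorem rs_apply {A : Type} (b : V →+* W) (s : Pnt V → A) (z : Pnt W) :
    rs b s z = s (z.comp b) := rfl

theorem rs_comp {A : Type} (b : V →+* W) (c : W →+* T) (s : Pnt V → A) :
    rs c (rs b s) = rs (c.comp b) s := rfl

/-- Surjective on points. -/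
def Sur (b : V →+* W) : Prop := ∀ y : Pnt V, ∃ z : Pnt W, z.comp b = y

/-- Etale covers. -/
structure Cov (b : V →+* W) : Prop where
  et : b.Etale
  sur : Sur b

/-- `P` holds at all points of a basic open neighbourhood of `y`. -/
def Nr (y : Pnt V) (P : Pnt V → Prop) : Prop := ∃ f : V, y f ≠ 0 ∧ ∀ y' : Pnt V, y' f ≠ 0 → P y'

end

end Pool.Agent.Lib.MP_16ef92_ag.RS
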