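import Mathlib
import Pool.Agent.Lib.MP_16ef92_ag.RS.Ten

set_option autoImplicit false
set_option linter.unusedSectionVars false
set_option linter.unusedVariables false
set_option linter.style.haveILetI false

namespace Pool.Agent.Lib.MP_16ef92_ag.RS

noncomputable section

variable {R V T W : Type} [CommRing R] [CommRing V] [CommRing T] [CommRing W]

theorem ptsa_iso (u : V →+* W) (v : W →+* V) (h1 : v.comp u = RingHom.id V)
    (h2 : u.comp v = RingHom.id W) : u.Etale :=
  RingHom.Etale.of_bijective (Function.bijective_iff_has_inverse.2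
    ⟨v, fun x => RingHom.congr_fun h1 x, fun x => RingHom.congr_fun h2 x⟩)

theorem ptsa_inl (a : R →+* V) {g : R →+* T} (h : g.Etale) : (Ten.inl a g).Etale := by
  letI := a.toAlgebra
  letI := g.toAlgebra
  haveI : Algebra.Etale R T := h.toAlgebra
  exact RingHom.etale_algebraMap.2 (inferInstance : Algebra.Etale V (TensorProduct R V T))

theorem Ten.etale_inr {a : R →+* V} (g : R →+* T) (h : a.Etale) : (Ten.inr a g).Etale := by
  have e : Ten.inr a g = (Ten.lift (Ten.inr a g) (Ten.inl a g) (Ten.comm a g).symm).comp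
      (Ten.inl g a) := (Ten.lift_inl ..).symm
  rw [e]
  refine RingHom.Etale.stableUnderComposition _ _ (ptsa_inl g h)
    (ptsa_iso _ (Ten.lift (Ten.inr g a) (Ten.inl g a) (Ten.comm g a).symm) ?_ ?_)
  · refine Ten.hom_ext ?_ ?_ <;> simp [RingHom.comp_assoc]
  · refine Ten.hom_ext ?_ ?_ <;> simp [RingHom.comp_assoc]

theorem Ten.etale_inl (a : R →+* V) {g : R →+* T} (h : g.Etale) : (Ten.inl a g).Etale := by
  exact ptsa_inl a h

theorem Ten.etale_map {a : R →+* V} {a' : R →+* W} (g : R →+* T) {b : V →+* W}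
    (h : b.comp a = a') (hb : b.Etale) : (Ten.map g b h).Etale := by
  have e : Ten.map g b h = (Ten.lift (Ten.inl a' g) (Ten.map g b h) (Ten.map_inl g b h).symm).comp
      (Ten.inr b (Ten.inl a g)) := (Ten.lift_inr ..).symm
  have c := Ten.comm b (Ten.inl a g)
  rw [e]
  refine RingHom.Etale.stableUnderComposition _ _ (Ten.etale_inr _ hb)
    (ptsa_iso _ (Ten.lift (Ten.inl b (Ten.inl a g)) ((Ten.inr b (Ten.inl a g)).comp (Ten.inr a g))
      (by rw [← h, ← RingHom.comp_assoc, c, RingHom.comp_assoc, Ten.comm, RingHom.comp_assoc]))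
      ?_ ?_)
  · refine Ten.hom_ext ?_ ?_
    · simp [RingHom.comp_assoc]
    · refine Ten.hom_ext ?_ ?_
      · simp only [RingHom.comp_assoc, Ten.lift_inr, Ten.map_inl, RingHom.id_comp]
        rw [← RingHom.comp_assoc, Ten.lift_inl, c]
      · simp [RingHom.comp_assoc]
  · refine Ten.hom_ext ?_ ?_
    · simp [RingHom.comp_assoc]
    · simp only [RingHom.comp_assoc, Ten.lift_inr, RingHom.id_comp]
      rw [← RingHom.comp_assoc, Ten.lift_inr, Ten.map_inr]

theorem Ten.etale_mapR (a : R →+* V) {g : R →+* T} {g' : R →+* W} {e : T →+* W}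
    (h : e.comp g = g') (he : e.Etale) : (Ten.mapR a e h).Etale := by
  have e1 : Ten.mapR a e h = (Ten.lift (Ten.inr a g') (Ten.mapR a e h)
      (Ten.mapR_inr a e h).symm).comp (Ten.inr e (Ten.inr a g)) := (Ten.lift_inr ..).symm
  have c := Ten.comm e (Ten.inr a g)
  rw [e1]
  refine RingHom.Etale.stableUnderComposition _ _ (Ten.etale_inr _ he)
    (ptsa_iso _ (Ten.lift ((Ten.inr e (Ten.inr a g)).comp (Ten.inl a g)) (Ten.inl e (Ten.inr a g))
      (by rw [← h, ← RingHom.comp_assoc g e, c, RingHom.comp_assoc, Ten.comm, RingHom.comp_assoc]))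
      ?_ ?_)
  · refine Ten.hom_ext ?_ ?_
    · simp [RingHom.comp_assoc]
    · refine Ten.hom_ext ?_ ?_
      · simp [RingHom.comp_assoc]
      · simp only [RingHom.comp_assoc, Ten.lift_inr, Ten.mapR_inr, RingHom.id_comp]
        rw [← RingHom.comp_assoc, Ten.lift_inr, c]
  · refine Ten.hom_ext ?_ ?_
    · simp only [RingHom.comp_assoc, Ten.lift_inl, RingHom.id_comp]
      rw [← RingHom.comp_assoc, Ten.lift_inr, Ten.mapR_inl]
    · simp [RingHom.comp_assoc]

theorem et_id : (RingHom.id R).Etale := RingHom.Etale.of_bijective Function.bijective_id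

theorem et_comp {a : R →+* V} {b : V →+* W} (ha : a.Etale) (hb : b.Etale) : (b.comp a).Etale :=
  RingHom.Etale.stableUnderComposition a b ha hb

/-- A map between etale algebras is etale. -/
theorem et_cancel {a : R →+* V} {b : V →+* W} (ha : a.Etale) (hb : (b.comp a).Etale) :
    b.Etale := by
  letI := a.toAlgebra
  letI := b.toAlgebra
  letI := (b.comp a).toAlgebra
  haveI : IsScalarTower R V W := IsScalarTower.of_algebraMap_eq' rfl
  haveI : Algebra.Etale R V := ha.toAlgebra
  haveI : Algebra.Etale R W := hb.toAlgebra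
  exact RingHom.etale_algebraMap.2 (Algebra.Etale.of_restrictScalars R V W)

theorem et_away (f : R) : (algebraMap R (Localization.Away f)).Etale := by
  exact RingHom.etale_algebraMap.2 (Algebra.Etale.of_isLocalizationAway f)

theorem et_pi {ι : Type} [Finite ι] {U : ι → Type} [∀ i, CommRing (U i)] {b : ∀ i, R →+* U i}
    (h : ∀ i, (b i).Etale) : (RingHom.pi b).Etale := by
  letI := fun i => (b i).toAlgebra
  haveI : ∀ i, Algebra.Etale R (U i) := fun i => (h i).toAlgebra
  exact RingHom.etale_algebraMap.2 (inferInstance : Algebra.Etale R (∀ i, U i))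

theorem ptsa_diag {a : R →+* V} (ha : a.Etale) : ∃ t : Ten a a,
    (∀ v, t * Ten.inl a a v = t * Ten.inr a a v) ∧
      Ten.lift (RingHom.id V) (RingHom.id V) rfl t = 1 := by
  letI := a.toAlgebra
  haveI : Algebra.Etale R V := ha.toAlgebra
  refine ⟨Algebra.FormallyUnramified.elem R V, fun v => ?_, ?_⟩
  · rw [mul_comm, mul_comm _ (Ten.inr a a v)]
    exact (Algebra.FormallyUnramified.one_tmul_mul_elem (R := R) v).symm
  · have k : Ten.lift (a := a) (g := a) (RingHom.id V) (RingHom.id V) rfl =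
        (Algebra.TensorProduct.lmul' R (S := V)).toRingHom := by
      refine Ten.hom_ext ?_ ?_
      · rw [Ten.lift_inl]
        exact RingHom.ext fun v =>
          ((Algebra.TensorProduct.lmul'_apply_tmul (R := R) v 1).trans (mul_one v)).symm
      · rw [Ten.lift_inr]
        exact RingHom.ext fun v =>
          ((Algebra.TensorProduct.lmul'_apply_tmul (R := R) 1 v).trans (one_mul v)).symm
    rw [k]
    exact Algebra.FormallyUnramified.lmul_elem (R := R)

/-- Two maps between etale algebras that agree at a point agree on a basic open set. -/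
theorem et_agree {K : Type} [Field K] {a : R →+* V} (ha : a.Etale) {d e : V →+* W}
    (h : d.comp a = e.comp a) (z : W →+* K) (hz : z.comp d = z.comp e) :
    ∃ f : W, z f ≠ 0 ∧ ∀ v, f * d v = f * e v := by
  obtain ⟨t, h1, h2⟩ := ptsa_diag ha
  refine ⟨Ten.lift d e h t, ?_, fun v => ?_⟩
  · have k : z.comp (Ten.lift d e h) =
        (z.comp d).comp (Ten.lift (RingHom.id V) (RingHom.id V) rfl) := by
      refine Ten.hom_ext ?_ ?_
      · simp [RingHom.comp_assoc]
      · simp only [RingHom.comp_assoc, Ten.lift_inr, RingHom.comp_id, hz]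
    have k2 := RingHom.congr_fun k t
    rw [RingHom.comp_apply, RingHom.comp_apply, h2, map_one] at k2
    rw [k2]
    exact one_ne_zero
  · have k := congrArg (Ten.lift d e h) (h1 v)
    have l := RingHom.congr_fun (Ten.lift_inl d e h) v
    have r := RingHom.congr_fun (Ten.lift_inr d e h) v
    rw [RingHom.comp_apply] at l r
    rw [map_mul, map_mul, l, r] at k
    exact k

/-- Embeddings into an algebraically closed field extend along algebraic extensions of
domains. -/
theorem ptsB_ext {A D K : Type} [CommRing A] [CommRing D] [IsDomain D] [Field K] [IsAlgClosed K]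
    [Algebra A D] [Algebra.IsAlgebraic A D] (hi : Function.Injective (algebraMap A D))
    (j : A →+* K) (hj : Function.Injective j) :
    ∃ f : D →+* K, Function.Injective f ∧ f.comp (algebraMap A D) = j := by
  letI := j.toAlgebra
  haveI : IsDomain A := hi.isDomain _
  haveI : FaithfulSMul A D := (faithfulSMul_iff_algebraMap_injective A D).2 hi
  haveI : FaithfulSMul A K := (faithfulSMul_iff_algebraMap_injective A K).2 hj
  let f : D →ₐ[A] K := IsAlgClosed.lift
  have hc : f.toRingHom.comp (algebraMap A D) = j := RingHom.ext fun a => f.commutes a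
  refine ⟨f.toRingHom, ?_, hc⟩
  rw [RingHom.injective_iff_ker_eq_bot, eq_bot_iff]
  intro x hx
  by_contra h0
  refine Ideal.comap_ne_bot_of_algebraic_mem (R := A) h0 hx (Algebra.IsAlgebraic.isAlgebraic x) ?_
  rw [RingHom.comap_ker, hc]
  exact (RingHom.injective_iff_ker_eq_bot j).1 hj

theorem ptsB_cnt_alg {A D : Type} [CommRing A] [CommRing D] [IsDomain D] [Countable A]
    [Algebra A D] [Algebra.IsAlgebraic A D] (hi : Function.Injective (algebraMap A D)) :
    Countable D := by
  haveI : IsDomain A := hi.isDomain _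
  haveI : FaithfulSMul A D := (faithfulSMul_iff_algebraMap_injective A D).2 hi
  have h := Algebraic.countable A D
  have h2 : {x : D | IsAlgebraic A x} = Set.univ :=
    Set.eq_univ_of_forall fun x => Algebra.IsAlgebraic.isAlgebraic x
  rw [h2] at h
  exact Set.countable_univ_iff.1 h

theorem ptsB_cnt_mv (σ A : Type) [CommRing A] [Countable σ] [Countable A] :
    Countable (MvPolynomial σ A) := by
  rw [← Cardinal.mk_le_aleph0_iff]
  refine MvPolynomial.cardinalMk_le_max.trans ?_
  exact sup_le (sup_le Cardinal.mk_le_aleph0 Cardinal.mk_le_aleph0) le_rfl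

theorem ptsB_char {A D : Type} [CommRing A] [CommRing D] (i : A →+* D)
    (hi : Function.Injective i) : ringChar A = ringChar D := by
  haveI : CharP D (ringChar A) := charP_of_injective_ringHom hi _
  exact (ringChar.eq D (ringChar A)).symm

theorem exists_bg (p : ℕ) [Fact p.Prime] : ∃ B : Bg, CharP B.L p := by
  let P := MvPolynomial ℕ (ZMod p)
  let L := AlgebraicClosure (FractionRing P)
  haveI : Countable P := ptsB_cnt_mv ℕ (ZMod p)
  haveI : Countable (FractionRing P) := by
    rw [← Cardinal.mk_le_aleph0_iff, Cardinal.mk_fractionRing]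
    exact Cardinal.mk_le_aleph0
  haveI : Countable L := ptsB_cnt_alg (algebraMap (FractionRing P) L).injective
  let j : P →+* L := (algebraMap (FractionRing P) L).comp (algebraMap P (FractionRing P))
  have hj : Function.Injective j :=
    (algebraMap (FractionRing P) L).injective.comp (IsFractionRing.injective P (FractionRing P))
  haveI hL : CharP L p :=
    charP_of_injective_ringHom (f := j.comp MvPolynomial.C) (j.comp MvPolynomial.C).injective p
  refine ⟨⟨L, inferInstance, inferInstance, inferInstance, fun D _ _ _ hD => ?_⟩, hL⟩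
  haveI : CharP D p := by
    have h1 : ringChar D = p := hD.trans (ringChar.eq L p)
    exact h1 ▸ ringChar.charP D
  letI : Algebra (ZMod p) D := ZMod.algebra D p
  obtain ⟨s, hs⟩ := exists_isTranscendenceBasis (ZMod p) D
  obtain ⟨e, he⟩ := exists_injective_nat s
  haveI := hs.isAlgebraic
  let g : Algebra.adjoin (ZMod p) (Set.range ((↑) : s → D)) →+* L :=
    (j.comp (MvPolynomial.rename e).toRingHom).comp hs.1.aevalEquiv.symm.toAlgHom.toRingHom
  have hg : Function.Injective g :=
    (hj.comp (MvPolynomial.rename_injective e he)).comp hs.1.aevalEquiv.symm.injective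
  obtain ⟨f, hf, -⟩ := ptsB_ext (D := D) Subtype.val_injective g hg
  exact ⟨f, hf⟩

variable [Bg]

theorem pnt_away (y : Pnt V) {f : V} (h : y f ≠ 0) :
    ∃ z : Pnt (Localization.Away f), z.comp (algebraMap V _) = y := by
  exact ⟨IsLocalization.Away.lift f h.isUnit, IsLocalization.Away.lift_comp f h.isUnit⟩

theorem pnt_away_ne {f : V} (z : Pnt (Localization.Away f)) :
    (z.comp (algebraMap V _)) f ≠ 0 := by
  exact ((IsLocalization.Away.algebraMap_isUnit f).map z).ne_zero

theorem pnt_pi {ι : Type} [Finite ι] {U : ι → Type} [∀ i, CommRing (U i)] (z : Pnt (∀ i, U i)) :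
    ∃ (i : ι) (w : Pnt (U i)), z = w.comp (Pi.evalRingHom U i) := by
  classical
  haveI := Fintype.ofFinite ι
  have h1 : ∑ i, z (Pi.single i 1) = 1 := by
    rw [← map_sum, ← map_one z]
    exact congrArg z (Finset.univ_sum_single (1 : ∀ i, U i))
  obtain ⟨i, -, hi⟩ := Finset.exists_ne_zero_of_sum_ne_zero (h1.trans_ne one_ne_zero)
  have h2 : z (Pi.single i 1) = 1 := by
    refine mul_left_cancel₀ hi ?_
    rw [← map_mul, ← Pi.single_mul, mul_one, mul_one]
  refine ⟨i, ⟨⟨⟨fun x => z (Pi.single i x), h2⟩, fun x y => ?_⟩, ?_, fun x y => ?_⟩,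
    RingHom.ext fun x => ?_⟩
  · show z (Pi.single i (x * y)) = z (Pi.single i x) * z (Pi.single i y)
    rw [Pi.single_mul, map_mul]
  · show z (Pi.single i 0) = 0
    rw [Pi.single_zero, map_zero]
  · show z (Pi.single i (x + y)) = z (Pi.single i x) + z (Pi.single i y)
    rw [Pi.single_add, map_add]
  · show z x = z (Pi.single i (x i))
    rw [← mul_one (z x), ← h2, ← map_mul, ← Pi.single_mul_right, mul_one]

theorem ptsB_sec {B : Type} [CommRing B] [Nontrivial B] [Algebra OO B] [Algebra.FiniteType OO B] :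
    ∃ u : B →+* OO, u.comp (algebraMap OO B) = RingHom.id OO := by
  obtain ⟨m, hm⟩ := Ideal.exists_maximal B
  letI := Ideal.Quotient.field m
  haveI : Module.Finite OO (B ⧸ m) := finite_of_finite_type_of_isJacobsonRing OO (B ⧸ m)
  obtain ⟨f, -, hf⟩ := ptsB_ext (algebraMap OO (B ⧸ m)).injective (RingHom.id OO)
    Function.injective_id
  exact ⟨f.comp (Ideal.Quotient.mk m), hf⟩

theorem ptsB_lift_inj (y : Pnt V) {p : Ideal V} (h : p = RingHom.ker y) :
    ∃ j : V ⧸ p →+* OO, Function.Injective j ∧ j.comp (Ideal.Quotient.mk p) = y := by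
  subst h
  exact ⟨RingHom.kerLift y, RingHom.kerLift_injective y, RingHom.ext fun v => RingHom.kerLift_mk y v⟩

theorem ptsB_ker {q : Ideal W} {f : W ⧸ q →+* OO} (hf : Function.Injective f) :
    RingHom.ker (f.comp (Ideal.Quotient.mk q)) = q := by
  rw [← RingHom.comap_ker, (RingHom.injective_iff_ker_eq_bot f).1 hf]
  exact Ideal.mk_ker

/-- Lifting of points along a map of finite type. -/
theorem pnt_lift {b : V →+* W} (hb : b.FiniteType) (y : Pnt V) (q : Ideal W) (hq : q.IsPrime)
    (h : q.comap b = RingHom.ker y) : ∃ z : Pnt W, z.comp b = y := by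
  obtain ⟨j, hj, hy⟩ := ptsB_lift_inj y h
  let i : V ⧸ q.comap b →+* W ⧸ q := Ideal.quotientMap q b le_rfl
  have hi : Function.Injective i := Ideal.quotientMap_injective
  have hc : i.comp (Ideal.Quotient.mk _) = (Ideal.Quotient.mk q).comp b :=
    Ideal.quotientMap_comp_mk le_rfl
  have hft : i.FiniteType := by
    refine RingHom.FiniteType.of_comp_finiteType (f := Ideal.Quotient.mk (q.comap b)) ?_
    rw [hc]
    exact (RingHom.FiniteType.of_surjective _ Ideal.Quotient.mk_surjective).comp hb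
  letI := i.toAlgebra
  letI := j.toAlgebra
  haveI : Algebra.FiniteType (V ⧸ q.comap b) (W ⧸ q) := hft
  haveI := Algebra.TensorProduct.nontrivial_of_algebraMap_injective_of_isDomain
    (V ⧸ q.comap b) OO (W ⧸ q) hj hi
  obtain ⟨u, hu⟩ := ptsB_sec (B := TensorProduct (V ⧸ q.comap b) OO (W ⧸ q))
  let r : W ⧸ q →+* TensorProduct (V ⧸ q.comap b) OO (W ⧸ q) :=
    (Algebra.TensorProduct.includeRight (R := V ⧸ q.comap b) (A := OO) (B := W ⧸ q)).toRingHom
  refine ⟨(u.comp r).comp (Ideal.Quotient.mk q), RingHom.ext fun v => ?_⟩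
  have h1 : r (i (Ideal.Quotient.mk _ v)) =
      algebraMap OO (TensorProduct (V ⧸ q.comap b) OO (W ⧸ q)) (j (Ideal.Quotient.mk _ v)) :=
    (RingHom.congr_fun (Algebra.TensorProduct.includeLeftRingHom_comp_algebraMap
      (R := V ⧸ q.comap b) (A := OO) (B := W ⧸ q)) (Ideal.Quotient.mk _ v)).symm
  have h2 : Ideal.Quotient.mk q (b v) = i (Ideal.Quotient.mk _ v) := (RingHom.congr_fun hc v).symm
  have h3 := RingHom.congr_fun hu (j (Ideal.Quotient.mk _ v))
  change u (r (Ideal.Quotient.mk q (b v))) = y v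
  rw [h2, h1, ← hy]
  exact h3

/-- Lifting of points with prescribed kernel along an etale map. -/
theorem pnt_lift_et {b : V →+* W} (hb : b.Etale) (y : Pnt V) (q : Ideal W) (hq : q.IsPrime)
    (h : q.comap b = RingHom.ker y) : ∃ z : Pnt W, z.comp b = y ∧ RingHom.ker z = q := by
  haveI := hq
  letI := b.toAlgebra
  haveI : Algebra.Etale V W := hb
  let p := q.comap b
  let i : p.ResidueField →+* q.ResidueField := Ideal.ResidueField.map p q b rfl
  letI := i.toAlgebra
  haveI : IsScalarTower V p.ResidueField q.ResidueField :=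
    IsScalarTower.of_algebraMap_eq fun v => by
      rw [IsScalarTower.algebraMap_apply V W q.ResidueField]
      exact (Ideal.ResidueField.map_algebraMap p q b rfl v).symm
  haveI : Algebra.QuasiFinite p.ResidueField q.ResidueField :=
    Algebra.QuasiFinite.of_restrictScalars V _ _
  haveI : Module.Finite p.ResidueField q.ResidueField := Module.Finite.of_quasiFinite
  have h2 : p.primeCompl ≤ (IsUnit.submonoid OO).comap y := fun v hv => by
    have h3 : y v ≠ 0 := fun h0 => hv (by
      change v ∈ q.comap b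
      rw [h]
      exact h0)
    exact h3.isUnit
  let j := Ideal.ResidueField.lift p y h.le h2
  obtain ⟨f, hf, hc⟩ := ptsB_ext i.injective j j.injective
  refine ⟨f.comp (algebraMap W q.ResidueField), RingHom.ext fun v => ?_, ?_⟩
  · have h4 := RingHom.congr_fun hc (algebraMap V p.ResidueField v)
    have h5 : i (algebraMap V p.ResidueField v) = algebraMap W q.ResidueField (b v) :=
      Ideal.ResidueField.map_algebraMap p q b rfl v
    change f (algebraMap W q.ResidueField (b v)) = y v
    rw [← h5, ← Ideal.ResidueField.lift_algebraMap p y h.le h2 v]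
    exact h4
  · rw [← RingHom.comap_ker, (RingHom.injective_iff_ker_eq_bot f).1 hf]
    exact Ideal.ker_algebraMap_residueField q

theorem ptsB_alg_int {b : V →+* W} (hb : b.IsIntegral) (q : Ideal W) (hq : q.IsPrime) :
    @Algebra.IsAlgebraic (V ⧸ q.comap b) (W ⧸ q) _ _
      (Ideal.quotientMap q b le_rfl).toAlgebra := by
  letI := (Ideal.quotientMap q b le_rfl).toAlgebra
  haveI : Algebra.IsIntegral (V ⧸ q.comap b) (W ⧸ q) := ⟨hb.quotient⟩
  infer_instance

/-- Lifting of points with prescribed kernel along an integral map. -/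
theorem pnt_lift_int {b : V →+* W} (hb : b.IsIntegral) (y : Pnt V) (q : Ideal W) (hq : q.IsPrime)
    (h : q.comap b = RingHom.ker y) : ∃ z : Pnt W, z.comp b = y ∧ RingHom.ker z = q := by
  obtain ⟨j, hj, hy⟩ := ptsB_lift_inj y h
  letI := (Ideal.quotientMap q b le_rfl).toAlgebra
  haveI := ptsB_alg_int hb q hq
  obtain ⟨f, hf, hc⟩ := ptsB_ext (A := V ⧸ q.comap b) (D := W ⧸ q) Ideal.quotientMap_injective j hj
  refine ⟨f.comp (Ideal.Quotient.mk q), ?_, ptsB_ker hf⟩
  rw [← hy, ← hc]
  rfl

/-- Flat maps of finite presentation are open on points. -/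
theorem Nr.push {b : V →+* W} (hf : b.Flat) (hp : b.FinitePresentation) {z : Pnt W}
    {P : Pnt W → Prop} (h : Nr z P) : Nr (z.comp b) fun y => ∃ z', z'.comp b = y ∧ P z' := by
  obtain ⟨f, hz, hP⟩ := h
  have ho : IsOpenMap (PrimeSpectrum.comap b) := by
    algebraize [b]
    exact PrimeSpectrum.isOpenMap_comap_of_hasGoingDown_of_finitePresentation
  have h1 : PrimeSpectrum.comap b ⟨RingHom.ker z, RingHom.ker_isPrime z⟩ ∈
      PrimeSpectrum.comap b '' (PrimeSpectrum.basicOpen f : Set (PrimeSpectrum W)) :=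
    ⟨_, hz, rfl⟩
  obtain ⟨_, ⟨g, rfl⟩, hg, hs⟩ := PrimeSpectrum.isTopologicalBasis_basic_opens.exists_subset_of_mem_open
    h1 (ho _ (PrimeSpectrum.basicOpen f).isOpen)
  refine ⟨g, hg, fun y hy => ?_⟩
  obtain ⟨q, hq, e⟩ := hs (show (⟨RingHom.ker y, RingHom.ker_isPrime y⟩ : PrimeSpectrum V) ∈
    (PrimeSpectrum.basicOpen g : Set (PrimeSpectrum V)) from hy)
  rw [← PrimeSpectrum.localization_away_comap_range (Localization.Away f) f] at hq
  obtain ⟨q', rfl⟩ := hq
  obtain ⟨w, hw⟩ := pnt_lift (b := (algebraMap W (Localization.Away f)).comp b)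
    ((RingHom.FiniteType.of_finitePresentation
      (RingHom.Etale.iff_flat_and_formallyUnramified.1 (et_away f)).2.2).comp
      (RingHom.FiniteType.of_finitePresentation hp)) y q'.asIdeal q'.isPrime
    (congrArg PrimeSpectrum.asIdeal e)
  exact ⟨w.comp (algebraMap W _), hw, hP _ (pnt_away_ne w)⟩

theorem Nr.push_et {b : V →+* W} (hb : b.Etale) {z : Pnt W} {P : Pnt W → Prop} (h : Nr z P) :
    Nr (z.comp b) fun y => ∃ z', z'.comp b = y ∧ P z' := by
  obtain ⟨h1, -, h2⟩ := RingHom.Etale.iff_flat_and_formallyUnramified.1 hb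
  exact h.push h1 h2

theorem Nr.of_forall {y : Pnt V} {P : Pnt V → Prop} (h : ∀ y, P y) : Nr y P :=
  ⟨1, by simp, fun y _ => h y⟩

theorem Nr.self {y : Pnt V} {P : Pnt V → Prop} (h : Nr y P) : P y :=
  h.choose_spec.2 y h.choose_spec.1

theorem Nr.mono {y : Pnt V} {P Q : Pnt V → Prop} (h : Nr y P) (hpq : ∀ y, P y → Q y) : Nr y Q :=
  h.imp fun f hf => ⟨hf.1, fun y' hy => hpq _ (hf.2 y' hy)⟩

theorem Nr.and {y : Pnt V} {P Q : Pnt V → Prop} (h : Nr y P) (h' : Nr y Q) :
    Nr y fun y => P y ∧ Q y := by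
  obtain ⟨f, hf, h⟩ := h
  obtain ⟨g, hg, h'⟩ := h'
  refine ⟨f * g, by simp [hf, hg], fun y' hy => ?_⟩
  rw [map_mul, mul_ne_zero_iff] at hy
  exact ⟨h _ hy.1, h' _ hy.2⟩

theorem Nr.pull {b : V →+* W} {z : Pnt W} {P : Pnt V → Prop} (h : Nr (z.comp b) P) :
    Nr z fun z' => P (z'.comp b) := by
  obtain ⟨f, hf, h⟩ := h
  exact ⟨b f, hf, fun z' hz => h _ hz⟩

theorem Nr.nr {y : Pnt V} {P : Pnt V → Prop} (h : Nr y P) : Nr y fun y' => Nr y' P := by
  obtain ⟨f, hf, h⟩ := h
  exact ⟨f, hf, fun y' hy => ⟨f, hy, h⟩⟩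

theorem Sur.inl (a : R →+* V) {g : R →+* T} (h : Sur g) : Sur (Ten.inl a g) := fun y => by
  obtain ⟨t, ht⟩ := h (y.comp a)
  exact ⟨Ten.lift y t ht.symm, Ten.lift_inl ..⟩

theorem Sur.inr {a : R →+* V} (g : R →+* T) (h : Sur a) : Sur (Ten.inr a g) := fun t => by
  obtain ⟨y, hy⟩ := h (t.comp g)
  exact ⟨Ten.lift y t hy, Ten.lift_inr ..⟩

theorem Sur.comp {a : R →+* V} {b : V →+* W} (ha : Sur a) (hb : Sur b) : Sur (b.comp a) :=
  fun x => by
    obtain ⟨y, rfl⟩ := ha x
    obtain ⟨z, rfl⟩ := hb y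
    exact ⟨z, rfl⟩

/-- The working criterion. -/
theorem good_iff : Good R ↔ ∀ p : Ideal R, p.IsPrime →
    Countable (R ⧸ p) ∧ ringChar (R ⧸ p) = ringChar OO := by
  refine ⟨fun h p hp => ?_, fun h p hp => ?_⟩
  · obtain ⟨y, hy⟩ := h p hp
    obtain ⟨j, hj, -⟩ := ptsB_lift_inj y hy.symm
    exact ⟨hj.countable, ptsB_char j hj⟩
  · obtain ⟨h1, h2⟩ := h p hp
    obtain ⟨f, hf⟩ := Bg.univ (R ⧸ p) h2
    exact ⟨f.comp (Ideal.Quotient.mk p), ptsB_ker hf⟩

theorem good_oo : Good OO := by
  intro p hp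
  refine ⟨RingHom.id OO, ?_⟩
  rw [(RingHom.injective_iff_ker_eq_bot _).1 Function.injective_id]
  exact (Ideal.eq_bot_of_prime p).symm

theorem Good.ft (h : Good R) {a : R →+* V} (ha : a.FiniteType) : Good V := by
  rw [good_iff] at h ⊢
  intro q hq
  obtain ⟨h1, h2⟩ := h (q.comap a) inferInstance
  let i : R ⧸ q.comap a →+* V ⧸ q := Ideal.quotientMap q a le_rfl
  have hi : Function.Injective i := Ideal.quotientMap_injective
  have hft : i.FiniteType := by
    refine RingHom.FiniteType.of_comp_finiteType (f := Ideal.Quotient.mk (q.comap a)) ?_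
    rw [Ideal.quotientMap_comp_mk le_rfl]
    exact (RingHom.FiniteType.of_surjective _ Ideal.Quotient.mk_surjective).comp ha
  refine ⟨?_, (ptsB_char i hi).symm.trans h2⟩
  letI := i.toAlgebra
  obtain ⟨n, g, hg⟩ := Algebra.FiniteType.iff_quotient_mvPolynomial''.1 hft
  haveI := ptsB_cnt_mv (Fin n) (R ⧸ q.comap a)
  exact hg.countable

theorem Good.et (h : Good R) {a : R →+* V} (ha : a.Etale) : Good V := by
  letI := a.toAlgebra
  haveI : Algebra.Etale R V := ha
  exact h.ft (a := a) (inferInstance : Algebra.FiniteType R V)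

theorem Good.int (h : Good R) {a : R →+* V} (ha : a.IsIntegral) : Good V := by
  rw [good_iff] at h ⊢
  intro q hq
  obtain ⟨h1, h2⟩ := h (q.comap a) inferInstance
  refine ⟨?_, (ptsB_char (Ideal.quotientMap q a le_rfl) Ideal.quotientMap_injective).symm.trans h2⟩
  letI := (Ideal.quotientMap q a le_rfl).toAlgebra
  haveI := ptsB_alg_int ha q hq
  exact ptsB_cnt_alg (A := R ⧸ q.comap a) Ideal.quotientMap_injective

theorem Good.loc (h : Good R) (S : Submonoid R) (V : Type) [CommRing V] [Algebra R V]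
    [IsLocalization S V] : Good V := by
  intro q hq
  obtain ⟨y, hy⟩ := h (q.comap (algebraMap R V)) inferInstance
  have hS : ∀ s : S, y s ≠ 0 := fun s h0 => by
    have h1 : (s : R) ∈ q.comap (algebraMap R V) := hy ▸ h0
    exact hq.ne_top (Ideal.eq_top_of_isUnit_mem q h1 (IsLocalization.map_units V s))
  have hu : ∀ s : S, IsUnit (y s) := fun s => (hS s).isUnit
  refine ⟨IsLocalization.lift hu, Ideal.ext fun v => ?_⟩
  obtain ⟨⟨r, s⟩, hv⟩ := IsLocalization.surj S v
  have h1 : IsLocalization.lift hu v * y s = y r := by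
    have h2 := congrArg (IsLocalization.lift (S := V) hu) hv
    rwa [map_mul, IsLocalization.lift_eq, IsLocalization.lift_eq] at h2
  have h3 : y r = 0 ↔ algebraMap R V r ∈ q := by
    rw [← RingHom.mem_ker, hy]
    rfl
  rw [RingHom.mem_ker, ← Ideal.mul_unit_mem_iff_mem q (IsLocalization.map_units V s), hv, ← h3,
    ← h1, mul_eq_zero, or_iff_left (hS s)]

theorem good_of_countable [Countable R] (p : ℕ) [CharP OO p] (h : (p : R) = 0) (hp : p ≠ 0) :
    Good R := by
  rw [good_iff]
  intro q hq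
  refine ⟨Ideal.Quotient.mk_surjective.countable, ?_⟩
  have h1 : p.Prime := (CharP.char_is_prime_or_zero OO p).resolve_right hp
  have h2 : (p : R ⧸ q) = 0 := by
    rw [← map_natCast (Ideal.Quotient.mk q), h, map_zero]
  rw [ringChar.eq OO p]
  exact CharP.ringChar_of_prime_eq_zero h1 h2

/-- Finitely many basic open sets suffice. -/
theorem Good.fin (h : Good R) (f : Pnt R → R) (hf : ∀ y : Pnt R, y (f y) ≠ 0) :
    ∃ s : Finset (Pnt R), Ideal.span (f '' s) = ⊤ := by
  classical
  have h1 : Ideal.span (Set.range f) = ⊤ := by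
    by_contra h1
    obtain ⟨m, hm, hle⟩ := Ideal.exists_le_maximal _ h1
    obtain ⟨y, hy⟩ := h m hm.isPrime
    exact hf y (RingHom.mem_ker.1 (hy ▸ hle (Ideal.subset_span ⟨y, rfl⟩)))
  obtain ⟨t, ht, h2⟩ := Submodule.mem_span_finite_of_mem_span ((Ideal.eq_top_iff_one _).1 h1)
  obtain ⟨s, hs⟩ := Finset.subset_set_image_iff.1 (Set.image_univ (f := f) ▸ ht)
  refine ⟨s, (Ideal.eq_top_iff_one _).2 ?_⟩
  rw [← hs.2, Finset.coe_image] at h2
  exact h2

/-- A pointwise etale cover has a finite subcover. -/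
theorem Good.fin_cover (h : Good R) (U : Pnt R → Type) [∀ y, CommRing (U y)]
    (b : ∀ y, R →+* U y) (hb : ∀ y, (b y).Etale) (hz : ∀ y, ∃ z : Pnt (U y), z.comp (b y) = y) :
    ∃ s : Finset (Pnt R), Cov (RingHom.pi fun y : s => b y) := by
  have h1 : ∀ y : Pnt R, Nr y fun y' => ∃ z' : Pnt (U y), z'.comp (b y) = y' ∧ True := fun y => by
    obtain ⟨z, hz⟩ := hz y
    have := Nr.push_et (hb y) (z := z) (P := fun _ => True) (Nr.of_forall fun _ => trivial)
    rwa [hz] at this
  choose f hf hP using h1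
  obtain ⟨s, hs⟩ := h.fin f hf
  refine ⟨s, et_pi fun y => hb y, fun y => ?_⟩
  by_contra hn
  have h2 : Ideal.span (f '' s) ≤ RingHom.ker y := by
    rw [Ideal.span_le]
    rintro _ ⟨x, hx, rfl⟩
    by_contra h3
    obtain ⟨z, hz, -⟩ := hP x y h3
    exact hn ⟨z.comp (Pi.evalRingHom (fun y : s => U y) ⟨x, hx⟩), hz⟩
  rw [hs, top_le_iff] at h2
  exact RingHom.ker_ne_top y h2

/-- It is enough to cover the points whose kernel is maximal. -/
theorem Good.closed (h : Good R) (y : Pnt R) : ∃ y₀ : Pnt R, (RingHom.ker y₀).IsMaximal ∧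
    ∀ (W : Type) [CommRing W] (b : R →+* W), b.Etale → (∃ z₀ : Pnt W, z₀.comp b = y₀) →
      ∃ z : Pnt W, z.comp b = y := by
  obtain ⟨m, hm, hle⟩ := Ideal.exists_le_maximal _ (RingHom.ker_ne_top y)
  obtain ⟨y₀, rfl⟩ := h m hm.isPrime
  refine ⟨y₀, hm, fun W _ b hb ⟨z₀, hz⟩ => ?_⟩
  obtain ⟨h1, -, h2⟩ := RingHom.Etale.iff_flat_and_formallyUnramified.1 hb
  letI := b.toAlgebra
  have : Module.Flat R W := h1
  have := RingHom.ker_isPrime y
  have := RingHom.ker_isPrime z₀
  have : (RingHom.ker z₀).LiesOver (RingHom.ker y₀) := ⟨by rw [← hz]; rfl⟩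
  obtain ⟨q, -, hq, hq'⟩ := Ideal.exists_ideal_le_liesOver_of_le (RingHom.ker z₀) hle
  exact pnt_lift (RingHom.FiniteType.of_finitePresentation h2) y q hq hq'.over.symm

theorem Cov.ff (h : Good R) {b : R →+* V} (hb : Cov b) : b.FaithfullyFlat := by
  refine RingHom.FaithfullyFlat.iff_flat_and_comap_surjective.2
    ⟨(RingHom.Etale.iff_flat_and_formallyUnramified.1 hb.et).1, fun p => ?_⟩
  obtain ⟨y, hy⟩ := h p.asIdeal p.isPrime
  obtain ⟨z, rfl⟩ := hb.sur y
  exact ⟨⟨RingHom.ker z, RingHom.ker_isPrime z⟩, PrimeSpectrum.ext hy⟩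

/-- Descent of elements. -/
theorem Cov.descend (h : Good R) {b : R →+* V} (hb : Cov b) (v : V)
    (hv : Ten.inl b b v = Ten.inr b b v) : ∃ r, b r = v := by
  have h1 := hb.ff h
  algebraize [b]
  exact (Set.ext_iff.1 (Algebra.IsEffective.of_faithfullyFlat R V).eqLocus_includeLeft_includeRight
    v).1 hv

theorem Good.unit (h : Good R) {r : R} (hr : ∀ y : Pnt R, y r ≠ 0) : IsUnit r := by
  by_contra h1
  obtain ⟨m, hm, hle⟩ := exists_max_ideal_of_mem_nonunits (mem_nonunits_iff.2 h1)
  obtain ⟨y, rfl⟩ := h m hm.isPrime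
  exact hr y hle

end

end Pool.Agent.Lib.MP_16ef92_ag.RS
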