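import Mathlib
import Pool.Agent.Lib.MP_16ef92_ag.RS.Pts

set_option autoImplicit false
set_option linter.unusedSectionVars false
set_option linter.unusedVariables false
set_option linter.style.haveILetI false

namespace Pool.Agent.Lib.MP_16ef92_ag.RS

noncomputable section

variable [Bg]

/-- A rigid system: a sheaf on the etale site together with all its pullbacks, with sections
written as functions on points. -/
structure Sys (R : Type) [CommRing R] where
  A : Type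
  [grp : AddCommGroup A]
  M : Pnt R → AddSubgroup A
  S : ∀ {V : Type} [CommRing V], (R →+* V) → AddSubgroup (Pnt V → A)
  mem : ∀ {V : Type} [CommRing V] {a : R →+* V} {s : Pnt V → A}, s ∈ S a →
    ∀ y, s y ∈ M (y.comp a)
  res : ∀ {V W : Type} [CommRing V] [CommRing W] {a : R →+* V} (b : V →+* W) {s : Pnt V → A},
    s ∈ S a → rs b s ∈ S (b.comp a)
  loc : ∀ {V : Type} [CommRing V] {a : R →+* V} {s : Pnt V → A},
    (∀ y : Pnt V, ∃ (W : Type) (_ : CommRing W) (b : V →+* W) (z : Pnt W),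
      b.Etale ∧ z.comp b = y ∧ rs b s ∈ S (b.comp a)) → s ∈ S a
  stalk : ∀ (x : Pnt R), ∀ m ∈ M x, ∃ (W : Type) (_ : CommRing W) (c : R →+* W) (y : Pnt W)
    (t : Pnt W → A), c.Etale ∧ y.comp c = x ∧ t ∈ S c ∧ t y = m
  sep : ∀ {V : Type} [CommRing V] {a : R →+* V} {s : Pnt V → A}, s ∈ S a → ∀ y, s y = 0 →
    Nr y fun y' => s y' = 0

attribute [instance] Sys.grp

variable {R R' R'' V W : Type} [CommRing R] [CommRing R'] [CommRing R''] [CommRing V] [CommRing W]

theorem Sys.res' (F : Sys R) {a : R →+* V} {a' : R →+* W} (b : V →+* W) (h : b.comp a = a')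
    {s : Pnt V → F.A} (hs : s ∈ F.S a) : rs b s ∈ F.S a' := h ▸ F.res b hs

theorem Sys.sep' (F : Sys R) {a : R →+* V} {s t : Pnt V → F.A} (hs : s ∈ F.S a) (ht : t ∈ F.S a)
    {y : Pnt V} (h : s y = t y) : Nr y fun y' => s y' = t y' :=
  (F.sep (sub_mem hs ht) y (sub_eq_zero.2 h)).mono fun _ h => sub_eq_zero.1 h

/-- Every section comes locally from an etale algebra over the base. -/
theorem Sys.et (F : Sys R) {a : R →+* V} {s : Pnt V → F.A} (hs : s ∈ F.S a) (y : Pnt V) :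
    ∃ (W : Type) (_ : CommRing W) (c : R →+* W) (V' : Type) (_ : CommRing V') (b : V →+* V')
      (d : W →+* V') (z : Pnt V') (t : Pnt W → F.A), c.Etale ∧ b.Etale ∧ d.comp c = b.comp a ∧
      z.comp b = y ∧ t ∈ F.S c ∧ rs b s = rs d t := by
  obtain ⟨W, _, c, y1, t, hc, hy, ht, hm⟩ := F.stalk _ _ (F.mem hs y)
  have h1 : rs (Ten.inl a c) s ∈ F.S ((Ten.inl a c).comp a) := F.res _ hs
  have h2 : rs (Ten.inr a c) t ∈ F.S ((Ten.inl a c).comp a) := F.res' _ (Ten.comm a c).symm ht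
  obtain ⟨f, hf, h⟩ := F.sep' h1 h2 (y := Ten.lift y y1 hy.symm)
    (by rw [rs_apply, rs_apply, Ten.lift_inl, Ten.lift_inr, hm])
  obtain ⟨z, hz⟩ := pnt_away _ hf
  refine ⟨W, _, c, Localization.Away f, _, (algebraMap _ _).comp (Ten.inl a c),
    (algebraMap _ _).comp (Ten.inr a c), z, t, hc, et_comp (Ten.etale_inl a hc) (et_away f),
    ?_, ?_, ht, funext fun z' => h _ (pnt_away_ne z')⟩
  · rw [RingHom.comp_assoc, RingHom.comp_assoc, Ten.comm]
  · rw [← RingHom.comp_assoc, hz, Ten.lift_inl]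

/-- A function that agrees near every point with a section is a section. -/
theorem Sys.loc_nr (F : Sys R) {a : R →+* V} {s : Pnt V → F.A}
    (h : ∀ y, ∃ t ∈ F.S a, Nr y fun y' => s y' = t y') : s ∈ F.S a := by
  refine F.loc fun y => ?_
  obtain ⟨t, ht, f, hf, h⟩ := h y
  obtain ⟨z, hz⟩ := pnt_away y hf
  refine ⟨Localization.Away f, _, algebraMap _ _, z, et_away f, hz, ?_⟩
  have e : rs (algebraMap V (Localization.Away f)) s = rs (algebraMap _ _) t :=
    funext fun z' => h _ (pnt_away_ne z')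
  rw [e]
  exact F.res _ ht

/-- Descent of sections along a cover. -/
theorem Sys.desc (F : Sys R) {a : R →+* V} {b : V →+* W} (hb : Cov b) {s : Pnt V → F.A}
    (h : rs b s ∈ F.S (b.comp a)) : s ∈ F.S a :=
  F.loc fun y => by
    obtain ⟨z, hz⟩ := hb.sur y
    exact ⟨W, _, b, z, hb.et, hz, h⟩

/-- Pullback. -/
def Sys.pb (F : Sys R) (g : R →+* R') : Sys R' where
  A := F.A
  M x := F.M (x.comp g)
  S a := F.S (a.comp g)
  mem h := F.mem h
  res b _ h := F.res b h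
  loc h := F.loc h
  stalk x m hm := by
    obtain ⟨W, _, c, y, t, hc, hy, ht, rfl⟩ := F.stalk _ m hm
    refine ⟨Ten c g, _, Ten.inr c g, Ten.lift y x hy, rs (Ten.inl c g) t, Ten.etale_inr g hc,
      Ten.lift_inr .., F.res' _ (Ten.comm c g) ht, ?_⟩
    rw [rs_apply, Ten.lift_inl]
  sep h := F.sep h

theorem Sys.pb_pb (F : Sys R) (g : R →+* R') (g' : R' →+* R'') :
    (F.pb g).pb g' = F.pb (g'.comp g) := rfl

theorem Sys.pb_id (F : Sys R) : F.pb (RingHom.id R) = F := rfl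

/-- Killed by `n`. -/
def Sys.Tor (F : Sys R) (n : ℕ) : Prop := ∀ x, ∀ m ∈ F.M x, n • m = 0

theorem Sys.Tor.pb {F : Sys R} {n : ℕ} (h : F.Tor n) (g : R →+* R') : (F.pb g).Tor n :=
  fun _ => h _

/-- A morphism over the ring homomorphism `g`, that is a morphism from the pullback. -/
structure Mor (g : R →+* R') (F : Sys R) (F' : Sys R') where
  φ : Pnt R' → F.A → F'.A
  add : ∀ x, ∀ u ∈ F.M (x.comp g), ∀ v ∈ F.M (x.comp g), φ x (u + v) = φ x u + φ x v
  mem : ∀ x, ∀ u ∈ F.M (x.comp g), φ x u ∈ F'.M x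
  sec : ∀ {V : Type} [CommRing V] {a : R' →+* V} {s : Pnt V → F.A}, s ∈ F.S (a.comp g) →
    (fun y => φ (y.comp a) (s y)) ∈ F'.S a

/-- Morphisms over the identity. -/
abbrev Hom (F G : Sys R) : Type := Mor (RingHom.id R) F G

variable {g : R →+* R'} {g' : R' →+* R''} {F G : Sys R} {F' G' : Sys R'} {F'' : Sys R''}

theorem Mor.zero (m : Mor g F F') (x : Pnt R') : m.φ x 0 = 0 := by
  simpa using m.add x 0 (zero_mem _) 0 (zero_mem _)

theorem Mor.neg (m : Mor g F F') (x : Pnt R') {u : F.A} (hu : u ∈ F.M (x.comp g)) :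
    m.φ x (-u) = -m.φ x u := by
  rw [eq_neg_iff_add_eq_zero, ← m.add x _ (neg_mem hu) _ hu, neg_add_cancel, m.zero]

theorem Mor.sub (m : Mor g F F') (x : Pnt R') {u v : F.A} (hu : u ∈ F.M (x.comp g))
    (hv : v ∈ F.M (x.comp g)) : m.φ x (u - v) = m.φ x u - m.φ x v := by
  rw [sub_eq_add_neg, m.add x _ hu _ (neg_mem hv), m.neg x hv, sub_eq_add_neg]

/-- The stalk map as a homomorphism. -/
def Mor.hom (m : Mor g F F') (x : Pnt R') : F.M (x.comp g) →+ F'.A :=
  AddMonoidHom.mk' (fun u => m.φ x u) fun u v => m.add x _ u.2 _ v.2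

theorem Mor.nsmul (m : Mor g F F') (x : Pnt R') {u : F.A} (hu : u ∈ F.M (x.comp g)) (n : ℕ) :
    m.φ x (n • u) = n • m.φ x u := map_nsmul (m.hom x) n ⟨u, hu⟩

/-- It is enough to check sections over etale algebras. -/
theorem sec_of_et (φ : Pnt R' → F.A → F'.A)
    (h : ∀ (W : Type) [CommRing W] (c : R →+* W) (t : Pnt W → F.A), c.Etale → t ∈ F.S c →
      ∀ (V : Type) [CommRing V] (a : R' →+* V) (d : W →+* V), d.comp c = a.comp g →
        (fun y => φ (y.comp a) (t (y.comp d))) ∈ F'.S a)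
    {V : Type} [CommRing V] {a : R' →+* V} {s : Pnt V → F.A} (hs : s ∈ F.S (a.comp g)) :
    (fun y => φ (y.comp a) (s y)) ∈ F'.S a := by
  refine F'.loc fun y => ?_
  obtain ⟨W, _, c, V', _, b, d, z, t, hc, hb, hd, hz, ht, e⟩ := F.et hs y
  refine ⟨V', _, b, z, hb, hz, ?_⟩
  have e2 : rs b (fun y => φ (y.comp a) (s y)) =
      fun y => φ (y.comp (b.comp a)) (t (y.comp d)) :=
    funext fun z' => congrArg (φ _) (congrFun e z')
  rw [e2]
  exact h W c t hc ht V' (b.comp a) d hd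

/-- Composition. -/
def Mor.comp (m : Mor g F F') (m' : Mor g' F' F'') : Mor (g'.comp g) F F'' where
  φ x u := m'.φ x (m.φ (x.comp g') u)
  add x u hu v hv := by
    rw [m.add _ u hu v hv, m'.add _ _ (m.mem _ u hu) _ (m.mem _ v hv)]
  mem x u hu := m'.mem x _ (m.mem _ u hu)
  sec hs := m'.sec (m.sec hs)

/-- The tautological morphism between two pullbacks. -/
def Sys.rm (F : Sys R) {a : R →+* V} {a' : R →+* W} (b : V →+* W) (h : b.comp a = a') :
    Mor b (F.pb a) (F.pb a') where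
  φ _ u := u
  add _ _ _ _ _ := rfl
  mem x u hu := by subst h; exact hu
  sec hs := by subst h; exact hs

/-- The tautological morphism to the pullback. -/
def Sys.can (F : Sys R) (g : R →+* R') : Mor g F (F.pb g) where
  φ _ u := u
  add _ _ _ _ _ := rfl
  mem _ _ hu := hu
  sec hs := hs

/-- A morphism over `g` as a morphism from the pullback. -/
def Mor.toHom (m : Mor g F F') : Hom (F.pb g) F' := ⟨m.φ, m.add, m.mem, m.sec⟩

/-- Pullback of a morphism. -/
def Mor.pb (m : Hom F G) (g : R →+* R') : Hom (F.pb g) (G.pb g) where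
  φ x := m.φ (x.comp g)
  add x := m.add (x.comp g)
  mem x := m.mem (x.comp g)
  sec hs := m.sec (a := RingHom.comp _ g) hs

/-- Sum of morphisms. -/
def Mor.plus (m m' : Mor g F F') : Mor g F F' where
  φ x u := m.φ x u + m'.φ x u
  add x u hu v hv := by rw [m.add x u hu v hv, m'.add x u hu v hv]; abel
  mem x u hu := add_mem (m.mem x u hu) (m'.mem x u hu)
  sec hs := add_mem (m.sec hs) (m'.sec hs)

/-- Integer multiples of the identity. -/
def Sys.mul (F : Sys R) (k : ℤ) : Hom F F where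
  φ _ u := k • u
  add _ u _ v _ := zsmul_add u v k
  mem _ _ hu := zsmul_mem hu k
  sec hs := zsmul_mem hs k

/-- Injective on stalks. -/
def Mor.Inj (m : Mor g F F') : Prop := ∀ x, ∀ u ∈ F.M (x.comp g), m.φ x u = 0 → u = 0

/-- Surjective on stalks. -/
def Mor.Surj (m : Mor g F F') : Prop := ∀ x, ∀ v ∈ F'.M x, ∃ u ∈ F.M (x.comp g), m.φ x u = v

/-- The image of a stalk. -/
def Mor.im (m : Mor g F F') (x : Pnt R') : AddSubgroup F'.A := (m.hom x).range

theorem Mor.mem_im {m : Mor g F F'} {x : Pnt R'} {v : F'.A} :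
    v ∈ m.im x ↔ ∃ u ∈ F.M (x.comp g), m.φ x u = v :=
  ⟨fun ⟨u, h⟩ => ⟨u, u.2, h⟩, fun ⟨u, hu, h⟩ => ⟨⟨u, hu⟩, h⟩⟩

/-- Short exact sequences. -/
structure SES {F₁ F₂ F₃ : Sys R} (i : Hom F₁ F₂) (p : Hom F₂ F₃) : Prop where
  inj : i.Inj
  ex : ∀ x, ∀ v ∈ F₂.M x, p.φ x v = 0 ↔ v ∈ i.im x
  surj : p.Surj

theorem SES.pb {F₁ F₂ F₃ : Sys R} {i : Hom F₁ F₂} {p : Hom F₂ F₃} (h : SES i p) (g : R →+* R') :
    SES (i.pb g) (p.pb g) :=
  ⟨fun x => h.inj (x.comp g), fun x => h.ex (x.comp g), fun x => h.surj (x.comp g)⟩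

/-- Sections with values in the image lift locally. -/
theorem Mor.lift_loc (m : Hom F G) {a : R →+* V} {s : Pnt V → G.A} (hs : s ∈ G.S a) (y : Pnt V)
    (h : s y ∈ m.im (y.comp a)) : ∃ (W : Type) (_ : CommRing W) (b : V →+* W) (z : Pnt W)
      (t : Pnt W → F.A), b.Etale ∧ z.comp b = y ∧ t ∈ F.S (b.comp a) ∧
      ∀ z', m.φ (z'.comp (b.comp a)) (t z') = s (z'.comp b) := by
  obtain ⟨u, hu, e⟩ := Mor.mem_im.1 h
  obtain ⟨W, _, c, z, t, hc, hz, ht, rfl⟩ := (F.pb a).stalk y u hu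
  subst hz
  have h1 : (fun z' : Pnt W => m.φ (z'.comp (c.comp a)) (t z')) ∈ G.S (c.comp a) :=
    m.sec (a := c.comp a) ht
  obtain ⟨f, hf, h⟩ := G.sep' h1 (G.res c hs) (y := z) e
  obtain ⟨z₁, hz₁⟩ := pnt_away z hf
  refine ⟨Localization.Away f, _, (algebraMap _ _).comp c, z₁, rs (algebraMap _ _) t,
    et_comp hc (et_away f), ?_, F.res (algebraMap W (Localization.Away f)) ht,
    fun z' => h _ (pnt_away_ne z')⟩
  rw [← RingHom.comp_assoc, hz₁]

/-- A function whose image under an injective morphism is a section is a section. -/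
theorem Mor.sec_of_inj (m : Hom F G) (hm : m.Inj) {a : R →+* V} {t : Pnt V → F.A}
    (ht : ∀ y, t y ∈ F.M (y.comp a)) (h : (fun y => m.φ (y.comp a) (t y)) ∈ G.S a) :
    t ∈ F.S a := by
  refine F.loc fun y => ?_
  obtain ⟨W, _, b, z, t', hb, hz, ht', e⟩ := m.lift_loc h y (Mor.mem_im.2 ⟨_, ht y, rfl⟩)
  refine ⟨W, _, b, z, hb, hz, ?_⟩
  have e2 : rs b t = t' := funext fun z' => by
    have h1 : t' z' ∈ F.M (z'.comp (b.comp a)) := F.mem ht' z'
    have h2 : t (z'.comp b) ∈ F.M (z'.comp (b.comp a)) := ht (z'.comp b)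
    refine (sub_eq_zero.1 (hm (z'.comp (b.comp a)) _ (sub_mem h1 h2) ?_)).symm
    rw [m.sub _ h1 h2, e z']
    exact sub_self _
  rw [e2]
  exact ht'

/-- A morphism that is bijective on stalks has an inverse. -/
theorem Mor.exists_inv (m : Hom F G) (h1 : m.Inj) (h2 : m.Surj) : ∃ m' : Hom G F,
    (∀ x, ∀ u ∈ F.M x, m'.φ x (m.φ x u) = u) ∧ ∀ x, ∀ v ∈ G.M x, m.φ x (m'.φ x v) = v := by
  have hi : ∀ x, ∀ u ∈ F.M x, ∀ v ∈ F.M x, m.φ x u = m.φ x v → u = v := fun x u hu v hv e =>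
    sub_eq_zero.1 (h1 x _ (sub_mem hu hv) (by rw [m.sub x hu hv, e, sub_self]))
  choose! ψ hψ e using h2
  refine ⟨⟨ψ, fun x u hu v hv => ?_, fun x u hu => hψ x u hu, fun {V} _ a s hs => ?_⟩,
    fun x u hu => hi x _ (hψ x _ (m.mem x u hu)) _ hu (e x _ (m.mem x u hu)), e⟩
  · refine hi x _ (hψ x _ (add_mem hu hv)) _ (add_mem (hψ x u hu) (hψ x v hv)) ?_
    rw [m.add x _ (hψ x u hu) _ (hψ x v hv), e x _ (add_mem hu hv), e x u hu, e x v hv]
  · refine m.sec_of_inj h1 (fun y => hψ _ _ (G.mem hs y)) ?_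
    have e2 : (fun y : Pnt V => m.φ (y.comp a) (ψ (y.comp a) (s y))) = s :=
      funext fun y => e _ _ (G.mem hs y)
    rw [e2]
    exact hs

/-- Global sections. -/
def Z0 (F : Sys R) : AddSubgroup (Pnt R → F.A) := F.S (RingHom.id R)

/-- The map on global sections. -/
def Mor.app (m : Mor g F F') : Z0 F →+ Z0 F' :=
  AddMonoidHom.mk' (fun s => ⟨fun x => m.φ x (s.1 (x.comp g)),
    m.sec (a := RingHom.id R') (F.res g s.2)⟩) fun s t =>
      Subtype.ext (funext fun x => m.add x _ (F.mem s.2 (x.comp g)) _ (F.mem t.2 (x.comp g)))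

@[simp] theorem Mor.app_val (m : Mor g F F') (s : Z0 F) (x : Pnt R') :
    (m.app s).1 x = m.φ x (s.1 (x.comp g)) := rfl

end

end Pool.Agent.Lib.MP_16ef92_ag.RS
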