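import Mathlib
import Pool.Agent.Lib.MP_16ef92_ag.RS.Sys

set_option autoImplicit false
set_option linter.unusedSectionVars false
set_option linter.unusedVariables false
set_option linter.style.haveILetI false

namespace Pool.Agent.Lib.MP_16ef92_ag.RS

noncomputable section

variable [Bg] {R R' R'' V W : Type} [CommRing R] [CommRing R'] [CommRing R''] [CommRing V]
  [CommRing W] {g : R →+* R'} {F G : Sys R} {F' G' : Sys R'}

section Sub

/-- An open family of subgroups of the stalks. -/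
structure Opn (F : Sys R) (K : Pnt R → AddSubgroup F.A) : Prop where
  le : ∀ x, K x ≤ F.M x
  op : ∀ {V : Type} [CommRing V] {a : R →+* V} {s : Pnt V → F.A}, s ∈ F.S a → ∀ y,
    s y ∈ K (y.comp a) → Nr y fun y' => s y' ∈ K (y'.comp a)

theorem Opn.stalk {K : Pnt R → AddSubgroup F.A} (h : Opn F K) (x : Pnt R) (m : F.A) (hm : m ∈ K x) :
    ∃ (W : Type) (_ : CommRing W) (c : R →+* W) (y : Pnt W) (t : Pnt W → F.A), c.Etale ∧
      y.comp c = x ∧ (t ∈ F.S c ∧ ∀ y', t y' ∈ K (y'.comp c)) ∧ t y = m := by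
  obtain ⟨W, _, c, y, t, hc, rfl, ht, rfl⟩ := F.stalk x m (h.le x hm)
  obtain ⟨f, hf, h1⟩ := h.op ht y hm
  obtain ⟨z, rfl⟩ := pnt_away y hf
  exact ⟨Localization.Away f, _, (algebraMap W _).comp c, z, rs (algebraMap W _) t,
    et_comp hc (et_away f), rfl, ⟨F.res _ ht, fun z' => h1 _ (pnt_away_ne z')⟩, rfl⟩

theorem Opn.loc {K : Pnt R → AddSubgroup F.A} (h : Opn F K) {a : R →+* V} {s : Pnt V → F.A}
    (hs : ∀ y : Pnt V, ∃ (W : Type) (_ : CommRing W) (b : V →+* W) (z : Pnt W), b.Etale ∧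
      z.comp b = y ∧ (rs b s ∈ F.S (b.comp a) ∧ ∀ z', rs b s z' ∈ K (z'.comp (b.comp a)))) :
    s ∈ F.S a ∧ ∀ y, s y ∈ K (y.comp a) := by
  refine ⟨F.loc fun y => ?_, fun y => ?_⟩
  · obtain ⟨W, _, b, z, h1, h2, h3⟩ := hs y
    exact ⟨W, _, b, z, h1, h2, h3.1⟩
  · obtain ⟨W, _, b, z, h1, rfl, h3⟩ := hs y
    exact h3.2 z

/-- The subsystem. -/
def Opn.sys {K : Pnt R → AddSubgroup F.A} (h : Opn F K) : Sys R where
  A := F.A
  M := K
  S a :=
    { carrier := {s | s ∈ F.S a ∧ ∀ y : Pnt _, s y ∈ K (y.comp a)}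
      add_mem' := fun hs ht => ⟨add_mem hs.1 ht.1, fun y => add_mem (hs.2 y) (ht.2 y)⟩
      zero_mem' := ⟨zero_mem _, fun _ => zero_mem _⟩
      neg_mem' := fun hs => ⟨neg_mem hs.1, fun y => neg_mem (hs.2 y)⟩ }
  mem hs := hs.2
  res b _ hs := ⟨F.res b hs.1, fun z => hs.2 (z.comp b)⟩
  loc hs := h.loc hs
  stalk := h.stalk
  sep hs := F.sep hs.1

/-- The inclusion of a subsystem. -/
def Opn.inc {K : Pnt R → AddSubgroup F.A} (h : Opn F K) : Hom h.sys F where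
  φ _ u := u
  add _ _ _ _ _ := rfl
  mem x _ hu := h.le x hu
  sec hs := hs.1

theorem Mor.opn_im (m : Hom F G) : Opn G m.im := by
  refine ⟨fun x v hv => ?_, fun {V} _ {a s} hs y hy => ?_⟩
  · obtain ⟨u, hu, rfl⟩ := Mor.mem_im.1 hv
    exact m.mem x u hu
  · obtain ⟨W, _, b, z, t, hb, rfl, ht, e⟩ := m.lift_loc hs y hy
    refine (Nr.push_et hb (Nr.of_forall (y := z) (P := fun _ => True) fun _ => trivial)).mono ?_
    rintro _ ⟨z', rfl, -⟩
    exact Mor.mem_im.2 ⟨t z', F.mem ht z', e z'⟩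

theorem Mor.opn_ker (m : Hom F G) : Opn F fun x => (m.hom x).ker.map (F.M x).subtype := by
  refine ⟨?_, fun {V} _ {a s} hs y hy => ?_⟩
  · rintro x _ ⟨u, -, rfl⟩
    exact u.2
  · obtain ⟨u, hu, e⟩ := hy
    have h0 : m.φ (y.comp a) (s y) = 0 := e ▸ hu
    exact (G.sep (m.sec (a := a) hs) y h0).mono fun y' h => ⟨⟨s y', F.mem hs y'⟩, h, rfl⟩

end Sub

section Cok

open Classical in
/-- The class of `u` in the cokernel at `x`. -/
def Mor.cmk (i : Hom F G) (x : Pnt R) : G.A →+ ∀ x : Pnt R, G.A ⧸ i.im x :=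
  (AddMonoidHom.single (fun x => G.A ⧸ i.im x) x).comp (QuotientAddGroup.mk' _)

theorem Mor.cmk_eq_zero (i : Hom F G) {x : Pnt R} {u : G.A} : i.cmk x u = 0 ↔ u ∈ i.im x := by
  classical
  rw [← QuotientAddGroup.eq_zero_iff]
  exact Pi.single_eq_zero_iff

/-- Sections of the cokernel. -/
def Mor.CS (i : Hom F G) (a : R →+* V) (σ : Pnt V → ∀ x : Pnt R, G.A ⧸ i.im x) : Prop :=
  ∀ y : Pnt V, ∃ (W : Type) (_ : CommRing W) (b : V →+* W) (z : Pnt W) (t : Pnt W → G.A),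
    b.Etale ∧ z.comp b = y ∧ t ∈ G.S (b.comp a) ∧
      ∀ z', σ (z'.comp b) = i.cmk (z'.comp (b.comp a)) (t z')

theorem Mor.cs_zero (i : Hom F G) (a : R →+* V) : i.CS a 0 := by
  exact fun y => ⟨V, _, RingHom.id V, y, 0, et_id, rfl, zero_mem _, fun _ => (map_zero _).symm⟩

theorem Mor.cs_add (i : Hom F G) {a : R →+* V} {σ τ : Pnt V → ∀ x : Pnt R, G.A ⧸ i.im x}
    (h : i.CS a σ) (h' : i.CS a τ) : i.CS a (σ + τ) := by
  intro y
  obtain ⟨W, _, b, z, t, hb, hz, ht, e⟩ := h y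
  obtain ⟨W', _, b', z', t', hb', hz', ht', e'⟩ := h' y
  have c1 : (Ten.inr b b').comp (b'.comp a) = ((Ten.inl b b').comp b).comp a := by
    rw [← RingHom.comp_assoc, ← Ten.comm]
  refine ⟨Ten b b', _, (Ten.inl b b').comp b, Ten.lift z z' (hz.trans hz'.symm),
    rs (Ten.inl b b') t + rs (Ten.inr b b') t', et_comp hb (Ten.etale_inl b hb'), ?_,
    add_mem (G.res' _ (RingHom.comp_assoc ..).symm ht) (G.res' _ c1 ht'), fun w => ?_⟩
  · rw [← RingHom.comp_assoc, Ten.lift_inl, hz]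
  · have h2 := e' (w.comp (Ten.inr b b'))
    rw [RingHom.comp_assoc, RingHom.comp_assoc, c1, ← Ten.comm] at h2
    rw [Pi.add_apply, Pi.add_apply, map_add, h2]
    exact congrArg (· + _) (e (w.comp (Ten.inl b b')))

theorem Mor.cs_neg (i : Hom F G) {a : R →+* V} {σ : Pnt V → ∀ x : Pnt R, G.A ⧸ i.im x}
    (h : i.CS a σ) : i.CS a (-σ) := by
  intro y
  obtain ⟨W, _, b, z, t, hb, hz, ht, e⟩ := h y
  exact ⟨W, _, b, z, -t, hb, hz, neg_mem ht, fun w => by
    rw [Pi.neg_apply, Pi.neg_apply, map_neg, e w]⟩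

theorem Mor.cs_mem (i : Hom F G) {a : R →+* V} {σ : Pnt V → ∀ x : Pnt R, G.A ⧸ i.im x}
    (h : i.CS a σ) (y : Pnt V) : σ y ∈ (G.M (y.comp a)).map (i.cmk (y.comp a)) := by
  obtain ⟨W, _, b, z, t, hb, rfl, ht, e⟩ := h y
  exact ⟨t z, G.mem ht z, (e z).symm⟩

theorem Mor.cs_res (i : Hom F G) {a : R →+* V} (b : V →+* W)
    {σ : Pnt V → ∀ x : Pnt R, G.A ⧸ i.im x} (h : i.CS a σ) : i.CS (b.comp a) (rs b σ) := by
  intro z
  obtain ⟨W', _, b', z', t, hb', hz', ht, e⟩ := h (z.comp b)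
  have c1 : (Ten.inr b b').comp (b'.comp a) = (Ten.inl b b').comp (b.comp a) := by
    rw [← RingHom.comp_assoc, ← Ten.comm, RingHom.comp_assoc]
  refine ⟨Ten b b', _, Ten.inl b b', Ten.lift z z' hz'.symm, rs (Ten.inr b b') t,
    Ten.etale_inl b hb', Ten.lift_inl .., G.res' _ c1 ht, fun w => ?_⟩
  have h2 := e (w.comp (Ten.inr b b'))
  rw [RingHom.comp_assoc, RingHom.comp_assoc, c1, ← Ten.comm] at h2
  exact h2

theorem Mor.cs_loc (i : Hom F G) {a : R →+* V} {σ : Pnt V → ∀ x : Pnt R, G.A ⧸ i.im x}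
    (h : ∀ y : Pnt V, ∃ (W : Type) (_ : CommRing W) (b : V →+* W) (z : Pnt W),
      b.Etale ∧ z.comp b = y ∧ i.CS (b.comp a) (rs b σ)) : i.CS a σ := by
  intro y
  obtain ⟨W, _, b, z, hb, rfl, h1⟩ := h y
  obtain ⟨W', _, b', z', t, hb', rfl, ht, e⟩ := h1 z
  exact ⟨W', _, b'.comp b, z', t, et_comp hb hb', rfl, ht, e⟩

theorem Mor.cs_mk (i : Hom F G) {a : R →+* V} {t : Pnt V → G.A} (ht : t ∈ G.S a) :
    i.CS a fun y => i.cmk (y.comp a) (t y) := by
  exact fun y => ⟨V, _, RingHom.id V, y, t, et_id, rfl, ht, fun _ => rfl⟩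

theorem Mor.cs_sep (i : Hom F G) {a : R →+* V} {σ : Pnt V → ∀ x : Pnt R, G.A ⧸ i.im x}
    (h : i.CS a σ) (y : Pnt V) (h0 : σ y = 0) : Nr y fun y' => σ y' = 0 := by
  obtain ⟨W, _, b, z, t, hb, rfl, ht, e⟩ := h y
  refine (Nr.push_et hb (i.opn_im.op ht z (i.cmk_eq_zero.1 ((e z).symm.trans h0)))).mono ?_
  rintro _ ⟨z', rfl, h1⟩
  exact (e z').trans (i.cmk_eq_zero.2 h1)

/-- The cokernel. -/
def Mor.cok (i : Hom F G) : Sys R where
  A := ∀ x : Pnt R, G.A ⧸ i.im x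
  M x := (G.M x).map (i.cmk x)
  S a :=
    { carrier := {σ | i.CS a σ}
      add_mem' := i.cs_add
      zero_mem' := i.cs_zero a
      neg_mem' := i.cs_neg }
  mem h := i.cs_mem h
  res b _ h := i.cs_res b h
  loc h := i.cs_loc h
  stalk := by
    rintro x _ ⟨u, hu, rfl⟩
    obtain ⟨W, _, c, y, t, hc, rfl, ht, rfl⟩ := G.stalk x u hu
    exact ⟨W, _, c, y, fun y => i.cmk (y.comp c) (t y), hc, rfl, i.cs_mk ht, rfl⟩
  sep h := i.cs_sep h

/-- The projection to the cokernel. -/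
def Mor.pr (i : Hom F G) : Hom G i.cok where
  φ x u := i.cmk x u
  add x u _ v _ := map_add _ u v
  mem _ u hu := ⟨u, hu, rfl⟩
  sec hs := i.cs_mk hs

theorem Mor.ses_cok (i : Hom F G) (h : i.Inj) : SES i i.pr :=
  ⟨h, fun _ _ _ => i.cmk_eq_zero, fun _ _ ⟨u, hu, e⟩ => ⟨u, hu, e⟩⟩

/-- The universal property of a stalkwise surjection `p : G → K`. -/
theorem Mor.exists_desc {K : Sys R} (p : Hom G K) (hp : p.Surj) (m : Mor g G G')
    (h : ∀ x, ∀ u ∈ G.M (x.comp g), p.φ (x.comp g) u = 0 → m.φ x u = 0) :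
    ∃ m' : Mor g K G', ∀ x, ∀ u ∈ G.M (x.comp g), m'.φ x (p.φ (x.comp g) u) = m.φ x u := by
  classical
  let φ : Pnt R' → K.A → G'.A := fun x v =>
    if hv : v ∈ K.M (x.comp g) then m.φ x (hp (x.comp g) v hv).choose else 0
  have key : ∀ x, ∀ u ∈ G.M (x.comp g), φ x (p.φ (x.comp g) u) = m.φ x u := by
    intro x u hu
    have hv := p.mem (x.comp g) u hu
    obtain ⟨h1, h2⟩ := (hp (x.comp g) _ hv).choose_spec
    have h3 := h x _ (sub_mem h1 hu) (by rw [p.sub _ h1 hu, h2, sub_self])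
    rw [m.sub x h1 hu, sub_eq_zero] at h3
    exact (dif_pos hv).trans h3
  refine ⟨⟨φ, fun x u hu v hv => ?_, fun x u hu => ?_, fun {V} _ {a s} hs => ?_⟩, key⟩
  · obtain ⟨u, hu', rfl⟩ := hp _ u hu
    obtain ⟨v, hv', rfl⟩ := hp _ v hv
    rw [← p.add _ u hu' v hv', key x _ (add_mem hu' hv'), key x u hu', key x v hv',
      m.add x u hu' v hv']
  · obtain ⟨u, hu', rfl⟩ := hp _ u hu
    rw [key x u hu']
    exact m.mem x u hu'
  · refine G'.loc fun y => ?_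
    obtain ⟨W, _, b, z, t, hb, hz, ht, e⟩ :=
      p.lift_loc hs y (Mor.mem_im.2 (hp _ _ (K.mem hs y)))
    refine ⟨W, _, b, z, hb, hz, ?_⟩
    have e1 : (rs b fun y => φ (y.comp a) (s y)) = fun w => m.φ (w.comp (b.comp a)) (t w) :=
      funext fun w => by
        rw [rs_apply, ← e w]
        exact key (w.comp (b.comp a)) (t w) (G.mem ht w)
    rw [e1]
    exact m.sec (a := b.comp a) ht

/-- The universal property of a stalkwise injection `i : F' → G'`. -/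
theorem Mor.exists_lift (i : Hom F' G') (hi : i.Inj) (m : Mor g G G')
    (h : ∀ x, ∀ u ∈ G.M (x.comp g), m.φ x u ∈ i.im x) :
    ∃ m' : Mor g G F', ∀ x, ∀ u ∈ G.M (x.comp g), i.φ x (m'.φ x u) = m.φ x u := by
  classical
  let φ : Pnt R' → G.A → F'.A := fun x u =>
    if hu : u ∈ G.M (x.comp g) then (Mor.mem_im.1 (h x u hu)).choose else 0
  have key : ∀ x, ∀ u ∈ G.M (x.comp g), φ x u ∈ F'.M x ∧ i.φ x (φ x u) = m.φ x u := by
    intro x u hu
    have e : φ x u = (Mor.mem_im.1 (h x u hu)).choose := dif_pos hu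
    rw [e]
    exact (Mor.mem_im.1 (h x u hu)).choose_spec
  refine ⟨⟨φ, fun x u hu v hv => ?_, fun x u hu => (key x u hu).1, fun {V} _ {a s} hs => ?_⟩,
    fun x u hu => (key x u hu).2⟩
  · have h1 := key x _ (add_mem hu hv)
    have h2 := key x u hu
    have h3 := key x v hv
    refine sub_eq_zero.1 (hi x _ (sub_mem h1.1 (add_mem h2.1 h3.1)) ?_)
    rw [i.sub x h1.1 (add_mem h2.1 h3.1), i.add x _ h2.1 _ h3.1, h1.2, h2.2, h3.2,
      m.add x u hu v hv, sub_self]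
  · refine i.sec_of_inj hi (fun y => (key _ _ (G.mem hs y)).1) ?_
    have e1 : (fun y : Pnt V => i.φ (y.comp a) (φ (y.comp a) (s y))) =
        fun y => m.φ (y.comp a) (s y) := funext fun y => (key _ _ (G.mem hs y)).2
    rw [e1]
    exact m.sec hs

end Cok

section Prod

theorem prod_stalk (F G : Sys R) (x : Pnt R) (m : F.A × G.A) (hm : m ∈ (F.M x).prod (G.M x)) :
    ∃ (W : Type) (_ : CommRing W) (c : R →+* W) (y : Pnt W) (t : Pnt W → F.A × G.A), c.Etale ∧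
      y.comp c = x ∧ ((fun y => (t y).1) ∈ F.S c ∧ (fun y => (t y).2) ∈ G.S c) ∧ t y = m := by
  obtain ⟨W, _, c, y, t, hc, hy, ht, e⟩ := F.stalk x m.1 hm.1
  obtain ⟨W', _, c', y', t', hc', hy', ht', e'⟩ := G.stalk x m.2 hm.2
  refine ⟨Ten c c', _, (Ten.inl c c').comp c, Ten.lift y y' (hy.trans hy'.symm),
    fun w => (t (w.comp (Ten.inl c c')), t' (w.comp (Ten.inr c c'))),
    et_comp hc (Ten.etale_inl c hc'), ?_,
    ⟨F.res _ ht, G.res' (Ten.inr c c') (Ten.comm c c').symm ht'⟩, ?_⟩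
  · rw [← RingHom.comp_assoc, Ten.lift_inl, hy]
  · simp only [Ten.lift_inl, Ten.lift_inr, e, e']

/-- The direct sum of two systems. -/
def Sys.prod (F G : Sys R) : Sys R where
  A := F.A × G.A
  M x := (F.M x).prod (G.M x)
  S a :=
    { carrier := {s | (fun y => (s y).1) ∈ F.S a ∧ (fun y => (s y).2) ∈ G.S a}
      add_mem' := fun hs ht => ⟨add_mem hs.1 ht.1, add_mem hs.2 ht.2⟩
      zero_mem' := ⟨zero_mem _, zero_mem _⟩
      neg_mem' := fun hs => ⟨neg_mem hs.1, neg_mem hs.2⟩ }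
  mem hs y := ⟨F.mem hs.1 y, G.mem hs.2 y⟩
  res b _ hs := ⟨F.res b hs.1, G.res b hs.2⟩
  loc hs := ⟨F.loc fun y => by
      obtain ⟨W, _, b, z, h1, h2, h3⟩ := hs y
      exact ⟨W, _, b, z, h1, h2, h3.1⟩, G.loc fun y => by
      obtain ⟨W, _, b, z, h1, h2, h3⟩ := hs y
      exact ⟨W, _, b, z, h1, h2, h3.2⟩⟩
  stalk := prod_stalk F G
  sep hs y h := ((F.sep hs.1 y (congrArg Prod.fst h)).and
    (G.sep hs.2 y (congrArg Prod.snd h))).mono fun _ h => Prod.ext h.1 h.2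

end Prod

section Cst

variable {M N : Type} [AddCommGroup M] [AddCommGroup N]

theorem cst_loc {s : Pnt V → M} (h : ∀ y : Pnt V, ∃ (W : Type) (_ : CommRing W) (b : V →+* W)
    (z : Pnt W), b.Etale ∧ z.comp b = y ∧ ∀ z₀, Nr z₀ fun z' => rs b s z' = rs b s z₀) (y : Pnt V) :
    Nr y fun y' => s y' = s y := by
  obtain ⟨W, _, b, z, hb, rfl, h1⟩ := h y
  refine (Nr.push_et hb (h1 z)).mono ?_
  rintro _ ⟨z', rfl, h2⟩
  exact h2

/-- The constant system. -/
def cst (R : Type) [CommRing R] (M : Type) [AddCommGroup M] : Sys R where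
  A := M
  M _ := ⊤
  S _ :=
    { carrier := {s | ∀ y, Nr y fun y' => s y' = s y}
      add_mem' := fun hs ht y => ((hs y).and (ht y)).mono fun _ h => by
        rw [Pi.add_apply, Pi.add_apply, h.1, h.2]
      zero_mem' := fun _ => .of_forall fun _ => rfl
      neg_mem' := fun hs y => (hs y).mono fun _ h => by rw [Pi.neg_apply, Pi.neg_apply, h] }
  mem _ _ := trivial
  res b _ hs z := (hs (z.comp b)).pull
  loc hs := cst_loc hs
  stalk x m _ := ⟨R, _, RingHom.id R, x, fun _ => m, et_id, rfl,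
    fun _ => .of_forall fun _ => rfl, rfl⟩
  sep hs y h := (hs y).mono fun _ h' => h'.trans h

theorem cst_pb (g : R →+* R') : (cst R M).pb g = cst R' M := rfl

/-- The morphism of constant systems attached to a homomorphism. -/
def cstMap (g : R →+* R') (φ : M →+ N) : Mor g (cst R M) (cst R' N) where
  φ _ u := φ u
  add _ u _ v _ := map_add φ u v
  mem _ _ _ := trivial
  sec hs y := (hs y).mono fun _ h => congrArg φ h

end Cst

section Mu

variable (n : ℕ) [NeZero (n : OO)]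

/-- The value in the big field. -/
def uv (u : Additive OOˣ) : OO := (u.toMul : OOˣ)

/-- Sections of the roots of unity. -/
def MS (s : Pnt V → Additive OOˣ) : Prop :=
  ∀ y : Pnt V, ∃ (W : Type) (_ : CommRing W) (b : V →+* W) (z : Pnt W) (ζ : W),
    b.Etale ∧ z.comp b = y ∧ ζ ^ n = 1 ∧ ∀ z' : Pnt W, uv (s (z'.comp b)) = z' ζ

variable {n}

theorem ms_of {s : Pnt V → Additive OOˣ} {ζ : V} (h : ζ ^ n = 1) (hs : ∀ y, uv (s y) = y ζ) :
    MS n s := fun y => ⟨V, _, RingHom.id V, y, ζ, et_id, rfl, h, hs⟩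

theorem muB_add (u v : Additive OOˣ) : uv (u + v) = uv u * uv v := rfl

theorem muB_nsmul (k : ℕ) (u : Additive OOˣ) : uv (k • u) = uv u ^ k := by
  unfold uv
  rw [toMul_nsmul, Units.val_pow_eq_pow_val]

theorem muB_inj {u v : Additive OOˣ} (h : uv u = uv v) : u = v :=
  Additive.toMul.injective (Units.ext h)

theorem muB_ne : n ≠ 0 := by
  rintro rfl
  exact NeZero.ne ((0 : ℕ) : OO) Nat.cast_zero

theorem muB_mem {u : Additive OOˣ} : u ∈ (rootsOfUnity n OO).toAddSubgroup ↔ uv u ^ n = 1 := by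
  change u.toMul ∈ rootsOfUnity n OO ↔ _
  rw [mem_rootsOfUnity, Units.ext_iff, Units.val_pow_eq_pow_val]
  rfl

theorem MS.add {s t : Pnt V → Additive OOˣ} (h : MS n s) (h' : MS n t) : MS n (s + t) := by
  intro y
  obtain ⟨W, _, b, z, ζ, hb, hz, hζ, hs⟩ := h y
  obtain ⟨W₁, _, b₁, z₁, ζ₁, hb₁, hz₁, hζ₁, ht⟩ := h' y
  refine ⟨Ten b b₁, _, (Ten.inl b b₁).comp b, Ten.lift z z₁ (hz.trans hz₁.symm),
    Ten.inl b b₁ ζ * Ten.inr b b₁ ζ₁, et_comp hb (Ten.etale_inl b hb₁), ?_, ?_, fun z' => ?_⟩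
  · rw [← RingHom.comp_assoc, Ten.lift_inl, hz]
  · rw [mul_pow, ← map_pow, ← map_pow, hζ, hζ₁, map_one, map_one, one_mul]
  · have e1 := hs (z'.comp (Ten.inl b b₁))
    have e2 := ht (z'.comp (Ten.inr b b₁))
    rw [RingHom.comp_assoc, ← Ten.comm] at e2
    rw [RingHom.comp_assoc] at e1
    rw [Pi.add_apply, muB_add, e1, e2, map_mul]
    rfl

theorem MS.neg {s : Pnt V → Additive OOˣ} (h : MS n s) : MS n (-s) := by
  intro y
  obtain ⟨W, _, b, z, ζ, hb, hz, hζ, hs⟩ := h y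
  refine ⟨W, _, b, z, ζ ^ (n - 1), hb, hz, by rw [← pow_mul, mul_comm, pow_mul, hζ, one_pow],
    fun z' => ?_⟩
  have e1 : uv (-s (z'.comp b)) * uv (s (z'.comp b)) = 1 := by
    rw [← muB_add, neg_add_cancel]
    rfl
  have e2 : z' ζ * z' (ζ ^ (n - 1)) = 1 := by
    rw [← map_mul, mul_pow_sub_one (muB_ne (n := n)), hζ, map_one]
  rw [hs] at e1
  exact left_inv_eq_right_inv e1 e2

theorem MS.mem {s : Pnt V → Additive OOˣ} (h : MS n s) (y : Pnt V) :
    s y ∈ (rootsOfUnity n OO).toAddSubgroup := by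
  obtain ⟨W, _, b, z, ζ, hb, rfl, hζ, hs⟩ := h y
  rw [muB_mem, hs, ← map_pow, hζ, map_one]

theorem MS.res {s : Pnt V → Additive OOˣ} (b : V →+* W) (h : MS n s) : MS n (rs b s) := by
  intro z₀
  obtain ⟨W₁, _, b₁, z₁, ζ, hb₁, hz₁, hζ, hs⟩ := h (z₀.comp b)
  refine ⟨Ten b₁ b, _, Ten.inr b₁ b, Ten.lift z₁ z₀ hz₁, Ten.inl b₁ b ζ, Ten.etale_inr b hb₁,
    Ten.lift_inr .., by rw [← map_pow, hζ, map_one], fun z' => ?_⟩
  have e := hs (z'.comp (Ten.inl b₁ b))
  rw [RingHom.comp_assoc, Ten.comm] at e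
  exact e

theorem ms_loc {s : Pnt V → Additive OOˣ} (h : ∀ y : Pnt V, ∃ (W : Type) (_ : CommRing W)
    (b : V →+* W) (z : Pnt W), b.Etale ∧ z.comp b = y ∧ MS n (rs b s)) : MS n s := by
  intro y
  obtain ⟨W, _, b, z, hb, rfl, hs⟩ := h y
  obtain ⟨W₁, _, b₁, z₁, ζ, hb₁, rfl, hζ, hs₁⟩ := hs z
  exact ⟨W₁, _, b₁.comp b, z₁, ζ, et_comp hb hb₁, rfl, hζ, hs₁⟩

theorem muB_ex {ζ : V} (h : ζ ^ n = 1) :
    ∃ t : Pnt V → Additive OOˣ, ∀ y, uv (t y) = y ζ := by
  have hu : ∀ y : Pnt V, y ζ ≠ 0 := fun y h0 => by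
    have e : y ζ ^ n = 1 := by rw [← map_pow, h, map_one]
    rw [h0, zero_pow muB_ne] at e
    exact zero_ne_one e
  exact ⟨fun y => Additive.ofMul (Units.mk0 (y ζ) (hu y)), fun _ => rfl⟩

open Polynomial in
theorem muB_pair (R : Type) [CommRing R] : ∃ P : StandardEtalePair R,
    P.f = X ^ n - C 1 ∧ P.g = (n : R[X]) := by
  refine ⟨⟨X ^ n - C 1, monic_X_pow_sub_C 1 muB_ne, (n : R[X]), X, -(n : R[X]), 1, ?_⟩, rfl, rfl⟩
  rw [derivative_sub, derivative_C, sub_zero, derivative_X_pow, map_natCast, mul_assoc,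
    pow_sub_one_mul (muB_ne (n := n)), map_one]
  ring

theorem ms_stalk (x : Pnt R) (m : Additive OOˣ) (hm : m ∈ (rootsOfUnity n OO).toAddSubgroup) :
    ∃ (W : Type) (_ : CommRing W) (c : R →+* W) (y : Pnt W) (t : Pnt W → Additive OOˣ),
      c.Etale ∧ y.comp c = x ∧ MS n t ∧ t y = m := by
  obtain ⟨P, hf, hg⟩ := muB_pair (n := n) R
  letI := x.toAlgebra
  have hP : P.HasMap (uv m) := by
    refine ⟨?_, ?_⟩
    · rw [hf, map_sub, map_pow, Polynomial.aeval_X, Polynomial.aeval_C, map_one, muB_mem.1 hm,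
        sub_self]
    · rw [hg, map_natCast]
      exact (NeZero.ne (n : OO)).isUnit
  have hX : P.X ^ n = 1 := by
    have e := (StandardEtalePair.hasMap_X (P := P)).1
    rw [hf, map_sub, map_pow, Polynomial.aeval_X, Polynomial.aeval_C, map_one] at e
    exact sub_eq_zero.1 e
  obtain ⟨t, ht⟩ := muB_ex hX
  refine ⟨P.Ring, _, algebraMap R P.Ring, (P.lift (uv m) hP).toRingHom, t,
    RingHom.etale_algebraMap.2 inferInstance, (P.lift (uv m) hP).comp_algebraMap, ms_of hX ht,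
    muB_inj ?_⟩
  rw [ht]
  exact P.lift_X _ hP

theorem MS.sep {s : Pnt V → Additive OOˣ} (h : MS n s) (y : Pnt V) (h0 : s y = 0) :
    Nr y fun y' => s y' = 0 := by
  obtain ⟨W, _, b, z, ζ, hb, rfl, hζ, hs⟩ := h y
  have h1 : z ζ = 1 := by
    rw [← hs, h0]
    rfl
  have hN : Nr z fun z' => z' ζ = 1 := by
    refine ⟨∑ i ∈ Finset.range n, ζ ^ i, ?_, fun z' hz' => ?_⟩
    · simpa [h1] using NeZero.ne (n : OO)
    · have e := congrArg z' (geom_sum_mul ζ n)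
      rw [hζ, sub_self, map_zero, map_mul, map_sub, map_one] at e
      exact sub_eq_zero.1 ((mul_eq_zero.1 e).resolve_left hz')
  refine (Nr.push_et hb hN).mono ?_
  rintro _ ⟨z', rfl, hz'⟩
  exact muB_inj ((hs z').trans hz')

/-- Roots of unity that agree at all points are equal. -/
theorem root_ext (hV : Good V) {ζ ξ : V} (h1 : ζ ^ n = 1) (h2 : ξ ^ n = 1)
    (h : ∀ y : Pnt V, y ζ = y ξ) : ζ = ξ := by
  have hu : IsUnit (∑ i ∈ Finset.range n, ζ ^ i * ξ ^ (n - 1 - i)) := by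
    refine hV.unit fun y => ?_
    rw [RingHom.map_geom_sum₂, h y, geom_sum₂_self]
    refine mul_ne_zero (NeZero.ne (n : OO)) (pow_ne_zero _ fun h0 => ?_)
    have e : y ξ ^ n = 1 := by rw [← map_pow, h2, map_one]
    rw [h0, zero_pow muB_ne] at e
    exact zero_ne_one e
  have e := geom_sum₂_mul ζ ξ n
  rw [h1, h2, sub_self] at e
  exact sub_eq_zero.1 (hu.mul_right_eq_zero.1 e)

/-- Over a good ring a section is a root of unity. -/
theorem MS.root (hV : Good V) {s : Pnt V → Additive OOˣ} (h : MS n s) :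
    ∃ ζ : V, ζ ^ n = 1 ∧ ∀ y, uv (s y) = y ζ := by
  choose U inst b z ζ hb hz hζ hs using h
  obtain ⟨S, hB⟩ := hV.fin_cover U b hb fun y => ⟨z y, hz y⟩
  have hv : (fun y : S => ζ y) ^ n = 1 := funext fun y => hζ y
  have key : ∀ w : Pnt (∀ y : S, U y),
      uv (s (w.comp (RingHom.pi fun y : S => b y))) = w fun y : S => ζ y := fun w => by
    obtain ⟨i, w', rfl⟩ := pnt_pi w
    exact hs i w'
  obtain ⟨r, hr⟩ := hB.descend hV (fun y : S => ζ y) (root_ext (n := n)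
    (hV.et (et_comp hB.et (Ten.etale_inl _ hB.et))) (by rw [← map_pow, hv, map_one])
    (by rw [← map_pow, hv, map_one]) fun w => by
      have e1 := key (w.comp (Ten.inl _ _))
      have e2 := key (w.comp (Ten.inr _ _))
      rw [RingHom.comp_assoc, Ten.comm] at e1
      exact e1.symm.trans e2)
  refine ⟨r, (hB.ff hV).injective (by rw [map_pow, hr, hv, map_one]), fun y => ?_⟩
  obtain ⟨w, rfl⟩ := hB.sur y
  rw [key, ← hr]
  rfl

variable (n)

/-- The system of roots of unity. -/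
def mu (R : Type) [CommRing R] : Sys R where
  A := Additive OOˣ
  M _ := (rootsOfUnity n OO).toAddSubgroup
  S _ :=
    { carrier := {s | MS n s}
      add_mem' := MS.add
      zero_mem' := ms_of (one_pow n) fun y => (map_one y).symm
      neg_mem' := MS.neg }
  mem h := MS.mem h
  res b _ h := MS.res b h
  loc h := ms_loc h
  stalk := ms_stalk
  sep h := MS.sep h

theorem mu_pb (g : R →+* R') : (mu n R).pb g = mu n R' := rfl

/-- The tautological morphism. -/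
def muMap (g : R →+* R') : Mor g (mu n R) (mu n R') := (mu n R).can g

theorem mu_tor : (mu n R).Tor n := by
  intro x m hm
  exact muB_inj ((muB_nsmul n m).trans (muB_mem.1 hm))

theorem muB_exp [NeZero n] (ζ : R) (h1 : ζ ^ n = 1) :
    ∃ m' : Hom (cst R (ZMod n)) (mu n R), ∀ x (k : ZMod n), uv (m'.φ x k) = x ζ ^ k.val := by
  obtain ⟨t, ht⟩ := muB_ex h1
  have hS : MS n t := ms_of h1 ht
  have hx : ∀ x : Pnt R, x ζ ^ n = 1 := fun x => by rw [← map_pow, h1, map_one]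
  refine ⟨⟨fun x (k : ZMod n) => (k.val • t x : Additive OOˣ),
    fun x (u : ZMod n) _ (v : ZMod n) _ => muB_inj ?_,
    fun x (u : ZMod n) _ => nsmul_mem (hS.mem x) _, fun {V} _ {a} {s} hs => ?_⟩, fun x k => ?_⟩
  · change uv ((u + v).val • t x) = uv (u.val • t x + v.val • t x)
    rw [muB_add, muB_nsmul, muB_nsmul, muB_nsmul, ht, ← pow_add, ZMod.val_add,
      ← pow_eq_pow_mod _ (hx x)]
  · refine (mu n R).loc_nr fun y => ⟨ZMod.val (s y) • rs a t,
      nsmul_mem (show rs a t ∈ (mu n R).S a from hS.res a) _, (hs y).mono fun y' e => ?_⟩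
    exact congrArg (fun k : ZMod n => (k.val • t (y'.comp a) : Additive OOˣ)) e
  · exact (muB_nsmul _ _).trans (by rw [ht])

/-- The discrete logarithm with respect to a root of unity that is primitive at every point. -/
theorem exists_lg [NeZero n] (ζ : R) (h : ∀ x : Pnt R, IsPrimitiveRoot (x ζ) n) (h1 : ζ ^ n = 1) :
    ∃ (m : Hom (mu n R) (cst R (ZMod n))) (m' : Hom (cst R (ZMod n)) (mu n R)),
      (∀ x (k : ZMod n), uv (m'.φ x k) = x ζ ^ k.val) ∧ (∀ x k, m.φ x (m'.φ x k) = k) ∧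
      ∀ x, ∀ u ∈ (mu n R).M x, m'.φ x (m.φ x u) = u := by
  obtain ⟨m', hm'⟩ := muB_exp n ζ h1
  have hi : m'.Inj := fun x (k : ZMod n) _ hk => by
    have e : x ζ ^ k.val = 1 := (hm' x k).symm.trans (congrArg uv hk)
    exact (ZMod.val_eq_zero k).1
      (Nat.eq_zero_of_dvd_of_lt (((h x).pow_eq_one_iff_dvd _).1 e) (ZMod.val_lt k))
  have hs : m'.Surj := fun x v hv => by
    obtain ⟨i, hi, e⟩ := (h x).eq_pow_of_pow_eq_one (muB_mem.1 hv)
    refine ⟨(i : ZMod n), trivial, muB_inj ?_⟩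
    rw [hm', ZMod.val_cast_of_lt hi, e]
  obtain ⟨m, h2, h3⟩ := m'.exists_inv hi hs
  exact ⟨m, m', hm', fun x k => h2 x k trivial, h3⟩

end Mu

end

end Pool.Agent.Lib.MP_16ef92_ag.RS
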