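import Mathlib
import Pool.Agent.Lib.MP_16ef92_ag.RS.Cns

set_option autoImplicit false
set_option linter.unusedSectionVars false
set_option linter.unusedVariables false
set_option linter.style.haveILetI false

namespace Pool.Agent.Lib.MP_16ef92_ag.RS

noncomputable section

variable [Bg]

/-- A presheaf whose sections are functions on points. -/
structure Pre (R : Type) [CommRing R] where
  B : Type
  [grp : AddCommGroup B]
  M : Pnt R → AddSubgroup B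
  S : ∀ {V : Type} [CommRing V], (R →+* V) → AddSubgroup (Pnt V → B)
  mem : ∀ {V : Type} [CommRing V] {a : R →+* V} {s : Pnt V → B}, s ∈ S a →
    ∀ y, s y ∈ M (y.comp a)
  res : ∀ {V W : Type} [CommRing V] [CommRing W] {a : R →+* V} (b : V →+* W) {s : Pnt V → B},
    s ∈ S a → rs b s ∈ S (b.comp a)

attribute [instance] Pre.grp

variable {R R' V W W' : Type} [CommRing R] [CommRing R'] [CommRing V] [CommRing W] [CommRing W']

/-- The underlying presheaf. -/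
def Sys.pre (F : Sys R) : Pre R where
  B := F.A
  M := F.M
  S a := F.S a
  mem h := F.mem h
  res b _ h := F.res b h

/-- The groups of germs. -/
structure GermData (P : Pre R) where
  G : Type
  [grp : AddCommGroup G]
  M : Pnt R → AddSubgroup G
  germ : ∀ {W : Type} [CommRing W], (R →+* W) → Pnt W → (Pnt W → P.B) → G
  germ_add : ∀ {W : Type} [CommRing W] {c : R →+* W} (y : Pnt W) {s t : Pnt W → P.B}, c.Etale →
    s ∈ P.S c → t ∈ P.S c → germ c y (s + t) = germ c y s + germ c y t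
  germ_mem : ∀ {W : Type} [CommRing W] {c : R →+* W} (y : Pnt W) {s : Pnt W → P.B}, c.Etale →
    s ∈ P.S c → germ c y s ∈ M (y.comp c)
  germ_res : ∀ {W W' : Type} [CommRing W] [CommRing W'] {c : R →+* W} (d : W →+* W') (z : Pnt W')
    {s : Pnt W → P.B}, c.Etale → (d.comp c).Etale → s ∈ P.S c →
    germ (d.comp c) z (rs d s) = germ c (z.comp d) s
  germ_zero : ∀ {W : Type} [CommRing W] {c : R →+* W} (y : Pnt W) {s : Pnt W → P.B}, c.Etale →
    s ∈ P.S c → (germ c y s = 0 ↔ Nr y fun y' => s y' = 0)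
  surj : ∀ x, ∀ m ∈ M x, ∃ (W : Type) (_ : CommRing W) (c : R →+* W) (y : Pnt W)
    (s : Pnt W → P.B), c.Etale ∧ y.comp c = x ∧ s ∈ P.S c ∧ germ c y s = m

attribute [instance] GermData.grp

/-- A set of pointed etale algebras that contains a copy of each. -/
structure GaI (R : Type) [CommRing R] where
  n : ℕ
  J : Ideal (MvPolynomial (Fin n) R)
  et : ((Ideal.Quotient.mk J).comp (MvPolynomial.C : R →+* MvPolynomial (Fin n) R)).Etale
  y : Pnt (MvPolynomial (Fin n) R ⧸ J)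

/-- The ring of an index. -/
abbrev GaI.U (i : GaI R) : Type := MvPolynomial (Fin i.n) R ⧸ i.J

/-- The structure map of an index. -/
abbrev GaI.c (i : GaI R) : R →+* i.U := (Ideal.Quotient.mk i.J).comp MvPolynomial.C

/-- The index `i` refines the pointed algebra `(c, y)`. -/
def GaRef (c : R →+* W) (y : Pnt W) (i : GaI R) : Prop :=
  ∃ d : W →+* i.U, d.comp c = i.c ∧ i.y.comp d = y

theorem ga_small {c : R →+* W} (hc : c.Etale) (y : Pnt W) : ∃ i, GaRef c y i := by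
  letI := c.toAlgebra
  haveI : Algebra.Etale R W := hc
  obtain ⟨n, f, hf⟩ := Algebra.FiniteType.iff_quotient_mvPolynomial''.1
    (inferInstance : Algebra.FiniteType R W)
  obtain ⟨e, he⟩ : ∃ e : (MvPolynomial (Fin n) R ⧸ RingHom.ker f.toRingHom) ≃+* W,
      ∀ p, e (Ideal.Quotient.mk _ p) = f p :=
    ⟨RingHom.quotientKerEquivOfSurjective (f := f.toRingHom) hf, fun _ => rfl⟩
  have h1 : e.symm.toRingHom.comp c = (Ideal.Quotient.mk _).comp MvPolynomial.C :=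
    RingHom.ext fun r => e.symm_apply_eq.2 ((he _).trans (f.commutes r)).symm
  exact ⟨⟨n, RingHom.ker f.toRingHom, h1 ▸ et_comp hc (RingHom.Etale.of_bijective e.symm.bijective),
    y.comp e.toRingHom⟩, e.symm.toRingHom, h1,
    RingHom.ext fun w => congrArg y (e.apply_symm_apply w)⟩

theorem GaRef.comp {c : R →+* W} {c' : R →+* W'} {d : W →+* W'} (hd : d.comp c = c') {z : Pnt W'}
    {y : Pnt W} (hy : z.comp d = y) {i : GaI R} (h : GaRef c' z i) : GaRef c y i := by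
  obtain ⟨e, h1, h2⟩ := h
  exact ⟨e.comp d, by rw [RingHom.comp_assoc, hd, h1], by rw [← RingHom.comp_assoc, h2, hy]⟩

theorem GaRef.pnt {c : R →+* W} {y : Pnt W} {i : GaI R} (h : GaRef c y i) :
    i.y.comp i.c = y.comp c := by
  obtain ⟨e, h1, h2⟩ := h
  rw [← h1, ← RingHom.comp_assoc, h2]

/-- The families that vanish near the centre for all small enough indices. -/
def gaN (R : Type) [CommRing R] (B : Type) [AddCommGroup B] :
    AddSubgroup (∀ i : GaI R, Pnt i.U → B) where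
  carrier := {f | ∀ x : Pnt R, ∃ (W : Type) (_ : CommRing W) (c : R →+* W) (y : Pnt W),
    c.Etale ∧ y.comp c = x ∧ ∀ i, GaRef c y i → Nr i.y fun z => f i z = 0}
  zero_mem' x := ⟨R, _, RingHom.id R, x, et_id, rfl, fun _ _ => Nr.of_forall fun _ => rfl⟩
  neg_mem' h x := by
    obtain ⟨W, _, c, y, hc, hy, h⟩ := h x
    exact ⟨W, _, c, y, hc, hy, fun i hi => (h i hi).mono fun z hz => neg_eq_zero.2 hz⟩
  add_mem' h h' x := by
    obtain ⟨W, _, c, y, hc, hy, h⟩ := h x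
    obtain ⟨W', _, c', y', hc', hy', h'⟩ := h' x
    refine ⟨Ten c c', _, (Ten.inl c c').comp c, Ten.lift y y' (hy.trans hy'.symm),
      et_comp hc (Ten.etale_inl c hc'), by rw [← RingHom.comp_assoc, Ten.lift_inl, hy],
      fun i hi => ((h i (hi.comp rfl (Ten.lift_inl ..))).and
        (h' i (hi.comp (Ten.comm c c').symm (Ten.lift_inr ..)))).mono fun z hz => ?_⟩
    rw [Pi.add_apply, Pi.add_apply, hz.1, hz.2, add_zero]

open Classical in
/-- The family of the restrictions of a function. -/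
def gaF {B : Type} [AddCommGroup B] (c : R →+* W) (y : Pnt W) :
    (Pnt W → B) →+ ∀ i : GaI R, Pnt i.U → B :=
  AddMonoidHom.mk' (fun s i => if h : GaRef c y i then rs h.choose s else 0) fun s t => by
    funext i
    by_cases h : GaRef c y i
    · simp only [Pi.add_apply, dif_pos h]
      rfl
    · simp only [Pi.add_apply, dif_neg h, add_zero]

theorem gaF_pos {B : Type} [AddCommGroup B] {c : R →+* W} {y : Pnt W} (s : Pnt W → B) {i : GaI R}
    (h : GaRef c y i) : ∃ d : W →+* i.U, d.comp c = i.c ∧ i.y.comp d = y ∧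
      gaF c y s i = rs d s :=
  ⟨h.choose, h.choose_spec.1, h.choose_spec.2, dif_pos h⟩

theorem gaF_neg {B : Type} [AddCommGroup B] {c : R →+* W} {y : Pnt W} (s : Pnt W → B) {i : GaI R}
    (h : ¬ GaRef c y i) : gaF c y s i = 0 := dif_neg h

theorem ga_res {B : Type} [AddCommGroup B] {c : R →+* W} {c' : R →+* W'} {d : W →+* W'}
    (hd : d.comp c = c') {z : Pnt W'} {y : Pnt W} (hy : z.comp d = y) (s : Pnt W → B)
    (hc : c.Etale) (hc' : c'.Etale) :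
    QuotientAddGroup.mk' (gaN R B) (gaF c' z (rs d s)) = QuotientAddGroup.mk' _ (gaF c y s) := by
  rw [← sub_eq_zero, ← map_sub, QuotientAddGroup.mk'_apply, QuotientAddGroup.eq_zero_iff]
  intro x
  by_cases hx : z.comp c' = x
  · refine ⟨W', _, c', z, hc', hx, fun i hi => ?_⟩
    obtain ⟨e, e1, e2, e3⟩ := gaF_pos (rs d s) hi
    obtain ⟨e', f1, f2, f3⟩ := gaF_pos s (hi.comp hd hy)
    obtain ⟨f, hf, h⟩ := et_agree hc (d := e.comp d) (e := e')
      (by rw [RingHom.comp_assoc, hd, e1, f1]) i.y (by rw [← RingHom.comp_assoc, e2, hy, f2])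
    refine ⟨f, hf, fun w hw => ?_⟩
    have : w.comp (e.comp d) = w.comp e' := RingHom.ext fun v => by
      have := congrArg w (h v)
      rw [map_mul, map_mul] at this
      exact mul_left_cancel₀ hw this
    change gaF c' z (rs d s) i w - gaF c y s i w = 0
    rw [e3, f3, sub_eq_zero]
    exact congrArg s this
  · refine ⟨R, _, RingHom.id R, x, et_id, rfl, fun i hi => Nr.of_forall fun w => ?_⟩
    have h1 : ¬ GaRef c' z i := fun h => hx (h.pnt.symm.trans hi.pnt)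
    have h2 : ¬ GaRef c y i := fun h => hx (by
      rw [← hd, ← RingHom.comp_assoc, hy]
      exact h.pnt.symm.trans hi.pnt)
    rw [Pi.sub_apply, gaF_neg _ h1, gaF_neg _ h2, sub_self, Pi.zero_apply]

theorem ga_zero {B : Type} [AddCommGroup B] {c : R →+* W} (hc : c.Etale) (y : Pnt W)
    (s : Pnt W → B) :
    QuotientAddGroup.mk' (gaN R B) (gaF c y s) = 0 ↔ Nr y fun y' => s y' = 0 := by
  rw [QuotientAddGroup.mk'_apply, QuotientAddGroup.eq_zero_iff]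
  refine ⟨fun h => ?_, fun h x => ⟨R, _, RingHom.id R, x, et_id, rfl, fun i _ => ?_⟩⟩
  · obtain ⟨W', _, c', y', hc', hy', h⟩ := h (y.comp c)
    obtain ⟨i, hi⟩ := ga_small (et_comp hc (Ten.etale_inl c hc')) (Ten.lift y y' hy'.symm)
    have h1 := h i (hi.comp (Ten.comm c c').symm (Ten.lift_inr ..))
    obtain ⟨d, e1, e2, e3⟩ := gaF_pos s (hi.comp rfl (Ten.lift_inl y y' hy'.symm))
    rw [e3] at h1
    have h2 := h1.push_et (et_cancel hc (e1 ▸ i.et) : d.Etale)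
    rw [e2] at h2
    exact h2.mono fun w ⟨z, hz, h0⟩ => hz ▸ h0
  · by_cases hi : GaRef c y i
    · obtain ⟨d, -, e2, e3⟩ := gaF_pos s hi
      rw [e3]
      rw [← e2] at h
      exact h.pull
    · rw [gaF_neg _ hi]
      exact Nr.of_forall fun _ => rfl

/-- The germs at a point. -/
def gaM (P : Pre R) (x : Pnt R) : AddSubgroup ((∀ i : GaI R, Pnt i.U → P.B) ⧸ gaN R P.B) where
  carrier := {m | ∃ (W : Type) (_ : CommRing W) (c : R →+* W) (y : Pnt W) (s : Pnt W → P.B),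
    c.Etale ∧ y.comp c = x ∧ s ∈ P.S c ∧ QuotientAddGroup.mk' (gaN R P.B) (gaF c y s) = m}
  zero_mem' := ⟨R, _, RingHom.id R, x, 0, et_id, rfl, zero_mem _, by rw [map_zero, map_zero]⟩
  neg_mem' := by
    rintro _ ⟨W, _, c, y, s, hc, hy, hs, rfl⟩
    exact ⟨W, _, c, y, -s, hc, hy, neg_mem hs, by rw [map_neg, map_neg]⟩
  add_mem' := by
    rintro _ _ ⟨W, _, c, y, s, hc, hy, hs, rfl⟩ ⟨W', _, c', y', s', hc', hy', hs', rfl⟩
    have he := et_comp hc (Ten.etale_inl c hc')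
    refine ⟨Ten c c', _, (Ten.inl c c').comp c, Ten.lift y y' (hy.trans hy'.symm),
      rs (Ten.inl c c') s + rs (Ten.inr c c') s', he,
      by rw [← RingHom.comp_assoc, Ten.lift_inl, hy],
      add_mem (P.res _ hs) (Ten.comm c c' ▸ P.res _ hs'), ?_⟩
    rw [map_add, map_add, ga_res rfl (Ten.lift_inl ..) s hc he,
      ga_res (Ten.comm c c').symm (Ten.lift_inr ..) s' hc' he]

theorem exists_germData (P : Pre R) : Nonempty (GermData P) :=
  ⟨{ G := (∀ i : GaI R, Pnt i.U → P.B) ⧸ gaN R P.B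
     M := gaM P
     germ := fun c y s => QuotientAddGroup.mk' (gaN R P.B) (gaF c y s)
     germ_add := fun _ _ _ _ _ _ => by rw [map_add, map_add]
     germ_mem := fun y s hc hs => ⟨_, _, _, y, s, hc, rfl, hs, rfl⟩
     germ_res := fun _ _ s hc hc' _ => ga_res rfl rfl s hc hc'
     germ_zero := fun y s hc _ => ga_zero hc y s
     surj := fun _ _ h => h }⟩

/-- The chosen groups of germs. -/
def Pre.gd (P : Pre R) : GermData P := (exists_germData P).some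

/-- The germ of a section. -/
def Pre.germ (P : Pre R) (c : R →+* W) (y : Pnt W) (s : Pnt W → P.B) : P.gd.G := P.gd.germ c y s

/-- Sections of the associated system. -/
def Pre.GS (P : Pre R) (a : R →+* V) (σ : Pnt V → P.gd.G) : Prop :=
  ∀ y : Pnt V, ∃ (W : Type) (_ : CommRing W) (c : R →+* W) (V' : Type) (_ : CommRing V')
    (b : V →+* V') (d : W →+* V') (z : Pnt V') (t : Pnt W → P.B), c.Etale ∧ b.Etale ∧
    d.comp c = b.comp a ∧ z.comp b = y ∧ t ∈ P.S c ∧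
    ∀ z' : Pnt V', σ (z'.comp b) = P.germ c (z'.comp d) t

variable {P : Pre R} {P' : Pre R'} {g : R →+* R'}

theorem gb_pres {c : R →+* W} {c' : R →+* W'} (d : W →+* W') (h : d.comp c = c')
    {s : Pnt W → P.B} (hs : s ∈ P.S c) : rs d s ∈ P.S c' := h ▸ P.res d hs

theorem gb_res {c : R →+* W} {c' : R →+* W'} (d : W →+* W') (h : d.comp c = c') (z : Pnt W')
    {s : Pnt W → P.B} (hc : c.Etale) (hc' : c'.Etale) (hs : s ∈ P.S c) :
    P.germ c' z (rs d s) = P.germ c (z.comp d) s := by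
  subst h
  exact P.gd.germ_res d z hc hc' hs

theorem gb_add {c : R →+* W} (hc : c.Etale) (y : Pnt W) {s t : Pnt W → P.B} (hs : s ∈ P.S c)
    (ht : t ∈ P.S c) : P.germ c y (s + t) = P.germ c y s + P.germ c y t :=
  P.gd.germ_add y hc hs ht

theorem gb_zero {c : R →+* W} (hc : c.Etale) (y : Pnt W) : P.germ c y 0 = 0 :=
  (P.gd.germ_zero y hc (zero_mem _)).2 (Nr.of_forall fun _ => rfl)

theorem gb_neg {c : R →+* W} (hc : c.Etale) (y : Pnt W) {s : Pnt W → P.B} (hs : s ∈ P.S c) :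
    P.germ c y (-s) = -P.germ c y s := by
  rw [eq_neg_iff_add_eq_zero, ← gb_add hc y (neg_mem hs) hs, neg_add_cancel, gb_zero hc]

theorem gb_eq {c : R →+* W} (hc : c.Etale) (y : Pnt W) {s t : Pnt W → P.B} (hs : s ∈ P.S c)
    (ht : t ∈ P.S c) : P.germ c y s = P.germ c y t ↔ Nr y fun y' => s y' = t y' := by
  rw [← sub_eq_zero, sub_eq_add_neg, ← gb_neg hc y ht, ← gb_add hc y hs (neg_mem ht)]
  refine (P.gd.germ_zero y hc (add_mem hs (neg_mem ht))).trans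
    ⟨fun h => h.mono fun _ e => ?_, fun h => h.mono fun _ e => ?_⟩
  · exact add_neg_eq_zero.1 e
  · exact add_neg_eq_zero.2 e

theorem Pre.gs_zero (P : Pre R) (a : R →+* V) : P.GS a 0 := fun y =>
  ⟨R, _, RingHom.id R, V, _, RingHom.id V, a, y, 0, et_id, et_id, rfl, rfl, zero_mem _,
    fun _ => (gb_zero et_id _).symm⟩

theorem Pre.GS.add {a : R →+* V} {σ τ : Pnt V → P.gd.G} (h : P.GS a σ) (h' : P.GS a τ) :
    P.GS a (σ + τ) := by
  intro y
  obtain ⟨W₁, _, c₁, V₁, _, b₁, d₁, z₁, t₁, hc₁, hb₁, e₁, y₁, ht₁, s₁⟩ := h y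
  obtain ⟨W₂, _, c₂, V₂, _, b₂, d₂, z₂, t₂, hc₂, hb₂, e₂, y₂, ht₂, s₂⟩ := h' y
  have e : ((Ten.inl b₁ b₂).comp d₁).comp c₁ = ((Ten.inr b₁ b₂).comp d₂).comp c₂ := by
    rw [RingHom.comp_assoc, RingHom.comp_assoc, e₁, e₂, ← RingHom.comp_assoc,
      ← RingHom.comp_assoc, Ten.comm]
  have hc := et_comp hc₁ (Ten.etale_inl c₁ hc₂)
  have k₁ := gb_pres (Ten.inl c₁ c₂) rfl ht₁
  have k₂ := gb_pres (Ten.inr c₁ c₂) (Ten.comm c₁ c₂).symm ht₂
  refine ⟨Ten c₁ c₂, _, (Ten.inl c₁ c₂).comp c₁, Ten b₁ b₂, _, (Ten.inl b₁ b₂).comp b₁,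
    Ten.lift _ _ e, Ten.lift z₁ z₂ (y₁.trans y₂.symm), _, hc, et_comp hb₁ (Ten.etale_inl b₁ hb₂),
    ?_, ?_, add_mem k₁ k₂, fun z' => ?_⟩
  · rw [← RingHom.comp_assoc, Ten.lift_inl, RingHom.comp_assoc, e₁, RingHom.comp_assoc]
  · rw [← RingHom.comp_assoc, Ten.lift_inl, y₁]
  · rw [gb_add hc _ k₁ k₂, gb_res _ rfl _ hc₁ hc ht₁, gb_res _ (Ten.comm c₁ c₂).symm _ hc₂ hc ht₂,
      RingHom.comp_assoc, RingHom.comp_assoc, Ten.lift_inl, Ten.lift_inr, ← RingHom.comp_assoc d₁,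
      ← RingHom.comp_assoc d₂, ← s₁, ← s₂, RingHom.comp_assoc b₂, ← Ten.comm]
    rfl

theorem Pre.GS.neg {a : R →+* V} {σ : Pnt V → P.gd.G} (h : P.GS a σ) : P.GS a (-σ) := by
  intro y
  obtain ⟨W₁, _, c, V₁, _, b, d, z, t, hc, hb, e, hy, ht, s⟩ := h y
  exact ⟨W₁, _, c, V₁, _, b, d, z, -t, hc, hb, e, hy, neg_mem ht, fun z' => by
    rw [gb_neg hc _ ht, ← s]
    rfl⟩

theorem Pre.GS.mem {a : R →+* V} {σ : Pnt V → P.gd.G} (h : P.GS a σ) (y : Pnt V) :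
    σ y ∈ P.gd.M (y.comp a) := by
  obtain ⟨W₁, _, c, V₁, _, b, d, z, t, hc, hb, e, rfl, ht, s⟩ := h y
  rw [s, RingHom.comp_assoc, ← e]
  exact P.gd.germ_mem (z.comp d) hc ht

theorem Pre.GS.res {a : R →+* V} (b : V →+* W) {σ : Pnt V → P.gd.G} (h : P.GS a σ) :
    P.GS (b.comp a) (rs b σ) := by
  intro y
  obtain ⟨W₁, _, c, V₁, _, b', d, z, t, hc, hb, e, hy, ht, s⟩ := h (y.comp b)
  refine ⟨W₁, _, c, Ten b' b, _, Ten.inr b' b, (Ten.inl b' b).comp d, Ten.lift z y hy, t, hc,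
    Ten.etale_inr b hb, ?_, Ten.lift_inr .., ht, fun z' => ?_⟩
  · rw [RingHom.comp_assoc, e, ← RingHom.comp_assoc, Ten.comm, RingHom.comp_assoc]
  · rw [rs_apply, RingHom.comp_assoc, ← Ten.comm]
    exact s (z'.comp (Ten.inl b' b))

theorem Pre.gs_loc {a : R →+* V} {σ : Pnt V → P.gd.G}
    (h : ∀ y : Pnt V, ∃ (W : Type) (_ : CommRing W) (b : V →+* W) (z : Pnt W),
      b.Etale ∧ z.comp b = y ∧ P.GS (b.comp a) (rs b σ)) : P.GS a σ := by
  intro y
  obtain ⟨U, _, b, z, hb, rfl, h1⟩ := h y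
  obtain ⟨W₁, _, c, V₁, _, b', d, z', t, hc, hb', e, rfl, ht, s⟩ := h1 z
  exact ⟨W₁, _, c, V₁, _, b'.comp b, d, z', t, hc, et_comp hb hb', e, rfl, ht, s⟩

theorem Pre.gs_germ {c : R →+* W} (hc : c.Etale) {t : Pnt W → P.B} (ht : t ∈ P.S c) :
    P.GS c fun y => P.germ c y t := fun y =>
  ⟨W, _, c, W, _, RingHom.id W, RingHom.id W, y, t, hc, et_id, rfl, rfl, ht, fun _ => rfl⟩

theorem Pre.GS.sep {a : R →+* V} {σ : Pnt V → P.gd.G} (h : P.GS a σ) (y : Pnt V) (h0 : σ y = 0) :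
    Nr y fun y' => σ y' = 0 := by
  obtain ⟨W₁, _, c, V₁, _, b, d, z, t, hc, hb, e, rfl, ht, s⟩ := h y
  have h1 := (P.gd.germ_zero (z.comp d) hc ht).1 ((s z).symm.trans h0)
  refine (h1.nr.pull.push_et hb).mono ?_
  rintro _ ⟨z', rfl, h2⟩
  exact (s z').trans ((P.gd.germ_zero (z'.comp d) hc ht).2 h2)

/-- The associated system. -/
def Pre.sys (P : Pre R) : Sys R where
  A := P.gd.G
  M := P.gd.M
  S a :=
    { carrier := {σ | P.GS a σ}
      add_mem' := Pre.GS.add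
      zero_mem' := P.gs_zero a
      neg_mem' := Pre.GS.neg }
  mem h := Pre.GS.mem h
  res b _ h := Pre.GS.res b h
  loc h := Pre.gs_loc h
  stalk x m hm := by
    obtain ⟨W, _, c, y, t, hc, hy, ht, rfl⟩ := P.gd.surj x m hm
    exact ⟨W, _, c, y, fun y => P.germ c y t, hc, hy, Pre.gs_germ hc ht, rfl⟩
  sep h := Pre.GS.sep h

/-- Two sections with the same germ agree on a common neighbourhood. -/
theorem Pre.germ_eq {c : R →+* W} {c' : R →+* W'} (hc : c.Etale) (hc' : c'.Etale) {y : Pnt W}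
    {y' : Pnt W'} (hy : y.comp c = y'.comp c') {s : Pnt W → P.B} {s' : Pnt W' → P.B}
    (hs : s ∈ P.S c) (hs' : s' ∈ P.S c') : P.germ c y s = P.germ c' y' s' ↔
      Nr (Ten.lift y y' hy) fun z => s (z.comp (Ten.inl c c')) = s' (z.comp (Ten.inr c c')) := by
  have h := et_comp hc (Ten.etale_inl c hc')
  have h1 := gb_res (Ten.inl c c') rfl (Ten.lift y y' hy) hc h hs
  have h2 := gb_res (Ten.inr c c') (Ten.comm c c').symm (Ten.lift y y' hy) hc' h hs'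
  rw [Ten.lift_inl] at h1
  rw [Ten.lift_inr] at h2
  rw [← h1, ← h2]
  exact gb_eq h _ (gb_pres _ rfl hs) (gb_pres _ (Ten.comm c c').symm hs')

theorem Pre.exists_ev (P : Pre R) : ∃ ev : Pnt R → P.gd.G → P.B,
    ∀ (W : Type) [CommRing W] (c : R →+* W) (y : Pnt W) (t : Pnt W → P.B), c.Etale → t ∈ P.S c →
      ev (y.comp c) (P.germ c y t) = t y := by
  classical
  let Q : Pnt R → P.gd.G → P.B → Prop := fun x u v =>
    ∃ (W : Type) (_ : CommRing W) (c : R →+* W) (y : Pnt W) (t : Pnt W → P.B),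
      c.Etale ∧ y.comp c = x ∧ t ∈ P.S c ∧ P.germ c y t = u ∧ t y = v
  refine ⟨fun x u => if h : ∃ v, Q x u v then h.choose else 0, fun W _ c y t hc ht => ?_⟩
  have h : ∃ v, Q (y.comp c) (P.germ c y t) v := ⟨_, W, _, c, y, t, hc, rfl, ht, rfl, rfl⟩
  obtain ⟨W', _, c', y', t', hc', hy, ht', e, e'⟩ := h.choose_spec
  have h1 := ((Pre.germ_eq hc' hc hy ht' ht).1 e).self
  rw [Ten.lift_inl, Ten.lift_inr] at h1
  exact (dif_pos h).trans (e'.symm.trans h1)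

/-- The value of a germ at its centre. -/
def Pre.ev (P : Pre R) : Pnt R → P.gd.G → P.B := P.exists_ev.choose

theorem Pre.ev_germ {c : R →+* W} (hc : c.Etale) (y : Pnt W) {t : Pnt W → P.B} (ht : t ∈ P.S c) :
    P.ev (y.comp c) (P.germ c y t) = t y := P.exists_ev.choose_spec W c y t hc ht

theorem Pre.ev_add (x : Pnt R) {u v : P.gd.G} (hu : u ∈ P.gd.M x) (hv : v ∈ P.gd.M x) :
    P.ev x (u + v) = P.ev x u + P.ev x v := by
  obtain ⟨W₁, _, c₁, y₁, t₁, hc₁, e₁, ht₁, rfl⟩ := P.gd.surj x u hu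
  obtain ⟨W₂, _, c₂, y₂, t₂, hc₂, e₂, ht₂, rfl⟩ := P.gd.surj x v hv
  have hy := e₁.trans e₂.symm
  have hc := et_comp hc₁ (Ten.etale_inl c₁ hc₂)
  have k₁ := gb_pres (Ten.inl c₁ c₂) rfl ht₁
  have k₂ := gb_pres (Ten.inr c₁ c₂) (Ten.comm c₁ c₂).symm ht₂
  have h1 := gb_res (Ten.inl c₁ c₂) rfl (Ten.lift y₁ y₂ hy) hc₁ hc ht₁
  have h2 := gb_res (Ten.inr c₁ c₂) (Ten.comm c₁ c₂).symm (Ten.lift y₁ y₂ hy) hc₂ hc ht₂
  rw [Ten.lift_inl] at h1
  rw [Ten.lift_inr] at h2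
  have h3 : x = (Ten.lift y₁ y₂ hy).comp ((Ten.inl c₁ c₂).comp c₁) := by
    rw [← RingHom.comp_assoc, Ten.lift_inl, e₁]
  change P.ev x (P.germ c₁ y₁ t₁ + P.germ c₂ y₂ t₂) =
    P.ev x (P.germ c₁ y₁ t₁) + P.ev x (P.germ c₂ y₂ t₂)
  rw [← h1, ← h2, ← gb_add hc _ k₁ k₂, h3, Pre.ev_germ hc _ (add_mem k₁ k₂), Pre.ev_germ hc _ k₁,
    Pre.ev_germ hc _ k₂]
  rfl

theorem Pre.ev_mem (x : Pnt R) {u : P.gd.G} (hu : u ∈ P.gd.M x) : P.ev x u ∈ P.M x := by
  obtain ⟨W₁, _, c, y, t, hc, rfl, ht, rfl⟩ := P.gd.surj x u hu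
  exact (Pre.ev_germ hc y ht).symm ▸ P.mem ht y

/-- The sheaf property over etale algebras. -/
def Pre.Shf (P : Pre R) : Prop :=
  ∀ (V : Type) [CommRing V] (a : R →+* V) (s : Pnt V → P.B), a.Etale →
    (∀ y : Pnt V, ∃ (W : Type) (_ : CommRing W) (b : V →+* W) (z : Pnt W),
      b.Etale ∧ z.comp b = y ∧ rs b s ∈ P.S (b.comp a)) → s ∈ P.S a

/-- For a sheaf, the sections of the associated system over an etale algebra are the old ones. -/
theorem Pre.Shf.sec (h : P.Shf) {c : R →+* W} (hc : c.Etale) {σ : Pnt W → P.gd.G}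
    (hσ : σ ∈ P.sys.S c) :
    (fun y => P.ev (y.comp c) (σ y)) ∈ P.S c ∧
      ∀ y, σ y = P.germ c y fun y' => P.ev (y'.comp c) (σ y') := by
  have key : ∀ y : Pnt W, ∃ (V : Type) (_ : CommRing V) (b : W →+* V) (z : Pnt V),
      b.Etale ∧ z.comp b = y ∧ rs b (fun y => P.ev (y.comp c) (σ y)) ∈ P.S (b.comp c) ∧
        σ y = P.germ (b.comp c) z (rs b fun y => P.ev (y.comp c) (σ y)) := fun y => by
    obtain ⟨W₁, _, c₁, V₁, _, b, d, z, t, hc₁, hb, e, rfl, ht, s⟩ := (show P.GS c σ from hσ) y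
    have h1 : (rs b fun y => P.ev (y.comp c) (σ y)) = rs d t := funext fun z' => by
      rw [rs_apply, s, RingHom.comp_assoc, ← e]
      exact Pre.ev_germ hc₁ (z'.comp d) ht
    refine ⟨V₁, _, b, z, hb, rfl, h1 ▸ gb_pres d e ht, ?_⟩
    rw [h1, gb_res d e z hc₁ (et_comp hc hb) ht, s]
  have h1 := h W c _ hc fun y => by
    obtain ⟨V, _, b, z, hb, e, h1, -⟩ := key y
    exact ⟨V, _, b, z, hb, e, h1⟩
  refine ⟨h1, fun y => ?_⟩
  obtain ⟨V, _, b, z, hb, rfl, -, h2⟩ := key y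
  exact h2.trans (gb_res b rfl z hc (et_comp hc hb) h1)

/-- Morphisms of presheaves. -/
structure PMor (g : R →+* R') (P : Pre R) (P' : Pre R') where
  φ : Pnt R' → P.B → P'.B
  add : ∀ x, ∀ u ∈ P.M (x.comp g), ∀ v ∈ P.M (x.comp g), φ x (u + v) = φ x u + φ x v
  sec : ∀ {V : Type} [CommRing V] {a : R' →+* V} {s : Pnt V → P.B}, s ∈ P.S (a.comp g) →
    (fun y => φ (y.comp a) (s y)) ∈ P'.S a

theorem Pre.gc_res (P : Pre R) {a : R →+* V} {a' : R →+* W} (b : V →+* W) (h : b.comp a = a')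
    {s : Pnt V → P.B} (hs : s ∈ P.S a) : rs b s ∈ P.S a' := h ▸ P.res b hs

theorem gc_ind (P : Pre R) (g : R →+* R') (x : Pnt R') {u : P.gd.G}
    (hu : u ∈ P.gd.M (x.comp g)) : ∃ (W W' : Type) (_ : CommRing W) (_ : CommRing W')
      (c : R →+* W) (c' : R' →+* W') (d : W →+* W') (z : Pnt W') (t : Pnt W → P.B), c.Etale ∧
      c'.Etale ∧ d.comp c = c'.comp g ∧ t ∈ P.S c ∧ z.comp c' = x ∧ P.germ c (z.comp d) t = u := by
  obtain ⟨W, _, c, y, t, hc, hy, ht, rfl⟩ := P.gd.surj _ u hu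
  refine ⟨W, Ten c g, _, _, c, Ten.inr c g, Ten.inl c g, Ten.lift y x hy, t, hc,
    Ten.etale_inr g hc, Ten.comm c g, ht, Ten.lift_inr .., ?_⟩
  rw [Ten.lift_inl]; rfl

theorem gc_two (P : Pre R) (x : Pnt R) {u v : P.gd.G} (hu : u ∈ P.gd.M x) (hv : v ∈ P.gd.M x) :
    ∃ (W : Type) (_ : CommRing W) (c : R →+* W) (y : Pnt W) (s t : Pnt W → P.B), c.Etale ∧
      y.comp c = x ∧ s ∈ P.S c ∧ t ∈ P.S c ∧ P.germ c y s = u ∧ P.germ c y t = v := by
  obtain ⟨W₁, _, c₁, y₁, t₁, hc₁, hy₁, ht₁, rfl⟩ := P.gd.surj _ u hu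
  obtain ⟨W₂, _, c₂, y₂, t₂, hc₂, hy₂, ht₂, rfl⟩ := P.gd.surj _ v hv
  have he : ((Ten.inl c₁ c₂).comp c₁).Etale := et_comp hc₁ (Ten.etale_inl c₁ hc₂)
  refine ⟨Ten c₁ c₂, _, (Ten.inl c₁ c₂).comp c₁, Ten.lift y₁ y₂ (hy₁.trans hy₂.symm),
    rs (Ten.inl c₁ c₂) t₁, rs (Ten.inr c₁ c₂) t₂, he, ?_, P.res _ ht₁,
    P.gc_res _ (Ten.comm c₁ c₂).symm ht₂, ?_, ?_⟩
  · rw [← RingHom.comp_assoc, Ten.lift_inl, hy₁]
  · have := P.gd.germ_res (Ten.inl c₁ c₂) (Ten.lift y₁ y₂ (hy₁.trans hy₂.symm)) hc₁ he ht₁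
    rw [Ten.lift_inl] at this
    exact this
  · have := P.gd.germ_res (Ten.inr c₁ c₂) (Ten.lift y₁ y₂ (hy₁.trans hy₂.symm)) hc₂
      (Ten.comm c₁ c₂ ▸ he) ht₂
    rw [Ten.lift_inr, ← Ten.comm] at this
    exact this

theorem gc_choice {α β γ : Type} [Zero γ] (r : α → β → γ → Prop)
    (h : ∀ x u v v', r x u v → r x u v' → v = v') :
    ∃ φ : α → β → γ, ∀ x u v, r x u v → φ x u = v := by
  classical
  refine ⟨fun x u => if e : ∃ v, r x u v then e.choose else 0, fun x u v hv => ?_⟩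
  have e : ∃ v, r x u v := ⟨v, hv⟩
  simp only [dif_pos e]
  exact h x u _ _ e.choose_spec hv

theorem PMor.gc_sec (m : PMor g P P') {c : R →+* W} {c' : R' →+* W'} (d : W →+* W')
    (h : d.comp c = c'.comp g) {t : Pnt W → P.B} (ht : t ∈ P.S c) :
    (fun z' : Pnt W' => m.φ (z'.comp c') (t (z'.comp d))) ∈ P'.S c' :=
  m.sec (a := c') (s := rs d t) (P.gc_res d h ht)

theorem PMor.gc_phi (m : PMor g P P') : ∃ φ : Pnt R' → P.gd.G → P'.gd.G,
    ∀ (W W' : Type) [CommRing W] [CommRing W'] (c : R →+* W) (c' : R' →+* W') (d : W →+* W')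
      (z : Pnt W') (t : Pnt W → P.B), c.Etale → c'.Etale → d.comp c = c'.comp g → t ∈ P.S c →
      φ (z.comp c') (P.germ c (z.comp d) t) =
        P'.germ c' z fun z' => m.φ (z'.comp c') (t (z'.comp d)) := by
  obtain ⟨φ, hφ⟩ := gc_choice (fun (x : Pnt R') (u : P.gd.G) (v : P'.gd.G) =>
    ∃ (W W' : Type) (_ : CommRing W) (_ : CommRing W') (c : R →+* W) (c' : R' →+* W')
      (d : W →+* W') (z : Pnt W') (t : Pnt W → P.B), c.Etale ∧ c'.Etale ∧
      d.comp c = c'.comp g ∧ t ∈ P.S c ∧ z.comp c' = x ∧ P.germ c (z.comp d) t = u ∧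
      v = P'.germ c' z fun z' => m.φ (z'.comp c') (t (z'.comp d))) (by
    rintro x u _ _ ⟨W₁, W₁', _, _, c₁, c₁', d₁, z₁, t₁, hc₁, hc₁', h₁, ht₁, hz₁, hu₁, rfl⟩
      ⟨W₂, W₂', _, _, c₂, c₂', d₂, z₂, t₂, hc₂, hc₂', h₂, ht₂, hz₂, hu₂, rfl⟩
    have hz : z₁.comp c₁' = z₂.comp c₂' := hz₁.trans hz₂.symm
    have hy : (z₁.comp d₁).comp c₁ = (z₂.comp d₂).comp c₂ := by
      rw [RingHom.comp_assoc, h₁, RingHom.comp_assoc, h₂, ← RingHom.comp_assoc, hz]
      rfl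
    have he : ((Ten.inl c₁' c₂').comp d₁).comp c₁ = ((Ten.inr c₁' c₂').comp d₂).comp c₂ := by
      rw [RingHom.comp_assoc, h₁, RingHom.comp_assoc, h₂, ← RingHom.comp_assoc, Ten.comm]
      rfl
    have hn := (Pre.germ_eq hc₁ hc₂ hy ht₁ ht₂).1 (hu₁.trans hu₂.symm)
    have hp : Ten.lift (z₁.comp d₁) (z₂.comp d₂) hy =
        (Ten.lift z₁ z₂ hz).comp (Ten.lift _ _ he) := by
      refine Ten.hom_ext ?_ ?_
      · rw [Ten.lift_inl, RingHom.comp_assoc, Ten.lift_inl, ← RingHom.comp_assoc, Ten.lift_inl]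
      · rw [Ten.lift_inr, RingHom.comp_assoc, Ten.lift_inr, ← RingHom.comp_assoc, Ten.lift_inr]
    rw [hp] at hn
    refine (Pre.germ_eq hc₁' hc₂' hz (m.gc_sec d₁ h₁ ht₁) (m.gc_sec d₂ h₂ ht₂)).2
      (hn.pull.mono fun w hw => ?_)
    rw [RingHom.comp_assoc, Ten.lift_inl, RingHom.comp_assoc, Ten.lift_inr] at hw
    have e : (w.comp (Ten.inl c₁' c₂')).comp c₁' = (w.comp (Ten.inr c₁' c₂')).comp c₂' := by
      rw [RingHom.comp_assoc, Ten.comm]
      rfl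
    exact congrArg₂ m.φ e hw)
  exact ⟨φ, fun W W' _ _ c c' d z t hc hc' h ht =>
    hφ _ _ _ ⟨W, W', _, _, c, c', d, z, t, hc, hc', h, ht, rfl, rfl, rfl⟩⟩

theorem PMor.exists_mor (m : PMor g P P') : ∃ m' : Mor g P.sys P'.sys,
    ∀ (W W' : Type) [CommRing W] [CommRing W'] (c : R →+* W) (c' : R' →+* W') (d : W →+* W')
      (z : Pnt W') (t : Pnt W → P.B), c.Etale → c'.Etale → d.comp c = c'.comp g → t ∈ P.S c →
      m'.φ (z.comp c') (P.germ c (z.comp d) t) =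
        P'.germ c' z fun z' => m.φ (z'.comp c') (t (z'.comp d)) := by
  obtain ⟨φ, hφ⟩ := m.gc_phi
  refine ⟨⟨φ, fun x u hu v hv => ?_, fun x u hu => ?_, fun {V} _ {a σ} hσ y => ?_⟩, hφ⟩
  · obtain ⟨W, _, c, y, s, t, hc, hy, hs, ht, rfl, rfl⟩ := gc_two P _ hu hv
    have hc' := Ten.etale_inr g hc
    have e1 := hφ W _ c _ (Ten.inl c g) (Ten.lift y x hy) s hc hc' (Ten.comm c g) hs
    have e2 := hφ W _ c _ (Ten.inl c g) (Ten.lift y x hy) t hc hc' (Ten.comm c g) ht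
    have e3 := hφ W _ c _ (Ten.inl c g) (Ten.lift y x hy) (s + t) hc hc' (Ten.comm c g)
      (add_mem hs ht)
    rw [Ten.lift_inl, Ten.lift_inr] at e1 e2 e3
    have e4 : P.germ c y (s + t) = P.germ c y s + P.germ c y t := P.gd.germ_add y hc hs ht
    have e5 := P'.gd.germ_add (Ten.lift y x hy) hc' (m.gc_sec _ (Ten.comm c g) hs)
      (m.gc_sec _ (Ten.comm c g) ht)
    change φ x (P.germ c y s + P.germ c y t) = φ x (P.germ c y s) + φ x (P.germ c y t)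
    rw [← e4, e1, e2, e3]
    refine Eq.trans (congrArg (P'.germ _ _) (funext fun w => ?_)) e5
    exact m.add _ _ (P.mem (P.gc_res _ (Ten.comm c g) hs) w) _
      (P.mem (P.gc_res _ (Ten.comm c g) ht) w)
  · obtain ⟨W, W', _, _, c, c', d, z, t, hc, hc', h, ht, rfl, rfl⟩ := gc_ind P g x hu
    rw [hφ W W' c c' d z t hc hc' h ht]
    exact P'.gd.germ_mem z hc' (m.gc_sec d h ht)
  · obtain ⟨W, _, c, V', _, b, d, z, t, hc, hb, h, hz, ht, hs⟩ := hσ y
    have h' : d.comp c = (b.comp a).comp g := h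
    refine ⟨Ten c g, _, Ten.inr c g, V', _, b, Ten.lift d (b.comp a) h', z, _,
      Ten.etale_inr g hc, hb, Ten.lift_inr .., hz, m.gc_sec _ (Ten.comm c g) ht, fun z' => ?_⟩
    have e := hφ W _ c _ (Ten.inl c g) (z'.comp (Ten.lift d (b.comp a) h')) t hc
      (Ten.etale_inr g hc) (Ten.comm c g) ht
    rw [RingHom.comp_assoc, Ten.lift_inr, RingHom.comp_assoc, Ten.lift_inl, ← hs z'] at e
    exact e

/-- The morphism of associated systems. -/
def PMor.mor (m : PMor g P P') : Mor g P.sys P'.sys := m.exists_mor.choose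

theorem PMor.mor_germ (m : PMor g P P') {c : R →+* W} {c' : R' →+* W'} (d : W →+* W')
    (z : Pnt W') {t : Pnt W → P.B} (hc : c.Etale) (hc' : c'.Etale) (h : d.comp c = c'.comp g)
    (ht : t ∈ P.S c) : m.mor.φ (z.comp c') (P.germ c (z.comp d) t) =
      P'.germ c' z fun z' => m.φ (z'.comp c') (t (z'.comp d)) :=
  m.exists_mor.choose_spec W W' c c' d z t hc hc' h ht

theorem PMor.gc_psi {F : Sys R} (m : PMor g F.pre P') : ∃ φ : Pnt R' → F.A → P'.gd.G,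
    ∀ (W' : Type) [CommRing W'] (c' : R' →+* W') (z : Pnt W') (t : Pnt W' → F.A), c'.Etale →
      t ∈ F.S (c'.comp g) →
      φ (z.comp c') (t z) = P'.germ c' z fun z' => m.φ (z'.comp c') (t z') := by
  obtain ⟨φ, hφ⟩ := gc_choice (fun (x : Pnt R') (u : F.A) (v : P'.gd.G) =>
    ∃ (W' : Type) (_ : CommRing W') (c' : R' →+* W') (z : Pnt W') (t : Pnt W' → F.A),
      c'.Etale ∧ t ∈ F.S (c'.comp g) ∧ z.comp c' = x ∧ t z = u ∧
      v = P'.germ c' z fun z' => m.φ (z'.comp c') (t z')) (by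
    rintro x u _ _ ⟨W₁, _, c₁, z₁, t₁, hc₁, ht₁, hz₁, hu₁, rfl⟩
      ⟨W₂, _, c₂, z₂, t₂, hc₂, ht₂, hz₂, hu₂, rfl⟩
    have hz : z₁.comp c₁ = z₂.comp c₂ := hz₁.trans hz₂.symm
    have he : (Ten.inr c₁ c₂).comp (c₂.comp g) = (Ten.inl c₁ c₂).comp (c₁.comp g) := by
      rw [← RingHom.comp_assoc, ← Ten.comm]
      rfl
    have hn := F.sep' (F.res (Ten.inl c₁ c₂) ht₁) (F.res' (Ten.inr c₁ c₂) he ht₂)
      (y := Ten.lift z₁ z₂ hz) (by
        rw [rs_apply, rs_apply, Ten.lift_inl, Ten.lift_inr, hu₁, hu₂])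
    refine (Pre.germ_eq hc₁ hc₂ hz (m.sec (a := c₁) ht₁) (m.sec (a := c₂) ht₂)).2
      (hn.mono fun w hw => ?_)
    have e : (w.comp (Ten.inl c₁ c₂)).comp c₁ = (w.comp (Ten.inr c₁ c₂)).comp c₂ := by
      rw [RingHom.comp_assoc, Ten.comm]
      rfl
    exact congrArg₂ m.φ e hw)
  exact ⟨φ, fun W' _ c' z t hc' ht => hφ _ _ _ ⟨W', _, c', z, t, hc', ht, rfl, rfl, rfl⟩⟩

theorem PMor.exists_toGerm {F : Sys R} (m : PMor g F.pre P') : ∃ m' : Mor g F P'.sys,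
    ∀ (W' : Type) [CommRing W'] (c' : R' →+* W') (z : Pnt W') (t : Pnt W' → F.A), c'.Etale →
      t ∈ F.S (c'.comp g) →
      m'.φ (z.comp c') (t z) = P'.germ c' z fun z' => m.φ (z'.comp c') (t z') := by
  obtain ⟨φ, hφ⟩ := m.gc_psi
  refine ⟨⟨φ, fun x u hu v hv => ?_, fun x u hu => ?_, fun {V} _ {a s} hs y => ?_⟩, hφ⟩
  · obtain ⟨W₁, _, c₁, y₁, t₁, hc₁, hy₁, ht₁, rfl⟩ := (F.pb g).stalk x u hu
    obtain ⟨W₂, _, c₂, y₂, t₂, hc₂, hy₂, ht₂, rfl⟩ := (F.pb g).stalk x v hv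
    have hc : ((Ten.inl c₁ c₂).comp c₁).Etale := et_comp hc₁ (Ten.etale_inl c₁ hc₂)
    have hy : y₁.comp c₁ = y₂.comp c₂ := hy₁.trans hy₂.symm
    have h1 : rs (Ten.inl c₁ c₂) t₁ ∈ F.S (((Ten.inl c₁ c₂).comp c₁).comp g) :=
      (F.pb g).res _ ht₁
    have h2 : rs (Ten.inr c₁ c₂) t₂ ∈ F.S (((Ten.inl c₁ c₂).comp c₁).comp g) :=
      (F.pb g).res' _ (Ten.comm c₁ c₂).symm ht₂
    have e1 := hφ _ _ (Ten.lift y₁ y₂ hy) _ hc h1
    have e2 := hφ _ _ (Ten.lift y₁ y₂ hy) _ hc h2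
    have e3 := hφ _ _ (Ten.lift y₁ y₂ hy) _ hc (add_mem h1 h2)
    have ex : (Ten.lift y₁ y₂ hy).comp ((Ten.inl c₁ c₂).comp c₁) = x := by
      rw [← RingHom.comp_assoc, Ten.lift_inl, hy₁]
    have f1 : rs (Ten.inl c₁ c₂) t₁ (Ten.lift y₁ y₂ hy) = t₁ y₁ := by
      rw [rs_apply, Ten.lift_inl]
    have f2 : rs (Ten.inr c₁ c₂) t₂ (Ten.lift y₁ y₂ hy) = t₂ y₂ := by
      rw [rs_apply, Ten.lift_inr]
    replace e1 := (congrArg₂ φ ex f1).symm.trans e1
    replace e2 := (congrArg₂ φ ex f2).symm.trans e2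
    replace e3 := (congrArg₂ φ ex (congrArg₂ (· + ·) f1 f2)).symm.trans e3
    have e5 := P'.gd.germ_add (Ten.lift y₁ y₂ hy) hc (m.sec (a := (Ten.inl c₁ c₂).comp c₁) h1)
      (m.sec (a := (Ten.inl c₁ c₂).comp c₁) h2)
    refine e3.trans (Eq.trans ?_ (congrArg₂ (· + ·) e1 e2).symm)
    refine Eq.trans (congrArg (P'.germ _ _) (funext fun w => ?_)) e5
    exact m.add _ _ (F.mem h1 w) _ (F.mem h2 w)
  · obtain ⟨W, _, c, y, t, hc, rfl, ht, rfl⟩ := (F.pb g).stalk x u hu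
    have e := hφ W c y t hc ht
    exact e ▸ P'.gd.germ_mem y hc (m.sec (a := c) ht)
  · obtain ⟨W, _, c, V', _, b, d, z, t, hc, hb, h, hz, ht, e⟩ := (F.pb g).et (a := a) hs y
    refine ⟨W, _, c, V', _, b, d, z, _, hc, hb, h, hz, m.sec (a := c) ht, fun z' => ?_⟩
    have e1 := hφ W c (z'.comp d) t hc ht
    have e2 : s (z'.comp b) = t (z'.comp d) := congrFun e z'
    rw [RingHom.comp_assoc, h, ← e2] at e1
    exact e1

/-- The morphism from a system to an associated system. -/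
def PMor.toGerm {F : Sys R} (m : PMor g F.pre P') : Mor g F P'.sys := m.exists_toGerm.choose

theorem PMor.toGerm_spec {F : Sys R} (m : PMor g F.pre P') {c' : R' →+* W'} (z : Pnt W')
    {t : Pnt W' → F.A} (hc' : c'.Etale) (ht : t ∈ F.S (c'.comp g)) :
    m.toGerm.φ (z.comp c') (t z) = P'.germ c' z fun z' => m.φ (z'.comp c') (t z') :=
  m.exists_toGerm.choose_spec W' c' z t hc' ht

theorem PMor.exists_ofGerm {F' : Sys R'} (m : PMor g P F'.pre) : ∃ m' : Mor g P.sys F',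
    ∀ x, ∀ u ∈ P.gd.M (x.comp g), m'.φ x u = m.φ x (P.ev (x.comp g) u) := by
  refine ⟨⟨fun x u => m.φ x (P.ev (x.comp g) u), fun x u hu v hv => ?_, fun x u hu => ?_,
    fun {V} _ {a σ} hσ => F'.loc fun y => ?_⟩, fun _ _ _ => rfl⟩
  · exact (congrArg (m.φ x) (Pre.ev_add _ hu hv)).trans
      (m.add x _ (Pre.ev_mem _ hu) _ (Pre.ev_mem _ hv))
  · obtain ⟨W, W', _, _, c, c', d, z, t, hc, hc', h, ht, rfl, rfl⟩ := gc_ind P g x hu
    have e : P.ev ((z.comp c').comp g) (P.germ c (z.comp d) t) = t (z.comp d) := by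
      rw [RingHom.comp_assoc, ← h]
      exact Pre.ev_germ hc (z.comp d) ht
    change m.φ (z.comp c') (P.ev ((z.comp c').comp g) (P.germ c (z.comp d) t)) ∈ _
    rw [e]
    exact F'.mem (m.gc_sec d h ht) z
  · obtain ⟨W, _, c, V', _, b, d, z, t, hc, hb, h, hz, ht, hs⟩ := hσ y
    have h' : d.comp c = (b.comp a).comp g := h
    refine ⟨V', _, b, z, hb, hz, ?_⟩
    have e : rs b (fun y : Pnt V => m.φ (y.comp a) (P.ev ((y.comp a).comp g) (σ y))) =
        fun z' : Pnt V' => m.φ (z'.comp (b.comp a)) (t (z'.comp d)) := by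
      funext z'
      have e1 : P.ev (z'.comp ((b.comp a).comp g)) (P.germ c (z'.comp d) t) = t (z'.comp d) := by
        rw [← h']
        exact Pre.ev_germ hc (z'.comp d) ht
      rw [← e1, ← hs z']
      rfl
    exact e ▸ m.gc_sec d h' ht

/-- The morphism from an associated system to a system. -/
def PMor.ofGerm {F' : Sys R'} (m : PMor g P F'.pre) : Mor g P.sys F' := m.exists_ofGerm.choose

theorem PMor.ofGerm_spec {F' : Sys R'} (m : PMor g P F'.pre) (x : Pnt R') {u : P.gd.G}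
    (hu : u ∈ P.gd.M (x.comp g)) : m.ofGerm.φ x u = m.φ x (P.ev (x.comp g) u) :=
  m.exists_ofGerm.choose_spec x u hu

/-- Induction on germs of a pulled back system: every element of the stalk at `x ∘ g` is a germ
at a point that comes from an etale neighbourhood of `x`. -/
theorem Pre.germ_ind (P : Pre R) (g : R →+* R') (x : Pnt R') {u : P.gd.G}
    (hu : u ∈ P.gd.M (x.comp g)) : ∃ (W W' : Type) (_ : CommRing W) (_ : CommRing W')
      (c : R →+* W) (c' : R' →+* W') (d : W →+* W') (z : Pnt W') (t : Pnt W → P.B), c.Etale ∧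
      c'.Etale ∧ d.comp c = c'.comp g ∧ t ∈ P.S c ∧ z.comp c' = x ∧ P.germ c (z.comp d) t = u := by
  obtain ⟨W, _, c, y, t, hc, hy, ht, rfl⟩ := P.gd.surj _ u hu
  refine ⟨W, Ten c g, _, _, c, Ten.inr c g, Ten.inl c g, Ten.lift y x hy, t, hc,
    Ten.etale_inr g hc, Ten.comm c g, ht, Ten.lift_inr .., ?_⟩
  rw [Ten.lift_inl]; rfl

end

end Pool.Agent.Lib.MP_16ef92_ag.RS
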