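import Mathlib
import Pool.Agent.Lib.MP_16ef92_ag.RS.Germ

set_option autoImplicit false
set_option linter.unusedSectionVars false
set_option linter.unusedVariables false
set_option linter.style.haveILetI false

namespace Pool.Agent.Lib.MP_16ef92_ag.RS

noncomputable section

variable [Bg] {R R' R'' V W : Type} [CommRing R] [CommRing R'] [CommRing R''] [CommRing V]
  [CommRing W] {g : R →+* R'} {g' : R' →+* R''} {F G : Sys R} {F' G' : Sys R'} {F'' : Sys R''}

/-- The presheaf of discontinuous sections. -/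
def god (F : Sys R) : Pre R where
  B := F.A
  M := F.M
  S a :=
    { carrier := {s | ∀ y : Pnt _, s y ∈ F.M (y.comp a)}
      add_mem' := fun hs ht y => add_mem (hs y) (ht y)
      zero_mem' := fun _ => zero_mem _
      neg_mem' := fun hs y => neg_mem (hs y) }
  mem h := h
  res b _ h z := h (z.comp b)

theorem god_shf (F : Sys R) : (god F).Shf := fun V _ a s _ h y => by
  obtain ⟨W, _, b, z, -, rfl, h⟩ := h y
  exact h z

/-- The Godement system. -/
def J (F : Sys R) : Sys R := (god F).sys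

/-- The embedding in the Godement system. -/
def eta (F : Sys R) : Hom F (J F) :=
  PMor.toGerm (P' := god F) ⟨fun _ u => u, fun _ _ _ _ _ => rfl, fun hs => F.mem hs⟩

theorem eta_spec (F : Sys R) {c : R →+* W} (hc : c.Etale) (z : Pnt W) {t : Pnt W → F.A}
    (ht : t ∈ F.S c) : (eta F).φ (z.comp c) (t z) = (god F).germ c z t :=
  PMor.toGerm_spec (P' := god F) (g := RingHom.id R) _ z hc ht

theorem ev_eta (F : Sys R) (x : Pnt R) {u : F.A} (hu : u ∈ F.M x) :
    (god F).ev x ((eta F).φ x u) = u := by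
  obtain ⟨W, _, c, y, t, hc, rfl, ht, rfl⟩ := F.stalk x u hu
  rw [eta_spec F hc y ht]
  exact Pre.ev_germ (P := god F) hc y (F.mem ht)

theorem eta_inj (F : Sys R) : (eta F).Inj := by
  intro x u hu h0
  have h1 := ev_eta F x hu
  have h2 : (god F).ev x 0 = 0 := by
    simpa using Pre.ev_add (P := god F) x (zero_mem _) (zero_mem _)
  rw [h0] at h1
  exact h1.symm.trans h2

/-- The Godement quotient. -/
def Q (F : Sys R) : Sys R := (eta F).cok

/-- The projection to the Godement quotient. -/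
def piQ (F : Sys R) : Hom (J F) (Q F) := (eta F).pr

theorem ses_can (F : Sys R) : SES (eta F) (piQ F) := (eta F).ses_cok (eta_inj F)

/-- A discontinuous section as a global section of the Godement system. -/
def jsec (F : Sys R) (t : Pnt R → F.A) (ht : ∀ x, t x ∈ F.M x) : Z0 (J F) :=
  ⟨fun x => (god F).germ (RingHom.id R) x t, Pre.gs_germ (P := god F) et_id ht⟩

theorem jsec_surj (s : Z0 (J F)) : ∃ t ht, jsec F t ht = s := by
  obtain ⟨h1, h2⟩ := (god_shf F).sec et_id s.2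
  exact ⟨_, h1, Subtype.ext (funext fun y => (h2 y).symm)⟩

/-- Functoriality of `J`. -/
def Mor.jm (m : Mor g F F') : Mor g (J F) (J F') :=
  PMor.mor (P := god F) (P' := god F') ⟨m.φ, m.add, fun hs y => m.mem _ _ (hs y)⟩

theorem Mor.jm_germ (m : Mor g F F') {W' : Type} [CommRing W'] {c : R →+* W} {c' : R' →+* W'}
    (d : W →+* W') (z : Pnt W') {t : Pnt W → F.A} (hc : c.Etale) (hc' : c'.Etale)
    (h : d.comp c = c'.comp g) (ht : ∀ y, t y ∈ F.M (y.comp c)) :
    m.jm.φ (z.comp c') ((god F).germ c (z.comp d) t) =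
      (god F').germ c' z fun z' => m.φ (z'.comp c') (t (z'.comp d)) :=
  PMor.mor_germ (P := god F) (P' := god F') _ d z hc hc' h ht

theorem Mor.jm_eta (m : Mor g F F') (x : Pnt R') {u : F.A} (hu : u ∈ F.M (x.comp g)) :
    m.jm.φ x ((eta F).φ (x.comp g) u) = (eta F').φ x (m.φ x u) := by
  obtain ⟨W, _, c, y, t, hc, hy, ht, rfl⟩ := F.stalk _ u hu
  have h1 := eta_spec F hc y ht
  have h2 := m.jm_germ (Ten.inl c g) (Ten.lift y x hy) hc (Ten.etale_inr g hc) (Ten.comm c g)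
    (F.mem ht)
  have h3 := eta_spec F' (Ten.etale_inr g hc) (Ten.lift y x hy)
    (m.sec (F.res' _ (Ten.comm c g) ht))
  simp only [rs_apply, Ten.lift_inl, Ten.lift_inr] at h2 h3
  rw [← hy, h1, h2, h3]

theorem Mor.exists_qm (m : Mor g F F') : ∃ m' : Mor g (Q F) (Q F'),
    ∀ x, ∀ u ∈ (J F).M (x.comp g),
      m'.φ x ((piQ F).φ (x.comp g) u) = (piQ F').φ x (m.jm.φ x u) := by
  refine Mor.exists_desc (piQ F) (ses_can F).surj (m.jm.comp (piQ F')) fun x u hu h0 => ?_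
  obtain ⟨w, hw, rfl⟩ := Mor.mem_im.1 (((ses_can F).ex _ u hu).1 h0)
  have h1 := m.jm_eta x hw
  refine ((ses_can F').ex x _ (m.jm.mem x _ hu)).2 ?_
  exact Mor.mem_im.2 ⟨_, m.mem x _ hw, h1.symm⟩

/-- Functoriality of `Q`. -/
def Mor.qm (m : Mor g F F') : Mor g (Q F) (Q F') := m.exists_qm.choose

theorem Mor.qm_pi (m : Mor g F F') (x : Pnt R') {u : (J F).A} (hu : u ∈ (J F).M (x.comp g)) :
    m.qm.φ x ((piQ F).φ (x.comp g) u) = (piQ F').φ x (m.jm.φ x u) :=
  m.exists_qm.choose_spec x u hu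

theorem Mor.qm_range (m : Mor g F F') :
    (piQ F).app.range ≤ (piQ F').app.range.comap m.qm.app := by
  rintro _ ⟨s, rfl⟩
  exact ⟨m.jm.app s, Subtype.ext (funext fun x => (m.qm_pi x ((J F).mem s.2 (x.comp g))).symm)⟩

/-- Cohomology, through the canonical resolution. -/
def H : ℕ → Sys R → AddCommGrpCat.{0}
  | 0, F => AddCommGrpCat.of (Z0 F)
  | 1, F => AddCommGrpCat.of (Z0 (Q F) ⧸ (piQ F).app.range)
  | q + 2, F => H (q + 1) (Q F)

/-- Functoriality of cohomology. -/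
def Hmap : ∀ (q : ℕ) {F : Sys R} {F' : Sys R'}, Mor g F F' → (H q F →+ H q F')
  | 0, _, _, m => m.app
  | 1, _, _, m => QuotientAddGroup.map _ _ m.qm.app m.qm_range
  | q + 2, _, _, m => Hmap (q + 1) m.qm

/-- The dimension shift. -/
def sh : ∀ (q : ℕ) (F : Sys R), H q (Q F) →+ H (q + 1) F
  | 0, F => QuotientAddGroup.mk' (piQ F).app.range
  | _ + 1, _ => AddMonoidHom.id _

theorem coa_app_comp (m : Mor g F F') (m' : Mor g' F' F'') (m'' : Mor (g'.comp g) F F'')
    (h : ∀ x, ∀ u ∈ F.M (x.comp (g'.comp g)), m'.φ x (m.φ (x.comp g') u) = m''.φ x u) (s : Z0 F) :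
    m'.app (m.app s) = m''.app s :=
  Subtype.ext (funext fun x => h x _ (F.mem s.2 (x.comp (g'.comp g))))

theorem coa_jm_comp (m : Mor g F F') (m' : Mor g' F' F'') (m'' : Mor (g'.comp g) F F'')
    (h : ∀ x, ∀ u ∈ F.M (x.comp (g'.comp g)), m'.φ x (m.φ (x.comp g') u) = m''.φ x u)
    (x : Pnt R'') (u : (J F).A) (hu : u ∈ (J F).M (x.comp (g'.comp g))) :
    m'.jm.φ x (m.jm.φ (x.comp g') u) = m''.jm.φ x u := by
  obtain ⟨W, W', _, _, c, c', d, z, t, hc, hc', hd, ht, hz, rfl⟩ :=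
    (god F).germ_ind g (x.comp g') hu
  have e : ∀ y : Pnt W', (y.comp d).comp c = (y.comp c').comp g := fun y => by
    rw [RingHom.comp_assoc, hd, RingHom.comp_assoc]
  have e' : ∀ w : Pnt (Ten c' g'), (w.comp (Ten.inl c' g')).comp c' =
      (w.comp (Ten.inr c' g')).comp g' := fun w => by
    rw [RingHom.comp_assoc, Ten.comm, RingHom.comp_assoc]
  have h1 := m.jm_germ d z hc hc' hd ht
  have h2 := m'.jm_germ (Ten.inl c' g') (Ten.lift z x hz) hc' (Ten.etale_inr g' hc')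
    (Ten.comm c' g') (t := fun z' => m.φ (z'.comp c') (t (z'.comp d)))
    (fun y => m.mem _ _ (e y ▸ ht (y.comp d)))
  have h3 := m''.jm_germ ((Ten.inl c' g').comp d) (Ten.lift z x hz) hc (Ten.etale_inr g' hc')
    (by rw [RingHom.comp_assoc, hd, ← RingHom.comp_assoc, Ten.comm, RingHom.comp_assoc]) ht
  rw [← RingHom.comp_assoc, Ten.lift_inl, Ten.lift_inr] at h3
  rw [Ten.lift_inl, Ten.lift_inr] at h2
  rw [← hz, h1, h2, h3]
  refine congrArg _ (funext fun w => ?_)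
  rw [e' w]
  refine h _ _ ?_
  have h4 := ht ((w.comp (Ten.inl c' g')).comp d)
  rwa [e, e'] at h4

theorem coa_qm_comp (m : Mor g F F') (m' : Mor g' F' F'') (m'' : Mor (g'.comp g) F F'')
    (h : ∀ x, ∀ u ∈ F.M (x.comp (g'.comp g)), m'.φ x (m.φ (x.comp g') u) = m''.φ x u)
    (x : Pnt R'') (u : (Q F).A) (hu : u ∈ (Q F).M (x.comp (g'.comp g))) :
    m'.qm.φ x (m.qm.φ (x.comp g') u) = m''.qm.φ x u := by
  obtain ⟨v, hv, rfl⟩ := (ses_can F).surj _ u hu
  have h1 := m.qm_pi (x.comp g') hv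
  have h2 := m'.qm_pi x (m.jm.mem (x.comp g') v hv)
  have h3 := m''.qm_pi x hv
  rw [h3, ← coa_jm_comp m m' m'' h x v hv, ← h2, ← h1]
  rfl

theorem coa_comp (q : ℕ) (m : Mor g F F') (m' : Mor g' F' F'') (m'' : Mor (g'.comp g) F F'')
    (h : ∀ x, ∀ u ∈ F.M (x.comp (g'.comp g)), m'.φ x (m.φ (x.comp g') u) = m''.φ x u)
    (ξ : H q F) : Hmap q m' (Hmap q m ξ) = Hmap q m'' ξ := by
  induction q using Nat.strong_induction_on generalizing F F' F'' with
  | _ q ih =>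
    match q with
    | 0 => exact coa_app_comp m m' m'' h ξ
    | 1 =>
      obtain ⟨s, rfl⟩ := QuotientAddGroup.mk'_surjective (piQ F).app.range ξ
      exact congrArg (QuotientAddGroup.mk' (piQ F'').app.range)
        (coa_app_comp m.qm m'.qm m''.qm (coa_qm_comp m m' m'' h) s)
    | q + 2 => exact ih (q + 1) (by omega) m.qm m'.qm m''.qm (coa_qm_comp m m' m'' h) ξ

/-- The general composition law. -/
theorem Hmap_comp_of {g'' : R →+* R''} (q : ℕ) (m : Mor g F F') (m' : Mor g' F' F'')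
    (m'' : Mor g'' F F'') (hg : g'.comp g = g'')
    (h : ∀ x, ∀ u ∈ F.M (x.comp g''), m'.φ x (m.φ (x.comp g') u) = m''.φ x u) (ξ : H q F) :
    Hmap q m' (Hmap q m ξ) = Hmap q m'' ξ := by
  subst hg
  exact coa_comp q m m' m'' h ξ

theorem Hmap_comp (q : ℕ) (m : Mor g F F') (m' : Mor g' F' F'') (ξ : H q F) :
    Hmap q m' (Hmap q m ξ) = Hmap q (m.comp m') ξ :=
  Hmap_comp_of q m m' _ rfl (fun _ _ _ => rfl) ξ

theorem coa_jm_id (m : Hom F F) (h : ∀ x, ∀ u ∈ F.M x, m.φ x u = u) (x : Pnt R) (u : (J F).A)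
    (hu : u ∈ (J F).M x) : m.jm.φ x u = u := by
  obtain ⟨W, _, c, y, t, hc, rfl, ht, rfl⟩ := (god F).gd.surj x u hu
  exact (m.jm_germ (RingHom.id W) y hc hc rfl ht).trans
    (congrArg _ (funext fun z => h _ _ (ht z)))

theorem coa_qm_id (m : Hom F F) (h : ∀ x, ∀ u ∈ F.M x, m.φ x u = u) (x : Pnt R) (u : (Q F).A)
    (hu : u ∈ (Q F).M x) : m.qm.φ x u = u := by
  obtain ⟨v, hv, rfl⟩ := (ses_can F).surj _ u hu
  exact (m.qm_pi x hv).trans (congrArg _ (coa_jm_id m h x v hv))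

theorem coa_app_id (m : Hom F F) (h : ∀ x, ∀ u ∈ F.M x, m.φ x u = u) (s : Z0 F) : m.app s = s :=
  Subtype.ext (funext fun x => h x _ (F.mem s.2 x))

theorem coa_id (q : ℕ) (m : Hom F F) (h : ∀ x, ∀ u ∈ F.M x, m.φ x u = u) (ξ : H q F) :
    Hmap q m ξ = ξ := by
  induction q using Nat.strong_induction_on generalizing F with
  | _ q ih =>
    match q with
    | 0 => exact coa_app_id m h ξ
    | 1 =>
      obtain ⟨s, rfl⟩ := QuotientAddGroup.mk'_surjective (piQ F).app.range ξ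
      exact congrArg (QuotientAddGroup.mk' (piQ F).app.range)
        (coa_app_id m.qm (coa_qm_id m h) s)
    | q + 2 => exact ih (q + 1) (by omega) m.qm (coa_qm_id m h) ξ

theorem Hmap_congr {g₁ : R →+* R'} (q : ℕ) (m : Mor g F F') (m₁ : Mor g₁ F F') (hg : g = g₁)
    (h : ∀ x, ∀ u ∈ F.M (x.comp g), m.φ x u = m₁.φ x u) (ξ : H q F) :
    Hmap q m ξ = Hmap q m₁ ξ := by
  rw [← Hmap_comp_of q m (F'.mul 1) m₁ hg (fun x u hu => (one_zsmul _).trans (h x u (hg ▸ hu))) ξ,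
    coa_id q (F'.mul 1) fun _ u _ => one_zsmul u]

theorem Hmap_id {g : R →+* R} (q : ℕ) (m : Mor g F F) (hg : g = RingHom.id R)
    (h : ∀ x, ∀ u ∈ F.M x, m.φ x u = u) (ξ : H q F) : Hmap q m ξ = ξ := by
  subst hg
  exact coa_id q m h ξ

/-- Commutative squares. -/
theorem Hmap_sq {T : Type} [CommRing T] {e : R →+* T} {e' : T →+* R''} {K : Sys T} (q : ℕ)
    (m : Mor g F F') (m' : Mor g' F' F'') (k : Mor e F K) (k' : Mor e' K F'')
    (hg : g'.comp g = e'.comp e)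
    (h : ∀ x, ∀ u ∈ F.M (x.comp (g'.comp g)),
      m'.φ x (m.φ (x.comp g') u) = k'.φ x (k.φ (x.comp e') u)) (ξ : H q F) :
    Hmap q m' (Hmap q m ξ) = Hmap q k' (Hmap q k ξ) := by
  rw [Hmap_comp, Hmap_comp]
  exact Hmap_congr q _ _ hg h ξ

theorem coa_jm_plus (m m' m'' : Mor g F F')
    (h : ∀ x, ∀ u ∈ F.M (x.comp g), m''.φ x u = m.φ x u + m'.φ x u) (x : Pnt R') (u : (J F).A)
    (hu : u ∈ (J F).M (x.comp g)) : m''.jm.φ x u = m.jm.φ x u + m'.jm.φ x u := by
  obtain ⟨W, W', _, _, c, c', d, z, t, hc, hc', hd, ht, rfl, rfl⟩ := (god F).germ_ind g x hu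
  have e : ∀ y : Pnt W', t (y.comp d) ∈ F.M ((y.comp c').comp g) := fun y => by
    have h1 := ht (y.comp d)
    rwa [RingHom.comp_assoc, hd] at h1
  rw [m.jm_germ d z hc hc' hd ht, m'.jm_germ d z hc hc' hd ht, m''.jm_germ d z hc hc' hd ht]
  exact (congrArg _ (funext fun y => h _ _ (e y))).trans
    ((god F').gd.germ_add z hc' (fun y => m.mem _ _ (e y)) fun y => m'.mem _ _ (e y))

theorem coa_qm_plus (m m' m'' : Mor g F F')
    (h : ∀ x, ∀ u ∈ F.M (x.comp g), m''.φ x u = m.φ x u + m'.φ x u) (x : Pnt R') (u : (Q F).A)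
    (hu : u ∈ (Q F).M (x.comp g)) : m''.qm.φ x u = m.qm.φ x u + m'.qm.φ x u := by
  obtain ⟨v, hv, rfl⟩ := (ses_can F).surj _ u hu
  rw [m.qm_pi x hv, m'.qm_pi x hv, m''.qm_pi x hv, coa_jm_plus m m' m'' h x v hv]
  exact (piQ F').add x _ (m.jm.mem x v hv) _ (m'.jm.mem x v hv)

theorem coa_app_plus (m m' m'' : Mor g F F')
    (h : ∀ x, ∀ u ∈ F.M (x.comp g), m''.φ x u = m.φ x u + m'.φ x u) (s : Z0 F) :
    m''.app s = m.app s + m'.app s :=
  Subtype.ext (funext fun x => h x _ (F.mem s.2 (x.comp g)))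

theorem coa_plus (q : ℕ) (m m' m'' : Mor g F F')
    (h : ∀ x, ∀ u ∈ F.M (x.comp g), m''.φ x u = m.φ x u + m'.φ x u) (ξ : H q F) :
    Hmap q m'' ξ = Hmap q m ξ + Hmap q m' ξ := by
  induction q using Nat.strong_induction_on generalizing F F' with
  | _ q ih =>
    match q with
    | 0 => exact coa_app_plus m m' m'' h ξ
    | 1 =>
      obtain ⟨s, rfl⟩ := QuotientAddGroup.mk'_surjective (piQ F).app.range ξ
      exact congrArg (QuotientAddGroup.mk' (piQ F').app.range)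
        (coa_app_plus m.qm m'.qm m''.qm (coa_qm_plus m m' m'' h) s)
    | q + 2 => exact ih (q + 1) (by omega) m.qm m'.qm m''.qm (coa_qm_plus m m' m'' h) ξ

theorem Hmap_plus (q : ℕ) (m m' : Mor g F F') (ξ : H q F) :
    Hmap q (m.plus m') ξ = Hmap q m ξ + Hmap q m' ξ := by
  exact coa_plus q m m' _ (fun _ _ _ => rfl) ξ

theorem Hmap_zero (q : ℕ) (m : Mor g F F') (h : ∀ x, ∀ u ∈ F.M (x.comp g), m.φ x u = 0)
    (ξ : H q F) : Hmap q m ξ = 0 := by
  have h1 := coa_plus q m m m (fun x u hu => by rw [h x u hu, add_zero]) ξ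
  exact left_eq_add.1 h1

theorem Hmap_mul (q : ℕ) (k : ℤ) (ξ : H q F) : Hmap q (F.mul k) ξ = k • ξ := by
  have h1 : Hmap q (F.mul 1) ξ = ξ := coa_id q _ (fun _ u _ => one_zsmul u) ξ
  have h2 : ∀ k : ℤ, Hmap q (F.mul (k + 1)) ξ = Hmap q (F.mul k) ξ + ξ := fun k => by
    rw [coa_plus q (F.mul k) (F.mul 1) (F.mul (k + 1)) (fun _ u _ => add_zsmul u k 1) ξ, h1]
  induction k using Int.induction_on with
  | zero => rw [zero_zsmul]; exact Hmap_zero q _ (fun _ u _ => zero_zsmul u) ξ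
  | succ k ih => rw [h2, ih, add_zsmul, one_zsmul]
  | pred k ih =>
    have h3 := h2 (-(k : ℤ) - 1)
    rw [sub_add_cancel, ih] at h3
    rw [sub_zsmul, one_zsmul, h3, add_neg_cancel_right]

theorem H_tor {n : ℕ} (h : F.Tor n) (q : ℕ) (ξ : H q F) : n • ξ = 0 := by
  rw [← natCast_zsmul, ← Hmap_mul]
  exact Hmap_zero q _ (fun x u hu => (natCast_zsmul u n).trans (h x u hu)) ξ

theorem J_tor {n : ℕ} (h : F.Tor n) : (J F).Tor n := by
  intro x u hu
  obtain ⟨W, _, c, y, t, hc, rfl, ht, rfl⟩ := (god F).gd.surj x u hu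
  let ψ : (god F).S c →+ (god F).gd.G := AddMonoidHom.mk' (fun s => (god F).gd.germ c y s.1)
    fun s s' => (god F).gd.germ_add y hc s.2 s'.2
  have h1 : n • (⟨t, ht⟩ : (god F).S c) = 0 := Subtype.ext (funext fun z => h _ _ (ht z))
  have h2 := map_nsmul ψ n ⟨t, ht⟩
  rw [h1, map_zero] at h2
  exact h2.symm

theorem Q_tor {n : ℕ} (h : F.Tor n) : (Q F).Tor n := by
  intro x u hu
  obtain ⟨v, hv, rfl⟩ := (ses_can F).surj _ u hu
  rw [← (piQ F).nsmul x hv, J_tor h x v hv, (piQ F).zero]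

theorem sh_surj (q : ℕ) (F : Sys R) : Function.Surjective (sh q F) := by
  cases q with
  | zero => exact QuotientAddGroup.mk'_surjective (piQ F).app.range
  | succ q => exact Function.surjective_id

theorem sh_nat (q : ℕ) (m : Mor g F F') (ξ : H q (Q F)) :
    Hmap (q + 1) m (sh q F ξ) = sh q F' (Hmap q m.qm ξ) := by
  cases q <;> rfl

theorem cohb_ret (F : Sys R) : ∃ r : Hom (J (J F)) (J F),
    ∀ x, ∀ u ∈ (J F).M x, r.φ x ((eta (J F)).φ x u) = u := by
  let m : PMor (RingHom.id R) (god (J F)) (god F) :=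
    ⟨fun x u => (god F).ev x u, fun x u hu v hv => Pre.ev_add x hu hv,
      fun hs y => Pre.ev_mem _ (hs y)⟩
  refine ⟨m.mor, fun x u hu => ?_⟩
  obtain ⟨W, _, c, y, t, hc, rfl, ht, rfl⟩ := (god F).gd.surj x u hu
  have h1 : (fun y => (god F).germ c y t) ∈ (J F).S c := Pre.gs_germ hc ht
  have h2 := m.mor_germ (c := c) (c' := c) (RingHom.id W) y hc hc rfl (fun y => (J F).mem h1 y)
  refine ((congrArg _ (eta_spec (J F) hc y h1)).trans h2).trans ?_
  exact congrArg _ (funext fun z => Pre.ev_germ hc z ht)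

theorem cohb_pi_eta (F : Sys R) (x : Pnt R) {u : F.A} (hu : u ∈ F.M x) :
    (piQ F).φ x ((eta F).φ x u) = 0 :=
  ((ses_can F).ex x _ ((eta F).mem x u hu)).2 (Mor.mem_im.2 ⟨u, hu, rfl⟩)

theorem cohb_split (F : Sys R) : ∃ s : Hom (Q (J F)) (J (J F)),
    ∀ x, ∀ v ∈ (Q (J F)).M x, (piQ (J F)).φ x (s.φ x v) = v := by
  obtain ⟨r, hr⟩ := cohb_ret F
  let m : Hom (J (J F)) (J (J F)) :=
    { φ := fun x u => u - (eta (J F)).φ x (r.φ x u)
      add := fun x u hu v hv => by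
        rw [r.add x u hu v hv, (eta (J F)).add x _ (r.mem x u hu) _ (r.mem x v hv)]
        abel
      mem := fun x u hu => sub_mem hu ((eta (J F)).mem x _ (r.mem x u hu))
      sec := fun hs => sub_mem hs ((eta (J F)).sec (r.sec hs)) }
  obtain ⟨s, hs⟩ := Mor.exists_desc (piQ (J F)) (ses_can _).surj m fun x u hu h => by
    obtain ⟨v, hv, rfl⟩ := Mor.mem_im.1 (((ses_can _).ex x u hu).1 h)
    exact sub_eq_zero.2 (congrArg _ (hr x v hv)).symm
  refine ⟨s, fun x v hv => ?_⟩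
  obtain ⟨u, hu, rfl⟩ := (ses_can _).surj x v hv
  have h1 := r.mem x u hu
  refine (congrArg _ (hs x u hu)).trans
    (((piQ (J F)).sub x hu ((eta (J F)).mem x _ h1)).trans ?_)
  rw [cohb_pi_eta _ x h1, sub_zero]

/-- The Godement system has no higher cohomology. -/
theorem H_J (q : ℕ) (F : Sys R) (ξ : H (q + 1) (J F)) : ξ = 0 := by
  induction q generalizing F with
  | zero =>
    obtain ⟨s, hs⟩ := cohb_split F
    obtain ⟨a, rfl⟩ := sh_surj 0 _ ξ
    exact (QuotientAddGroup.eq_zero_iff _).2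
      ⟨s.app a, Subtype.ext (funext fun x => hs x _ ((Q (J F)).mem a.2 x))⟩
  | succ q ih =>
    obtain ⟨s, hs⟩ := cohb_split F
    have h := Hmap_comp (q + 1) s (piQ (J F)) ξ
    rw [ih (J F) (Hmap (q + 1) s ξ), map_zero] at h
    exact (Hmap_id (q + 1) (s.comp (piQ (J F))) rfl hs ξ).symm.trans h.symm

theorem sh_ker (q : ℕ) (F : Sys R) (ξ : H q (Q F)) :
    sh q F ξ = 0 ↔ ξ ∈ (Hmap q (piQ F)).range := by
  cases q with
  | zero => exact QuotientAddGroup.eq_zero_iff _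
  | succ q =>
    refine ⟨fun h => ⟨0, (map_zero _).trans h.symm⟩, fun ⟨a, h⟩ => ?_⟩
    rw [H_J q F a, map_zero] at h
    exact h.symm

/-- A morphism that is bijective on stalks is bijective on cohomology. -/
theorem Hmap_bij (q : ℕ) (m : Hom F G) (h1 : m.Inj) (h2 : m.Surj) :
    Function.Bijective (Hmap q m) := by
  obtain ⟨m', e1, e2⟩ := m.exists_inv h1 h2
  exact Function.bijective_iff_has_inverse.2 ⟨Hmap q m',
    fun ξ => (Hmap_comp q m m' ξ).trans (Hmap_id q _ rfl e1 ξ),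
    fun ξ => (Hmap_comp q m' m ξ).trans (Hmap_id q _ rfl e2 ξ)⟩

/-- The same over a ring isomorphism. -/
theorem Hmap_bij' (q : ℕ) (m : Mor g F F') (hg : Function.Bijective g) (h1 : m.Inj)
    (h2 : m.Surj) : Function.Bijective (Hmap q m) := by
  obtain ⟨m', e1, e2⟩ := m.toHom.exists_inv h1 h2
  let e := RingEquiv.ofBijective g hg
  have a1 : (e.symm : R' →+* R).comp g = RingHom.id R := RingHom.ext e.symm_apply_apply
  have a2 : g.comp (e.symm : R' →+* R) = RingHom.id R' := RingHom.ext e.apply_symm_apply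
  let n : Mor (e.symm : R' →+* R) F' F := m'.comp (F.rm (a' := RingHom.id R) _ a1)
  refine Function.bijective_iff_has_inverse.2 ⟨Hmap q n,
    fun ξ => (Hmap_comp q m n ξ).trans (Hmap_id q _ a1 (fun x u hu => e1 _ u ?_) ξ),
    fun ξ => (Hmap_comp q n m ξ).trans (Hmap_id q _ a2 (fun x u hu => ?_) ξ)⟩
  · change u ∈ F.M (x.comp ((e.symm : R' →+* R).comp g))
    rwa [a1]
  · change m.φ x (m'.φ (x.comp (g.comp (e.symm : R' →+* R))) u) = u
    rw [a2]
    exact e2 x u hu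

/-- Cohomology of an algebra with coefficients in the pullback. -/
abbrev HH (q : ℕ) (F : Sys R) (a : R →+* V) : Type := H q (F.pb a)

/-- Restriction of classes along a homomorphism of algebras. -/
abbrev HR (q : ℕ) (F : Sys R) {a : R →+* V} {a' : R →+* W} (b : V →+* W) (h : b.comp a = a') :
    HH q F a →+ HH q F a' := Hmap q (F.rm b h)

theorem HR_HR {T : Type} [CommRing T] (q : ℕ) (F : Sys R) {a : R →+* V} {a' : R →+* W}
    {a'' : R →+* T} (b : V →+* W) (h : b.comp a = a') (b' : W →+* T) (h' : b'.comp a' = a'')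
    (b'' : V →+* T) (h'' : b''.comp a = a'') (e : b'.comp b = b'') (ξ : HH q F a) :
    HR q F b' h' (HR q F b h ξ) = HR q F b'' h'' ξ :=
  Hmap_comp_of q _ _ _ e (fun _ _ _ => rfl) ξ

/-- Over an etale algebra the Godement system restricts to the Godement system. -/
theorem jm_can_bij (F : Sys R) {c : R →+* W} (hc : c.Etale) :
    (F.can c).jm.Inj ∧ (F.can c).jm.Surj := by
  refine ⟨fun x u hu h => ?_, fun x v hv => ?_⟩
  · obtain ⟨W₁, W', _, _, c₁, c', d, z, t, h1, h2, h3, ht, rfl, rfl⟩ := (god F).germ_ind c x hu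
    have h4 : (d.comp c₁).Etale := h3 ▸ et_comp hc h2
    have h5 := (god F).res d ht
    have h6 : rs d t ∈ (god (F.pb c)).S c' := by
      rw [h3] at h5
      exact h5
    have h7 := ((F.can c).jm_germ d z h1 h2 h3 ht).symm.trans h
    exact ((god F).gd.germ_res d z h1 h4 ht).symm.trans (((god F).gd.germ_zero z h4 h5).2
      (((god (F.pb c)).gd.germ_zero z h2 h6).1 h7))
  · obtain ⟨W', _, c', y, t, h1, rfl, ht, rfl⟩ := (god (F.pb c)).gd.surj x v hv
    have h2 := et_comp hc h1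
    exact ⟨_, (god F).gd.germ_mem (c := c'.comp c) y h2 ht,
      (F.can c).jm_germ (c := c'.comp c) (RingHom.id W') y h2 h1 rfl ht⟩

theorem qm_can_bij (F : Sys R) {c : R →+* W} (hc : c.Etale) :
    (F.can c).qm.Inj ∧ (F.can c).qm.Surj := by
  obtain ⟨h1, h2⟩ := jm_can_bij F hc
  refine ⟨fun x v hv h => ?_, fun x v hv => ?_⟩
  · obtain ⟨u, hu, rfl⟩ := (ses_can F).surj _ v hv
    rw [(F.can c).qm_pi x hu] at h
    obtain ⟨a, ha, e⟩ := Mor.mem_im.1 (((ses_can _).ex x _ ((F.can c).jm.mem x u hu)).1 h)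
    have h3 := (eta F).mem (x.comp c) a ha
    have h4 := h1 x _ (sub_mem hu h3) (((F.can c).jm.sub x hu h3).trans
      (sub_eq_zero.2 (e.symm.trans ((F.can c).jm_eta x ha).symm)))
    rw [sub_eq_zero.1 h4]
    exact cohb_pi_eta F _ ha
  · obtain ⟨w, hw, rfl⟩ := (ses_can _).surj x v hv
    obtain ⟨u, hu, rfl⟩ := h2 x w hw
    exact ⟨_, (piQ F).mem _ u hu, (F.can c).qm_pi x hu⟩

end

end Pool.Agent.Lib.MP_16ef92_ag.RS
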