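import Mathlib
import Pool.Agent.Lib.MP_16ef92_ag.RS.Coh

set_option autoImplicit false
set_option linter.unusedSectionVars false
set_option linter.unusedVariables false
set_option linter.style.haveILetI false

namespace Pool.Agent.Lib.MP_16ef92_ag.RS

noncomputable section

variable [Bg] {R R' V W : Type} [CommRing R] [CommRing R'] [CommRing V] [CommRing W]
  {g : R →+* R'} {F G : Sys R} {F' G' : Sys R'}
  {F₁ F₂ F₃ : Sys R} {i : Hom F₁ F₂} {p : Hom F₂ F₃}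
  {G₁ G₂ G₃ : Sys R'} {i' : Hom G₁ G₂} {p' : Hom G₂ G₃}

theorem Mor.Inj.app (h : i.Inj) : Function.Injective i.app :=
  (injective_iff_map_eq_zero _).2 fun s hs => Subtype.ext (funext fun x =>
    h x _ (F₁.mem s.2 x) (congrFun (congrArg Subtype.val hs) x))

theorem SES.la_comp (h : SES i p) (x : Pnt R) {u : F₁.A} (hu : u ∈ F₁.M x) :
    p.φ x (i.φ x u) = 0 :=
  (h.ex x _ (i.mem x u hu)).2 (Mor.mem_im.2 ⟨u, hu, rfl⟩)

theorem SES.app_mid (h : SES i p) (s : Z0 F₂) : p.app s = 0 ↔ s ∈ i.app.range := by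
  constructor
  · intro hs
    have h1 : ∀ x : Pnt R, ∃ u ∈ F₁.M x, i.φ x u = s.1 x := fun x =>
      Mor.mem_im.1 ((h.ex x _ (F₂.mem s.2 x)).1 (congrFun (congrArg Subtype.val hs) x))
    choose t ht e using h1
    have h2 : (fun y : Pnt R => i.φ (y.comp (RingHom.id R)) (t y)) = s.1 := funext e
    exact ⟨⟨t, i.sec_of_inj h.inj (a := RingHom.id R) ht (h2 ▸ s.2)⟩, Subtype.ext (funext e)⟩
  · rintro ⟨t, rfl⟩
    exact Subtype.ext (funext fun x => h.la_comp x (F₁.mem t.2 x))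

theorem la_jm (m : Hom F G) {c : R →+* W} (hc : c.Etale) (y : Pnt W) {t : Pnt W → F.A}
    (ht : ∀ z, t z ∈ F.M (z.comp c)) :
    m.jm.φ (y.comp c) ((god F).germ c y t) =
      (god G).germ c y fun z => m.φ (z.comp c) (t z) :=
  m.jm_germ (RingHom.id W) y hc hc rfl ht

theorem la_germ_zero (F : Sys R) {c : R →+* W} (hc : c.Etale) (y : Pnt W) {t : Pnt W → F.A}
    (ht : ∀ z, t z ∈ F.M (z.comp c)) :
    (god F).germ c y t = 0 ↔ Nr y fun z => t z = 0 :=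
  (god F).gd.germ_zero y hc ht

theorem la_germ_congr (F : Sys R) {c : R →+* W} (hc : c.Etale) (y : Pnt W) {s t : Pnt W → F.A}
    (hs : ∀ z, s z ∈ F.M (z.comp c)) (ht : ∀ z, t z ∈ F.M (z.comp c))
    (h : Nr y fun z => s z = t z) : (god F).germ c y s = (god F).germ c y t := by
  have hd : ∀ z, (s - t) z ∈ F.M (z.comp c) := fun z => sub_mem (hs z) (ht z)
  have h0 : (god F).germ c y (s - t) = 0 :=
    (la_germ_zero F hc y hd).2 (h.mono fun z hz => sub_eq_zero.2 hz)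
  have h1 : (god F).germ c y (s - t + t) =
      (god F).germ c y (s - t) + (god F).germ c y t := (god F).gd.germ_add y hc hd ht
  rw [h0, zero_add, sub_add_cancel] at h1
  exact h1

theorem la_germ_mem (F : Sys R) {c : R →+* W} (hc : c.Etale) (y : Pnt W) {t : Pnt W → F.A}
    (ht : ∀ z, t z ∈ F.M (z.comp c)) : (god F).germ c y t ∈ (J F).M (y.comp c) :=
  (god F).gd.germ_mem y hc ht

theorem la_germ_surj (F : Sys R) (x : Pnt R) {u : (J F).A} (hu : u ∈ (J F).M x) :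
    ∃ (W : Type) (_ : CommRing W) (c : R →+* W) (y : Pnt W) (t : Pnt W → F.A), c.Etale ∧
      y.comp c = x ∧ (∀ z, t z ∈ F.M (z.comp c)) ∧ (god F).germ c y t = u :=
  (god F).gd.surj x u hu

theorem Mor.Surj.app_jm (h : p.Surj) : Function.Surjective p.jm.app := by
  intro s
  obtain ⟨t, ht, rfl⟩ := jsec_surj s
  choose u hu e using fun x => h x (t x) (ht x)
  refine ⟨jsec F₂ u hu, Subtype.ext (funext fun x => ?_)⟩
  refine (la_jm p et_id x hu).trans ?_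
  exact congrArg ((god F₃).germ (RingHom.id R) x) (funext e)

theorem SES.jm (h : SES i p) : SES i.jm p.jm := by
  classical
  refine ⟨fun x u hu h0 => ?_, fun x v hv => ⟨fun h0 => ?_, fun h0 => ?_⟩, fun x v hv => ?_⟩
  · obtain ⟨W, _, c, y, t, hc, rfl, ht, rfl⟩ := la_germ_surj F₁ x hu
    replace h0 := (la_germ_zero F₂ hc y fun z => i.mem _ _ (ht z)).1
      ((la_jm i hc y ht).symm.trans h0)
    exact (la_germ_zero F₁ hc y ht).2 (h0.mono fun z hz => h.inj _ _ (ht z) hz)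
  · obtain ⟨W, _, c, y, t, hc, rfl, ht, rfl⟩ := la_germ_surj F₂ x hv
    replace h0 := (la_germ_zero F₃ hc y fun z => p.mem _ _ (ht z)).1
      ((la_jm p hc y ht).symm.trans h0)
    have h1 : ∀ z : Pnt W, ∃ u ∈ F₁.M (z.comp c),
        p.φ (z.comp c) (t z) = 0 → i.φ (z.comp c) u = t z := fun z => by
      by_cases hz : p.φ (z.comp c) (t z) = 0
      · obtain ⟨u, hu, e⟩ := Mor.mem_im.1 ((h.ex _ _ (ht z)).1 hz)
        exact ⟨u, hu, fun _ => e⟩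
      · exact ⟨0, zero_mem _, fun h => absurd h hz⟩
    choose u hu e using h1
    refine Mor.mem_im.2 ⟨_, la_germ_mem F₁ hc y hu, (la_jm i hc y hu).trans ?_⟩
    exact la_germ_congr F₂ hc y (fun z => i.mem _ _ (hu z)) ht (h0.mono e)
  · obtain ⟨u, hu, rfl⟩ := Mor.mem_im.1 h0
    obtain ⟨W, _, c, y, t, hc, rfl, ht, rfl⟩ := la_germ_surj F₁ x hu
    have h1 : ∀ z : Pnt W, i.φ (z.comp c) (t z) ∈ F₂.M (z.comp c) := fun z => i.mem _ _ (ht z)
    rw [la_jm i hc y ht, la_jm p hc y h1]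
    exact (la_germ_zero F₃ hc y fun z => p.mem _ _ (h1 z)).2
      (.of_forall fun z => h.la_comp _ (ht z))
  · obtain ⟨W, _, c, y, t, hc, rfl, ht, rfl⟩ := la_germ_surj F₃ x hv
    choose u hu e using fun z : Pnt W => h.surj _ (t z) (ht z)
    exact ⟨_, la_germ_mem F₂ hc y hu, (la_jm p hc y hu).trans
      (congrArg ((god F₃).germ c y) (funext e))⟩

theorem Mor.Inj.la_eq (h : i.Inj) (x : Pnt R) {u v : F₁.A} (hu : u ∈ F₁.M x) (hv : v ∈ F₁.M x)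
    (e : i.φ x u = i.φ x v) : u = v :=
  sub_eq_zero.1 (h x _ (sub_mem hu hv) ((i.sub x hu hv).trans (sub_eq_zero.2 e)))

theorem SES.qm (h : SES i p) : SES i.qm p.qm := by
  have hj := h.jm
  refine ⟨fun x u hu h0 => ?_, fun x v hv => ⟨fun h0 => ?_, fun h0 => ?_⟩, fun x v hv => ?_⟩
  · obtain ⟨b, hb, rfl⟩ := (ses_can F₁).surj x u hu
    have e1 : (piQ F₂).φ x (i.jm.φ x b) = 0 := (i.qm_pi x hb).symm.trans h0
    obtain ⟨a, ha, e2⟩ := Mor.mem_im.1 (((ses_can F₂).ex x _ (i.jm.mem x b hb)).1 e1)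
    have e3 : (eta F₃).φ x (p.φ x a) = 0 :=
      (p.jm_eta x ha).symm.trans ((congrArg (p.jm.φ x) e2).trans (hj.la_comp x hb))
    obtain ⟨a₁, ha₁, rfl⟩ := Mor.mem_im.1 ((h.ex x a ha).1 (eta_inj F₃ x _ (p.mem x a ha) e3))
    have e4 : (eta F₁).φ x a₁ = b :=
      hj.inj.la_eq x ((eta F₁).mem x a₁ ha₁) hb ((i.jm_eta x ha₁).trans e2)
    rw [← e4]
    exact (ses_can F₁).la_comp x ha₁
  · obtain ⟨b, hb, rfl⟩ := (ses_can F₂).surj x v hv
    have e1 : (piQ F₃).φ x (p.jm.φ x b) = 0 := (p.qm_pi x hb).symm.trans h0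
    obtain ⟨a₃, ha₃, e2⟩ := Mor.mem_im.1 (((ses_can F₃).ex x _ (p.jm.mem x b hb)).1 e1)
    obtain ⟨a, ha, rfl⟩ := h.surj x a₃ ha₃
    have hm : (eta F₂).φ x a ∈ (J F₂).M x := (eta F₂).mem x a ha
    have e3 : p.jm.φ x (b - (eta F₂).φ x a) = 0 :=
      (p.jm.sub x hb hm).trans (sub_eq_zero.2 (e2.symm.trans (p.jm_eta x ha).symm))
    obtain ⟨b₁, hb₁, e4⟩ := Mor.mem_im.1 ((hj.ex x _ (sub_mem hb hm)).1 e3)
    refine Mor.mem_im.2 ⟨_, (piQ F₁).mem x b₁ hb₁, (i.qm_pi x hb₁).trans ?_⟩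
    rw [e4]
    refine ((piQ F₂).sub x hb hm).trans ?_
    rw [(ses_can F₂).la_comp x ha, sub_zero]
  · obtain ⟨u, hu, rfl⟩ := Mor.mem_im.1 h0
    obtain ⟨b, hb, rfl⟩ := (ses_can F₁).surj x u hu
    have e1 : i.qm.φ x ((piQ F₁).φ x b) = (piQ F₂).φ x (i.jm.φ x b) := i.qm_pi x hb
    have e2 : p.qm.φ x ((piQ F₂).φ x (i.jm.φ x b)) = (piQ F₃).φ x (p.jm.φ x (i.jm.φ x b)) :=
      p.qm_pi x (i.jm.mem x b hb)
    rw [e1, e2, hj.la_comp x hb]
    exact (piQ F₃).zero x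
  · obtain ⟨b₃, hb₃, rfl⟩ := (ses_can F₃).surj x v hv
    obtain ⟨b, hb, rfl⟩ := hj.surj x b₃ hb₃
    exact ⟨_, (piQ F₂).mem x b hb, p.qm_pi x hb⟩

theorem la_qm_app (m : Mor g F F') (t : Z0 (J F)) :
    m.qm.app ((piQ F).app t) = (piQ F').app (m.jm.app t) :=
  Subtype.ext (funext fun x => m.qm_pi x ((J F).mem t.2 (x.comp g)))

theorem la_jm_app (m : Mor g F F') (s : Z0 F) :
    m.jm.app ((eta F).app s) = (eta F').app (m.app s) :=
  Subtype.ext (funext fun x => m.jm_eta x (F.mem s.2 (x.comp g)))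

theorem SES.la_app (h : SES i p) (s : Z0 F₁) : p.app (i.app s) = 0 := (h.app_mid _).2 ⟨s, rfl⟩

theorem la_sh_zero (F : Sys R) (w : Z0 (Q F)) : sh 0 F w = 0 ↔ w ∈ (piQ F).app.range :=
  QuotientAddGroup.eq_zero_iff w

theorem SES.del0_rep (h : SES i p) (s : Z0 F₃) : ∃ (t : Z0 (J F₂)) (w : Z0 (Q F₁)),
    p.jm.app t = (eta F₃).app s ∧ i.qm.app w = (piQ F₂).app t := by
  obtain ⟨t, ht⟩ := h.surj.app_jm ((eta F₃).app s)
  have h0 : p.qm.app ((piQ F₂).app t) = 0 := by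
    rw [la_qm_app, ht, (ses_can F₃).la_app]
  obtain ⟨w, hw⟩ := (h.qm.app_mid _).1 h0
  exact ⟨t, w, ht, hw⟩

theorem SES.la_wd (h : SES i p) {t t' : Z0 (J F₂)} {w w' : Z0 (Q F₁)}
    (e : p.jm.app t = p.jm.app t') (h1 : i.qm.app w = (piQ F₂).app t)
    (h2 : i.qm.app w' = (piQ F₂).app t') : sh 0 F₁ w = sh 0 F₁ w' := by
  obtain ⟨b, hb⟩ := (h.jm.app_mid (t - t')).1 (by rw [map_sub, e, sub_self])
  have e1 : (piQ F₁).app b = w - w' := by
    apply h.qm.inj.app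
    rw [la_qm_app, hb, map_sub, map_sub, h1, h2]
  have e2 : sh 0 F₁ (w - w' : Z0 (Q F₁)) = 0 := (la_sh_zero F₁ _).2 ⟨b, e1⟩
  exact sub_eq_zero.1 ((map_sub (sh 0 F₁) w w').symm.trans e2)

theorem SES.exists_del0 (h : SES i p) : ∃ δ : Z0 F₃ →+ H 1 F₁,
    ∀ (s : Z0 F₃) (t : Z0 (J F₂)) (w : Z0 (Q F₁)), p.jm.app t = (eta F₃).app s →
      i.qm.app w = (piQ F₂).app t → δ s = sh 0 F₁ w := by
  choose t w h1 h2 using h.del0_rep
  refine ⟨AddMonoidHom.mk' (fun s => sh 0 F₁ (w s)) fun s s' => ?_, fun s t' w' h1' h2' =>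
    h.la_wd ((h1 s).trans h1'.symm) (h2 s) h2'⟩
  refine Eq.trans ?_ (map_add (sh 0 F₁) (w s) (w s'))
  refine h.la_wd (t' := t s + t s') (w' := w s + w s') ?_ (h2 _) ?_
  · rw [h1, map_add, map_add, h1, h1]
  · rw [map_add, map_add, h2, h2]

/-- The connecting homomorphism in degree zero. -/
def SES.del0 (h : SES i p) : Z0 F₃ →+ H 1 F₁ := h.exists_del0.choose

theorem SES.del0_eq (h : SES i p) {s : Z0 F₃} {t : Z0 (J F₂)} {w : Z0 (Q F₁)}
    (h1 : p.jm.app t = (eta F₃).app s) (h2 : i.qm.app w = (piQ F₂).app t) :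
    h.del0 s = sh 0 F₁ w := h.exists_del0.choose_spec s t w h1 h2

theorem SES.del0_ker (h : SES i p) (s : Z0 F₃) : h.del0 s = 0 ↔ s ∈ p.app.range := by
  constructor
  · intro h0
    obtain ⟨t, w, h1, h2⟩ := h.del0_rep s
    rw [h.del0_eq h1 h2, la_sh_zero] at h0
    obtain ⟨b, rfl⟩ := h0
    obtain ⟨a, ha⟩ := ((ses_can F₂).app_mid (t - i.jm.app b)).1 (by
      rw [map_sub, ← h2, la_qm_app, sub_self])
    refine ⟨a, (eta_inj F₃).app ?_⟩
    rw [← la_jm_app, ha, map_sub, h1, h.jm.la_app, sub_zero]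
  · rintro ⟨a, rfl⟩
    have e : i.qm.app 0 = (piQ F₂).app ((eta F₂).app a) := by
      rw [map_zero, (ses_can F₂).la_app]
    rw [h.del0_eq (la_jm_app p a) e]
    exact map_zero (sh 0 F₁)

theorem SES.del0_pi (h : SES i p) : (piQ F₃).app.range ≤ h.qm.del0.ker := by
  rintro _ ⟨b₃, rfl⟩
  obtain ⟨b, rfl⟩ := h.surj.app_jm b₃
  exact (h.qm.del0_ker _).2 ⟨_, la_qm_app p b⟩

/-- The connecting homomorphism. -/
def SES.del : ∀ (q : ℕ) {F₁ F₂ F₃ : Sys R} {i : Hom F₁ F₂} {p : Hom F₂ F₃}, SES i p →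
    (H q F₃ →+ H (q + 1) F₁)
  | 0, _, _, _, _, _, h => h.del0
  | 1, _, _, F₃, _, _, h => QuotientAddGroup.lift (piQ F₃).app.range h.qm.del0 h.del0_pi
  | q + 2, _, _, _, _, _, h => SES.del (q + 1) h.qm

theorem SES.del_sh (h : SES i p) (q : ℕ) (ξ : H q (Q F₃)) :
    h.del (q + 1) (sh q F₃ ξ) = h.qm.del q ξ := by
  cases q <;> rfl

theorem lb_pi_app (m : Mor g F F') (t : Z0 (J F)) :
    m.qm.app ((piQ F).app t) = (piQ F').app (m.jm.app t) :=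
  Subtype.ext (funext fun x => m.qm_pi x ((J F).mem t.2 (x.comp g)))

theorem lb_eta_app (m : Mor g F F') (s : Z0 F) :
    m.jm.app ((eta F).app s) = (eta F').app (m.app s) :=
  Subtype.ext (funext fun x => m.jm_eta x (F.mem s.2 (x.comp g)))

theorem lb_sh0 (F : Sys R) (w : Z0 (Q F)) : sh 0 F w = 0 ↔ w ∈ (piQ F).app.range :=
  sh_ker 0 F w

theorem lb_sh0_nat (m : Mor g F F') (w : Z0 (Q F)) :
    Hmap 1 m (sh 0 F w) = sh 0 F' (m.qm.app w) := rfl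

theorem lb_pi (h : SES i p) (s : Z0 F₁) : p.app (i.app s) = 0 := (h.app_mid _).2 ⟨s, rfl⟩

/-- Exactness at the third term. -/
theorem SES.del_ker (h : SES i p) (q : ℕ) (ξ : H q F₃) :
    h.del q ξ = 0 ↔ ξ ∈ (Hmap q p).range := by
  induction q generalizing F₁ F₂ F₃ with
  | zero => exact h.del0_ker ξ
  | succ q ih =>
    constructor
    · intro h0
      obtain ⟨ζ, rfl⟩ := sh_surj q F₃ ξ
      rw [h.del_sh] at h0
      obtain ⟨ζ₂, rfl⟩ := (ih h.qm ζ).1 h0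
      exact ⟨sh q F₂ ζ₂, sh_nat q p ζ₂⟩
    · rintro ⟨ξ₂, rfl⟩
      obtain ⟨ζ₂, rfl⟩ := sh_surj q F₂ ξ₂
      rw [sh_nat, h.del_sh]
      exact (ih h.qm _).2 ⟨ζ₂, rfl⟩

theorem lb_range0 (h : SES i p) (ξ : H 1 F₁) : Hmap 1 i ξ = 0 ↔ ξ ∈ h.del0.range := by
  constructor
  · intro h0
    obtain ⟨w, rfl⟩ := sh_surj 0 F₁ ξ
    obtain ⟨t, ht⟩ := (lb_sh0 F₂ (i.qm.app w)).1 h0
    have h1 : (piQ F₃).app (p.jm.app t) = 0 := by
      rw [← lb_pi_app, ht]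
      exact lb_pi h.qm w
    obtain ⟨s, hs⟩ := ((ses_can F₃).app_mid _).1 h1
    exact ⟨s, h.del0_eq hs.symm ht.symm⟩
  · rintro ⟨s, rfl⟩
    obtain ⟨t, w, h1, h2⟩ := h.del0_rep s
    rw [h.del0_eq h1 h2, lb_sh0_nat, lb_sh0]
    exact ⟨t, h2.symm⟩

/-- Exactness at the first term. -/
theorem SES.del_range (h : SES i p) (q : ℕ) (ξ : H (q + 1) F₁) :
    Hmap (q + 1) i ξ = 0 ↔ ξ ∈ (h.del q).range := by
  induction q generalizing F₁ F₂ F₃ with
  | zero => exact lb_range0 h ξ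
  | succ q ih =>
    refine (ih h.qm ξ).trans ⟨?_, ?_⟩
    · rintro ⟨ζ, hζ⟩
      exact ⟨sh q F₃ ζ, (h.del_sh q ζ).trans hζ⟩
    · rintro ⟨ζ, hζ⟩
      obtain ⟨ζ, rfl⟩ := sh_surj q F₃ ζ
      exact ⟨ζ, (h.del_sh q ζ).symm.trans hζ⟩

theorem lb_mid1 (h : SES i p) (ξ : H 1 F₂) : Hmap 1 p ξ = 0 ↔ ξ ∈ (Hmap 1 i).range := by
  constructor
  · intro h0
    obtain ⟨s, rfl⟩ : ∃ s : Z0 (Q F₂), sh 0 F₂ s = ξ := sh_surj 0 F₂ ξ
    obtain ⟨t₃, ht⟩ := (lb_sh0 F₃ (p.qm.app s)).1 h0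
    obtain ⟨t, rfl⟩ := h.surj.app_jm t₃
    have h1 : p.qm.app (s - (piQ F₂).app t) = 0 := by rw [map_sub, lb_pi_app, ht, sub_self]
    obtain ⟨w, hw⟩ := (h.qm.app_mid _).1 h1
    refine ⟨sh 0 F₁ w, ?_⟩
    have h2 : sh 0 F₂ ((piQ F₂).app t) = 0 := (lb_sh0 F₂ _).2 ⟨t, rfl⟩
    rw [lb_sh0_nat, hw]
    exact ((sh 0 F₂).map_sub s ((piQ F₂).app t)).trans (by rw [h2, sub_zero])
  · rintro ⟨ζ, rfl⟩
    obtain ⟨w, rfl⟩ : ∃ w : Z0 (Q F₁), sh 0 F₁ w = ζ := sh_surj 0 F₁ ζ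
    rw [lb_sh0_nat, lb_sh0_nat, lb_pi h.qm, lb_sh0]
    exact zero_mem _

theorem lb_mid (q : ℕ) (h : SES i p) (ξ : H (q + 1) F₂) :
    Hmap (q + 1) p ξ = 0 ↔ ξ ∈ (Hmap (q + 1) i).range := by
  induction q generalizing F₁ F₂ F₃ with
  | zero => exact lb_mid1 h ξ
  | succ q ih => exact ih h.qm ξ

/-- Exactness at the middle term. -/
theorem SES.mid (h : SES i p) (q : ℕ) (ξ : H q F₂) :
    Hmap q p ξ = 0 ↔ ξ ∈ (Hmap q i).range := by
  cases q with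
  | zero => exact h.app_mid ξ
  | succ q => exact lb_mid q h ξ

theorem lb_jm_sq {i : Hom F G} {i' : Hom F' G'} {m₁ : Mor g F F'} {m₂ : Mor g G G'}
    (h : ∀ x, ∀ u ∈ F.M (x.comp g), m₂.φ x (i.φ (x.comp g) u) = i'.φ x (m₁.φ x u)) :
    ∀ x, ∀ u ∈ (J F).M (x.comp g),
      m₂.jm.φ x (i.jm.φ (x.comp g) u) = i'.jm.φ x (m₁.jm.φ x u) := by
  intro x u hu
  obtain ⟨W, W', _, _, c, c', d, z, t, hc, hc', hd, ht, rfl, rfl⟩ := (god F).germ_ind g x hu
  have e : ∀ y : Pnt W', (y.comp c').comp g = (y.comp d).comp c := fun y => by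
    rw [RingHom.comp_assoc, ← hd, RingHom.comp_assoc]
  have ht' : ∀ y : Pnt W, t y ∈ F.M (y.comp c) := ht
  have ht2 : ∀ y : Pnt W', t (y.comp d) ∈ F.M ((y.comp c').comp g) := fun y => by
    rw [e]; exact ht' _
  have h1 := i.jm_germ (RingHom.id W) (z.comp d) hc hc rfl ht'
  have h2 := m₂.jm_germ d z (t := fun y => i.φ (y.comp c) (t y)) hc hc' hd
    fun y => i.mem _ _ (ht' y)
  have h3 := m₁.jm_germ d z hc hc' hd ht'
  have h4 := i'.jm_germ (RingHom.id W') z (t := fun y => m₁.φ (y.comp c') (t (y.comp d))) hc' hc'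
    rfl fun y => m₁.mem _ _ (ht2 y)
  rw [e z]
  refine (congrArg _ h1).trans (h2.trans (Eq.trans ?_ ((congrArg _ h3).trans h4).symm))
  refine congrArg _ (funext fun y => ?_)
  have h5 := h (y.comp c') _ (ht2 y)
  rw [e y] at h5
  exact h5

theorem lb_qm_sq {i : Hom F G} {i' : Hom F' G'} {m₁ : Mor g F F'} {m₂ : Mor g G G'}
    (h : ∀ x, ∀ u ∈ F.M (x.comp g), m₂.φ x (i.φ (x.comp g) u) = i'.φ x (m₁.φ x u)) :
    ∀ x, ∀ u ∈ (Q F).M (x.comp g),
      m₂.qm.φ x (i.qm.φ (x.comp g) u) = i'.qm.φ x (m₁.qm.φ x u) := by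
  intro x u hu
  obtain ⟨v, hv, rfl⟩ := (ses_can F).surj (x.comp g) u hu
  have h1 := i.qm_pi (x.comp g) hv
  have h2 := m₂.qm_pi x (i.jm.mem _ _ hv)
  have h3 := m₁.qm_pi x hv
  have h4 := i'.qm_pi x (m₁.jm.mem _ _ hv)
  refine (congrArg _ h1).trans (h2.trans (Eq.trans ?_ ((congrArg _ h3).trans h4).symm))
  exact congrArg _ (lb_jm_sq h x v hv)

theorem lb_app_sq {i : Hom F G} {i' : Hom F' G'} {m₁ : Mor g F F'} {m₂ : Mor g G G'}
    (h : ∀ x, ∀ u ∈ F.M (x.comp g), m₂.φ x (i.φ (x.comp g) u) = i'.φ x (m₁.φ x u)) (s : Z0 F) :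
    m₂.app (i.app s) = i'.app (m₁.app s) :=
  Subtype.ext (funext fun x => h x _ (F.mem s.2 (x.comp g)))

/-- Naturality of the connecting homomorphism. -/
theorem SES.del_nat (h : SES i p) (h' : SES i' p') (m₁ : Mor g F₁ G₁) (m₂ : Mor g F₂ G₂)
    (m₃ : Mor g F₃ G₃)
    (h₁ : ∀ x, ∀ u ∈ F₁.M (x.comp g), m₂.φ x (i.φ (x.comp g) u) = i'.φ x (m₁.φ x u))
    (h₂ : ∀ x, ∀ u ∈ F₂.M (x.comp g), m₃.φ x (p.φ (x.comp g) u) = p'.φ x (m₂.φ x u))
    (q : ℕ) (ξ : H q F₃) : Hmap (q + 1) m₁ (h.del q ξ) = h'.del q (Hmap q m₃ ξ) := by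
  induction q generalizing F₁ F₂ F₃ G₁ G₂ G₃ with
  | zero =>
    obtain ⟨t, w, e1, e2⟩ := h.del0_rep ξ
    have e3 : p'.jm.app (m₂.jm.app t) = (eta G₃).app (m₃.app ξ) := by
      rw [← lb_app_sq (lb_jm_sq h₂), e1, lb_eta_app]
    have e4 : i'.qm.app (m₁.qm.app w) = (piQ G₂).app (m₂.jm.app t) := by
      rw [← lb_app_sq (lb_qm_sq h₁), e2, lb_pi_app]
    exact (congrArg (Hmap 1 m₁) (h.del0_eq e1 e2)).trans
      ((lb_sh0_nat m₁ w).trans (h'.del0_eq e3 e4).symm)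
  | succ q ih =>
    obtain ⟨ζ, rfl⟩ := sh_surj q F₃ ξ
    rw [sh_nat, h.del_sh, h'.del_sh]
    exact ih h.qm h'.qm m₁.qm m₂.qm m₃.qm (lb_qm_sq h₁) (lb_qm_sq h₂) ζ

theorem del_can_surj (F : Sys R) (q : ℕ) : Function.Surjective ((ses_can F).del q) := fun ξ =>
  ((ses_can F).del_range q ξ).1 (H_J q F _)

theorem del_can_ker (F : Sys R) (q : ℕ) (ξ : H q (Q F)) :
    (ses_can F).del q ξ = 0 ↔ sh q F ξ = 0 := by
  rw [SES.del_ker, sh_ker]

/-- A map of a short exact sequence to the canonical one. -/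
theorem SES.sh_mem (h : SES i p) (m₁ : Mor g F₁ G') (m₂ : Mor g F₂ (J G'))
    (m₃ : Mor g F₃ (Q G'))
    (h₁ : ∀ x, ∀ u ∈ F₁.M (x.comp g), m₂.φ x (i.φ (x.comp g) u) = (eta G').φ x (m₁.φ x u))
    (h₂ : ∀ x, ∀ u ∈ F₂.M (x.comp g), m₃.φ x (p.φ (x.comp g) u) = (piQ G').φ x (m₂.φ x u))
    (q : ℕ) (ξ : H q F₃) : sh q G' (Hmap q m₃ ξ) ∈ (Hmap (q + 1) m₁).range := by
  obtain ⟨ζ, hζ⟩ := del_can_surj F₁ q (h.del q ξ)
  have e1 := h.del_nat (ses_can G') m₁ m₂ m₃ h₁ h₂ q ξ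
  have e2 := (ses_can F₁).del_nat (ses_can G') m₁ m₁.jm m₁.qm (fun x u hu => m₁.jm_eta x hu)
    (fun x u hu => m₁.qm_pi x hu) q ζ
  have e3 : (ses_can G').del q (Hmap q m₁.qm ζ - Hmap q m₃ ξ) = 0 := by
    rw [map_sub, ← e1, ← e2, hζ, sub_self]
  rw [del_can_ker, map_sub, sub_eq_zero] at e3
  exact ⟨sh q F₁ ζ, (sh_nat q m₁ ζ).trans e3⟩

theorem SES.surj_of (h : SES i p) (q : ℕ) (h0 : ∀ ξ : H (q + 1) F₁, ξ = 0) :
    Function.Surjective (Hmap q p) := fun ξ => (h.del_ker q ξ).1 (h0 _)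

theorem SES.mid_zero (h : SES i p) (q : ℕ) (h1 : ∀ ξ : H q F₁, ξ = 0) (h3 : ∀ ξ : H q F₃, ξ = 0)
    (ξ : H q F₂) : ξ = 0 := by
  obtain ⟨ζ, rfl⟩ := (h.mid q ξ).1 (h3 _)
  rw [h1 ζ, map_zero]

theorem SES.right_zero (h : SES i p) (q : ℕ) (h2 : ∀ ξ : H q F₂, ξ = 0)
    (h1 : ∀ ξ : H (q + 1) F₁, ξ = 0) (ξ : H q F₃) : ξ = 0 := by
  obtain ⟨ζ, rfl⟩ := h.surj_of q h1 ξ
  rw [h2 ζ, map_zero]

theorem SES.left_zero (h : SES i p) (q : ℕ) (h3 : Function.Surjective (Hmap q p))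
    (h2 : ∀ ξ : H (q + 1) F₂, ξ = 0) (ξ : H (q + 1) F₁) : ξ = 0 := by
  obtain ⟨ζ, rfl⟩ := (h.del_range q ξ).1 (h2 _)
  exact (h.del_ker q ζ).2 (h3 ζ)

/-- A retract of its Godement system has no higher cohomology. -/
theorem H_retract (ρ : Hom (J F) F) (h : ∀ x, ∀ u ∈ F.M x, ρ.φ x ((eta F).φ x u) = u) (q : ℕ)
    (ξ : H (q + 1) F) : ξ = 0 := by
  rw [← Hmap_id (q + 1) ((eta F).comp ρ) rfl h ξ, ← Hmap_comp, H_J q F (Hmap _ _ ξ), map_zero]

theorem H_of_stalk_zero (h : ∀ x, ∀ u ∈ F.M x, u = 0) (q : ℕ) (ξ : H q F) : ξ = 0 := by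
  rw [← Hmap_id q (F.mul 1) rfl (fun _ u _ => one_zsmul u) ξ]
  exact Hmap_zero q _ (fun x u hu => (one_zsmul u).trans (h x u hu)) ξ

theorem lc_fac (q : ℕ) (m : Mor g F F') (ξ : H q F) :
    Hmap q m.toHom (Hmap q (F.can g) ξ) = Hmap q m ξ :=
  Hmap_comp_of q _ _ _ rfl (fun _ _ _ => rfl) ξ

/-- Classes of positive degree die locally. -/
theorem H_loc (q : ℕ) (F : Sys R) (ξ : H (q + 1) F) (x : Pnt R) :
    ∃ (W : Type) (_ : CommRing W) (c : R →+* W) (y : Pnt W), c.Etale ∧ y.comp c = x ∧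
      Hmap (q + 1) (F.can c) ξ = 0 := by
  induction q generalizing F with
  | zero =>
    obtain ⟨w, rfl⟩ := sh_surj 0 F ξ
    obtain ⟨W, _, b, z, t, hb, hz, ht, h⟩ := (piQ F).lift_loc (a := RingHom.id R) w.2 x
      (Mor.mem_im.2 ((ses_can F).surj x _ ((Q F).mem w.2 x)))
    refine ⟨W, _, b, z, hb, hz, ?_⟩
    rw [sh_nat, sh_ker]
    refine ⟨⟨fun z' => (F.can b).jm.φ z' (t z'), (F.can b).jm.sec (a := RingHom.id W) ht⟩,
      Subtype.ext (funext fun z' => ?_)⟩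
    exact ((F.can b).qm_pi z' ((J F).mem ht z')).symm.trans
      (congrArg ((F.can b).qm.φ z') (h z'))
  | succ q ih =>
    obtain ⟨W, _, c, y, hc, hy, h⟩ := ih (Q F) ξ
    refine ⟨W, _, c, y, hc, hy, ?_⟩
    exact (lc_fac (q + 1) (F.can c).qm ξ).symm.trans
      ((congrArg (Hmap (q + 1) (F.can c).qm.toHom) h).trans (map_zero _))

section pi

variable {ι : Type} [Finite ι] {U : ι → Type} [∀ i, CommRing (U i)] {b : ∀ i, R →+* U i}

theorem lc_single (hb : Function.Bijective (RingHom.pi b)) (i : ι) (u : U i) :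
    ∃ r, b i r = u ∧ ∀ j, j ≠ i → b j r = 0 := by
  classical
  obtain ⟨r, hr⟩ := hb.2 (Pi.single i u)
  exact ⟨r, (congrFun hr i).trans (Pi.single_eq_same i u),
    fun j hj => (congrFun hr j).trans (Pi.single_eq_of_ne hj u)⟩

theorem lc_et (hb : Function.Bijective (RingHom.pi b)) (i : ι) : (b i).Etale := by
  obtain ⟨e, h1, h2⟩ := lc_single hb i 1
  have key : ∀ x y : R, b i x = b i y ↔ e * x = e * y := by
    intro x y
    refine ⟨fun h => hb.1 (funext fun j => ?_), fun h => ?_⟩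
    · change b j (e * x) = b j (e * y)
      by_cases hj : j = i
      · subst hj
        rw [map_mul, map_mul, h]
      · rw [map_mul, map_mul, h2 j hj, zero_mul, zero_mul]
    · have := congrArg (b i) h
      rwa [map_mul, map_mul, h1, one_mul, one_mul] at this
  have he : IsIdempotentElem e := ((key e 1).1 (by rw [h1, map_one])).trans (mul_one e)
  letI := (b i).toAlgebra
  have : IsLocalization.Away e (U i) := IsLocalization.away_of_isIdempotentElem_of_mul he key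
    fun u => (lc_single hb i u).imp fun _ h => h.1
  exact Algebra.Etale.of_isLocalizationAway e

theorem lc_pnt (hb : Function.Bijective (RingHom.pi b)) (x : Pnt R) :
    ∃ (i : ι) (w : Pnt (U i)), w.comp (b i) = x := by
  let e := RingEquiv.ofBijective _ hb
  obtain ⟨i, w, h⟩ := pnt_pi (x.comp e.symm.toRingHom)
  refine ⟨i, w, RingHom.ext fun r => ?_⟩
  exact (RingHom.congr_fun h (e r)).symm.trans (congrArg x (e.symm_apply_apply r))

theorem lc_uniq (hb : Function.Bijective (RingHom.pi b)) {A : Type} (t : ∀ i, Pnt (U i) → A)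
    {i j : ι} {w : Pnt (U i)} {w' : Pnt (U j)} (h : w.comp (b i) = w'.comp (b j)) :
    t i w = t j w' := by
  obtain rfl : j = i := by
    by_contra hj
    obtain ⟨e, h1, h2⟩ := lc_single hb i 1
    have h3 : w (b i e) = w' (b j e) := RingHom.congr_fun h e
    rw [h1, h2 j hj, map_one, map_zero] at h3
    exact one_ne_zero h3
  obtain rfl : w = w' := RingHom.ext fun u => by
    obtain ⟨r, rfl, -⟩ := lc_single hb j u
    exact RingHom.congr_fun h r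
  rfl

theorem lc_pi (hb : Function.Bijective (RingHom.pi b)) (q : ℕ) (F : Sys R) :
    (∀ ξ : H q F, (∀ i, Hmap q (F.can (b i)) ξ = 0) → ξ = 0) ∧
      ∀ η : ∀ i, H q (F.pb (b i)), ∃ ξ : H q F, ∀ i, Hmap q (F.can (b i)) ξ = η i := by
  induction q generalizing F with
  | zero =>
    refine ⟨fun ξ h => Subtype.ext (funext fun x => ?_), fun η => ?_⟩
    · obtain ⟨i, w, rfl⟩ := lc_pnt hb x
      exact congrFun (congrArg Subtype.val (h i)) w
    · choose k w hw using lc_pnt hb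
      have h : ∀ (i : ι) (v : Pnt (U i)),
          (η (k (v.comp (b i)))).1 (w (v.comp (b i))) = (η i).1 v :=
        fun i v => lc_uniq hb (A := F.A) (fun i => (η i).1) (hw _)
      refine ⟨⟨fun x => (η (k x)).1 (w x), F.loc fun x =>
        ⟨U (k x), _, b (k x), w x, lc_et hb _, hw x, ?_⟩⟩, fun i => Subtype.ext (funext (h i))⟩
      have h2 : rs (b (k x)) (fun x => (η (k x)).1 (w x) : Pnt R → F.A) = (η (k x)).1 :=
        funext (h (k x))
      rw [h2]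
      exact (η (k x)).2
  | succ q ih =>
    have hq := fun i => Hmap_bij q (F.can (b i)).qm.toHom (qm_can_bij F (lc_et hb i)).1
      (qm_can_bij F (lc_et hb i)).2
    have hj := fun i => Hmap_bij q (F.can (b i)).jm.toHom (jm_can_bij F (lc_et hb i)).1
      (jm_can_bij F (lc_et hb i)).2
    refine ⟨fun ξ h => ?_, fun η => ?_⟩
    · obtain ⟨ζ, rfl⟩ := sh_surj q F ξ
      have h1 : ∀ i, ∃ τ : H q ((J F).pb (b i)), Hmap q (piQ (F.pb (b i)))
          (Hmap q (F.can (b i)).jm.toHom τ) = Hmap q (F.can (b i)).qm ζ := fun i => by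
        obtain ⟨τ, hτ⟩ := (sh_ker q _ _).1 ((sh_nat q (F.can (b i)) ζ).symm.trans (h i))
        obtain ⟨τ', rfl⟩ := (hj i).2 τ
        exact ⟨τ', hτ⟩
      choose τ hτ using h1
      obtain ⟨σ, hσ⟩ := (ih (J F)).2 τ
      refine (sh_ker q F ζ).2 ⟨σ, sub_eq_zero.1 ((ih (Q F)).1 _ fun i => (hq i).1 ?_)⟩
      rw [map_zero, lc_fac, map_sub, ← hτ i, ← hσ i, lc_fac, sub_eq_zero]
      exact Hmap_sq q (piQ F) (F.can (b i)).qm (F.can (b i)).jm (piQ (F.pb (b i))) rfl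
        (fun x u hu => (F.can (b i)).qm_pi x hu) σ
    · have h1 : ∀ i, ∃ ζ : H q ((Q F).pb (b i)),
          sh q _ (Hmap q (F.can (b i)).qm.toHom ζ) = η i := fun i => by
        obtain ⟨ζ, hζ⟩ := sh_surj q _ (η i)
        obtain ⟨ζ', rfl⟩ := (hq i).2 ζ
        exact ⟨ζ', hζ⟩
      choose ζ hζ using h1
      obtain ⟨σ, hσ⟩ := (ih (Q F)).2 ζ
      exact ⟨sh q F σ, fun i => by rw [sh_nat, ← hζ i, ← hσ i, lc_fac]⟩

end pi

/-- Over a good ring they die on a cover. -/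
theorem H_loc_cov (hR : Good R) (q : ℕ) (F : Sys R) (ξ : H (q + 1) F) :
    ∃ (W : Type) (_ : CommRing W) (c : R →+* W), Cov c ∧ Hmap (q + 1) (F.can c) ξ = 0 := by
  choose U _ c y hc hy h using H_loc q F ξ
  obtain ⟨s, hs⟩ := hR.fin_cover U c hc fun x => ⟨y x, hy x⟩
  refine ⟨_, _, _, hs, (lc_pi (b := fun x : s => Pi.evalRingHom (fun x : s => U x) x)
    Function.bijective_id (q + 1) _).1 _ fun x => ?_⟩
  exact (Hmap_comp_of (q + 1) _ _ (F.can (c x)) rfl (fun _ _ _ => rfl) ξ).trans (h x)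

/-- If every cover has a section, there is no higher cohomology. -/
theorem H_of_split (hR : Good R)
    (h : ∀ (W : Type) [CommRing W] (c : R →+* W), Cov c → ∃ s : W →+* R, s.comp c = RingHom.id R)
    (q : ℕ) (F : Sys R) (ξ : H (q + 1) F) : ξ = 0 := by
  obtain ⟨W, _, c, hc, h0⟩ := H_loc_cov hR q F ξ
  obtain ⟨s, hs⟩ := h W c hc
  let m : Mor s (F.pb c) F := F.rm (a' := RingHom.id R) s hs
  exact (Hmap_id (q + 1) ((F.can c).comp m) hs (fun _ _ _ => rfl) ξ).symm.trans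
    ((Hmap_comp (q + 1) (F.can c) m ξ).symm.trans
      ((congrArg (Hmap (q + 1) m) h0).trans (map_zero _)))

/-- Finite products of rings. -/
theorem H_pi {ι : Type} [Finite ι] {U : ι → Type} [∀ i, CommRing (U i)] (b : ∀ i, R →+* U i)
    (hb : Function.Bijective (RingHom.pi b)) (q : ℕ) (F : Sys R) :
    Function.Bijective fun (ξ : H q F) (i : ι) => Hmap q (F.can (b i)) ξ :=
  ⟨fun ξ ξ' h => sub_eq_zero.1 ((lc_pi hb q F).1 _ fun i => by
      rw [map_sub, sub_eq_zero]; exact congrFun h i),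
    fun η => ((lc_pi hb q F).2 η).imp fun _ h => funext h⟩

/-- The first inclusion. -/
def Sys.inl (F G : Sys R) : Hom F (F.prod G) where
  φ _ u := (u, 0)
  add _ u _ v _ := Prod.ext rfl (add_zero _).symm
  mem _ _ hu := ⟨hu, zero_mem _⟩
  sec hs := ⟨hs, zero_mem _⟩

/-- The second inclusion. -/
def Sys.inr (F G : Sys R) : Hom G (F.prod G) where
  φ _ u := (0, u)
  add _ u _ v _ := Prod.ext (add_zero _).symm rfl
  mem _ _ hu := ⟨zero_mem _, hu⟩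
  sec hs := ⟨zero_mem _, hs⟩

/-- The first projection. -/
def Sys.fst (F G : Sys R) : Hom (F.prod G) F where
  φ _ u := u.1
  add _ _ _ _ _ := rfl
  mem _ _ hu := hu.1
  sec hs := hs.1

/-- The second projection. -/
def Sys.snd (F G : Sys R) : Hom (F.prod G) G where
  φ _ u := u.2
  add _ _ _ _ _ := rfl
  mem _ _ hu := hu.2
  sec hs := hs.2

/-- The morphism out of a direct sum. -/
def Mor.cop (m : Mor g F F') (m' : Mor g G F') : Mor g (F.prod G) F' where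
  φ x u := m.φ x u.1 + m'.φ x u.2
  add x u hu v hv := by
    have h1 := m.add x _ hu.1 _ hv.1
    have h2 := m'.add x _ hu.2 _ hv.2
    change m.φ x (u.1 + v.1) + m'.φ x (u.2 + v.2) = _
    rw [h1, h2]; abel
  mem x u hu := add_mem (m.mem x _ hu.1) (m'.mem x _ hu.2)
  sec hs := add_mem (m.sec hs.1) (m'.sec hs.2)

theorem Hmap_cop (q : ℕ) (m : Mor g F F') (m' : Mor g G F') (ξ : H q (F.prod G)) :
    Hmap q (m.cop m') ξ =
      Hmap q m (Hmap q (F.fst G) ξ) + Hmap q m' (Hmap q (F.snd G) ξ) := by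
  rw [Hmap_comp, Hmap_comp, ← Hmap_plus]
  exact Hmap_congr q _ _ rfl (fun _ _ _ => rfl) ξ

end

end Pool.Agent.Lib.MP_16ef92_ag.RS
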