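import Mathlib
import Pool.Agent.Lib.MP_16ef92_ag.RS.Les

set_option autoImplicit false
set_option linter.unusedSectionVars false
set_option linter.unusedVariables false
set_option linter.style.haveILetI false

namespace Pool.Agent.Lib.MP_16ef92_ag.RS

noncomputable section

variable [Bg] {R R' V W W' : Type} [CommRing R] [CommRing R'] [CommRing V] [CommRing W]
  [CommRing W'] {g : R →+* R'} {F : Sys R} {F' : Sys R'} {b : R →+* W} {t t' : Pnt W → F.A}
  {ξ ξ' : H 1 F}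

/-- A function on the points of `W` whose coboundary is a section. -/
structure Coc (F : Sys R) (b : R →+* W) (t : Pnt W → F.A) : Prop where
  mem : ∀ y, t y ∈ F.M (y.comp b)
  sec : ∀ (V : Type) [CommRing V] (d e : W →+* V), d.comp b = e.comp b →
    rs d t - rs e t ∈ F.S (d.comp b)

theorem coc_of_ten (h1 : ∀ y, t y ∈ F.M (y.comp b))
    (h2 : rs (Ten.inl b b) t - rs (Ten.inr b b) t ∈ F.S ((Ten.inl b b).comp b)) : Coc F b t := by
  refine ⟨h1, fun V _ d e h => ?_⟩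
  have h3 := F.res' (Ten.lift d e h) (a' := d.comp b)
    (by rw [← RingHom.comp_assoc, Ten.lift_inl]) h2
  have e1 : rs (Ten.lift d e h) (rs (Ten.inl b b) t - rs (Ten.inr b b) t) = rs d t - rs e t := by
    funext z
    simp only [rs_apply, Pi.sub_apply, RingHom.comp_assoc, Ten.lift_inl, Ten.lift_inr]
  rwa [e1] at h3

/-- Every Cech cocycle on a cover comes from such a function. -/
theorem exists_coc (hb : Sur b) (c : Pnt W → Pnt W → F.A)
    (h1 : ∀ (V : Type) [CommRing V] (d e : W →+* V), d.comp b = e.comp b →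
      (fun z : Pnt V => c (z.comp d) (z.comp e)) ∈ F.S (d.comp b))
    (h2 : ∀ y₁ y₂ y₃ : Pnt W, y₁.comp b = y₂.comp b → y₂.comp b = y₃.comp b →
      c y₁ y₂ + c y₂ y₃ = c y₁ y₃) :
    ∃ t, Coc F b t ∧ ∀ y₁ y₂ : Pnt W, y₁.comp b = y₂.comp b → t y₁ - t y₂ = c y₁ y₂ := by
  choose σ hσ using hb
  have key : ∀ y₁ y₂ : Pnt W, y₁.comp b = y₂.comp b →
      c y₁ (σ (y₁.comp b)) - c y₂ (σ (y₂.comp b)) = c y₁ y₂ := fun y₁ y₂ h => by
    rw [h, ← h2 y₁ y₂ (σ (y₂.comp b)) h (hσ _).symm, add_sub_cancel_right]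
  refine ⟨fun y => c y (σ (y.comp b)), ⟨fun y => ?_, fun V _ d e h => ?_⟩, key⟩
  · exact F.mem (h1 OO y (σ (y.comp b)) (hσ _).symm) (RingHom.id OO)
  · have e1 : rs d (fun y => c y (σ (y.comp b))) - rs e (fun y => c y (σ (y.comp b))) =
        fun z : Pnt V => c (z.comp d) (z.comp e) :=
      funext fun z => key _ _ (by rw [RingHom.comp_assoc, h, RingHom.comp_assoc])
    rw [e1]
    exact h1 V d e h

/-- The class `ξ` is represented by `t`. -/
def IsCls (F : Sys R) (ξ : H 1 F) (b : R →+* W) (t : Pnt W → F.A) : Prop :=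
  (∀ y, t y ∈ F.M (y.comp b)) ∧ ∃ s : Z0 (Q F), sh 0 F s = ξ ∧
    ∀ y : Pnt W, s.1 (y.comp b) = (piQ F).φ (y.comp b) ((god F).germ b y t)

/-- The class of a germ of a discontinuous section. -/
def cls_k (F : Sys R) (b : R →+* W) (y : Pnt W) (t : Pnt W → F.A) : (Q F).A :=
  (piQ F).φ (y.comp b) ((god F).germ b y t)

theorem cls_germ_mem (hb : b.Etale) (ht : ∀ y, t y ∈ F.M (y.comp b)) (y : Pnt W) :
    (god F).germ b y t ∈ (J F).M (y.comp b) := (god F).gd.germ_mem y hb ht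

theorem cls_k_mem (hb : b.Etale) (ht : ∀ y, t y ∈ F.M (y.comp b)) (y : Pnt W) :
    cls_k F b y t ∈ (Q F).M (y.comp b) := (piQ F).mem _ _ (cls_germ_mem hb ht y)

theorem cls_k_sec (hb : b.Etale) (ht : ∀ y, t y ∈ F.M (y.comp b)) :
    (fun y => cls_k F b y t) ∈ (Q F).S b :=
  (piQ F).sec (a := b) (Pre.gs_germ (P := god F) hb ht)

theorem cls_k_add (hb : b.Etale) (ht : ∀ y, t y ∈ F.M (y.comp b))
    (ht' : ∀ y, t' y ∈ F.M (y.comp b)) (y : Pnt W) :
    cls_k F b y (t + t') = cls_k F b y t + cls_k F b y t' := by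
  have h : (god F).germ b y (t + t') = (god F).germ b y t + (god F).germ b y t' :=
    (god F).gd.germ_add y hb ht ht'
  rw [cls_k, h]
  exact (piQ F).add _ _ (cls_germ_mem hb ht y) _ (cls_germ_mem hb ht' y)

theorem cls_k_sub (hb : b.Etale) (ht : ∀ y, t y ∈ F.M (y.comp b))
    (ht' : ∀ y, t' y ∈ F.M (y.comp b)) (y : Pnt W) :
    cls_k F b y (t - t') = cls_k F b y t - cls_k F b y t' := by
  rw [eq_sub_iff_add_eq, ← cls_k_add (t := t - t') hb (fun y => sub_mem (ht y) (ht' y)) ht',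
    sub_add_cancel]

theorem cls_k_res (hb : b.Etale) {b' : R →+* W'} (hb' : b'.Etale) (d : W →+* W')
    (hd : d.comp b = b') (ht : ∀ y, t y ∈ F.M (y.comp b)) (z : Pnt W') :
    cls_k F b' z (rs d t) = cls_k F b (z.comp d) t := by
  subst hd
  have h : (god F).germ (d.comp b) z (rs d t) = (god F).germ b (z.comp d) t :=
    (god F).gd.germ_res d z hb hb' ht
  exact congrArg ((piQ F).φ (z.comp (d.comp b))) h

theorem cls_k_of_sec (hb : b.Etale) (ht : t ∈ F.S b) (y : Pnt W) : cls_k F b y t = 0 := by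
  rw [cls_k, ← eta_spec F hb y ht]
  exact (eta F).cmk_eq_zero.2 (Mor.mem_im.2 ⟨t y, F.mem ht y, rfl⟩)

theorem cls_sec_of_k (hb : b.Etale) (ht : ∀ y, t y ∈ F.M (y.comp b))
    (h : ∀ y, cls_k F b y t = 0) : t ∈ F.S b := by
  refine F.loc fun y => ?_
  obtain ⟨m, hm, e⟩ := Mor.mem_im.1 ((eta F).cmk_eq_zero.1 (h y))
  obtain ⟨W₀, _, c, y₀, s, hc, hy, hs, rfl⟩ := F.stalk _ m hm
  have hy' : y.comp b = y₀.comp c := hy.symm
  have e' : (god F).germ b y t = (god F).germ c y₀ s := by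
    rw [← e, ← eta_spec F hc y₀ hs, hy']
  obtain ⟨f, hf, hn⟩ := (Pre.germ_eq (P := god F) hb hc hy' ht (F.mem hs)).1 e'
  obtain ⟨z, hz⟩ := pnt_away _ hf
  refine ⟨Localization.Away f, _, (algebraMap _ _).comp (Ten.inl b c), z,
    et_comp (Ten.etale_inl b hc) (et_away f), ?_, ?_⟩
  · rw [← RingHom.comp_assoc, hz, Ten.lift_inl]
  · have e2 : rs ((algebraMap _ (Localization.Away f)).comp (Ten.inl b c)) t =
        rs ((algebraMap _ (Localization.Away f)).comp (Ten.inr b c)) s :=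
      funext fun z' => hn _ (pnt_away_ne z')
    rw [e2]
    exact F.res' _ (by rw [RingHom.comp_assoc, RingHom.comp_assoc, Ten.comm]) hs

theorem cls_k_base (hb : b.Etale) {u : Pnt R → F.A} (hu : ∀ x, u x ∈ F.M x) (y : Pnt W) :
    ((piQ F).app (jsec F u hu)).1 (y.comp b) = cls_k F b y (rs b u) :=
  (cls_k_res (b := RingHom.id R) et_id hb b rfl hu y).symm

theorem cls_k_map (hb : b.Etale) (ht : ∀ y, t y ∈ F.M (y.comp b)) (m : Mor g F F')
    {b' : R' →+* W'} (hb' : b'.Etale) (d : W →+* W') (hd : d.comp b = b'.comp g) (z : Pnt W') :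
    m.qm.φ (z.comp b') (cls_k F b (z.comp d) t) =
      cls_k F' b' z fun z => m.φ (z.comp b') (t (z.comp d)) := by
  have e : (z.comp d).comp b = (z.comp b').comp g := by
    rw [RingHom.comp_assoc, hd, RingHom.comp_assoc]
  rw [cls_k, cls_k, ← m.jm_germ d z hb hb' hd ht, e]
  exact m.qm_pi _ (e ▸ cls_germ_mem hb ht (z.comp d))

theorem cls_sh_pi (s : Z0 (J F)) : sh 0 F ((piQ F).app s) = 0 :=
  (QuotientAddGroup.eq_zero_iff _).2 ⟨s, rfl⟩

theorem cls_zero (hb : b.Etale) : IsCls F 0 b 0 :=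
  ⟨fun _ => zero_mem _, 0, map_zero _, fun y => (cls_k_of_sec hb (zero_mem _) y).symm⟩

theorem Coc.exists_cls (hb : Cov b) (h : Coc F b t) : ∃ ξ, IsCls F ξ b t := by
  choose σ hσ using hb.sur
  have key : ∀ y₁ y₂ : Pnt W, y₁.comp b = y₂.comp b → cls_k F b y₁ t = cls_k F b y₂ t := by
    intro y₁ y₂ e
    have h1 := et_comp hb.et (Ten.etale_inl b hb.et)
    have h2 := cls_k_of_sec h1 (h.sec _ _ _ (Ten.comm b b)) (Ten.lift y₁ y₂ e)
    rw [cls_k_sub (t := rs (Ten.inl b b) t) (t' := rs (Ten.inr b b) t) h1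
      (fun z => h.mem (z.comp (Ten.inl b b)))
      (fun z => by rw [Ten.comm]; exact h.mem (z.comp (Ten.inr b b))), cls_k_res hb.et h1 _ rfl h.mem,
      cls_k_res hb.et h1 _ (Ten.comm b b).symm h.mem, Ten.lift_inl, Ten.lift_inr] at h2
    exact sub_eq_zero.1 h2
  have hs : (fun x => cls_k F b (σ x) t) ∈ Z0 (Q F) := by
    refine (Q F).desc hb ?_
    have e : rs b (fun x => cls_k F b (σ x) t) = fun y => cls_k F b y t :=
      funext fun y => key _ _ (hσ _)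
    rw [e]
    exact cls_k_sec hb.et h.mem
  exact ⟨_, h.mem, ⟨_, hs⟩, rfl, fun y => key _ _ (hσ _)⟩

theorem IsCls.unique (hb : Sur b) (h : IsCls F ξ b t) (h' : IsCls F ξ' b t) : ξ = ξ' := by
  obtain ⟨-, s, rfl, hs⟩ := h
  obtain ⟨-, s', rfl, hs'⟩ := h'
  have e : s = s' := Subtype.ext (funext fun x => by
    obtain ⟨y, rfl⟩ := hb x
    rw [hs, hs'])
  rw [e]

theorem IsCls.coc (hb : b.Etale) (h : IsCls F ξ b t) : Coc F b t := by
  obtain ⟨ht, s, -, hs⟩ := h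
  have h1 := et_comp hb (Ten.etale_inl b hb)
  have h2 : ∀ z : Pnt (Ten b b), rs (Ten.inl b b) t z ∈ F.M (z.comp ((Ten.inl b b).comp b)) :=
    fun z => ht (z.comp (Ten.inl b b))
  have h3 : ∀ z : Pnt (Ten b b), rs (Ten.inr b b) t z ∈ F.M (z.comp ((Ten.inl b b).comp b)) :=
    fun z => by rw [Ten.comm]; exact ht (z.comp (Ten.inr b b))
  refine coc_of_ten ht (cls_sec_of_k h1 (fun z => sub_mem (h2 z) (h3 z)) fun z => ?_)
  rw [cls_k_sub h1 h2 h3, cls_k_res hb h1 _ rfl ht, cls_k_res hb h1 _ (Ten.comm b b).symm ht,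
    cls_k, cls_k, ← hs, ← hs, RingHom.comp_assoc, RingHom.comp_assoc, Ten.comm, sub_self]

/-- A class that dies on `W` is represented on `W`. -/
theorem exists_rep_of (hb : b.Etale) (ξ : H 1 F) (h : Hmap 1 (F.can b) ξ = 0) :
    ∃ t, IsCls F ξ b t := by
  obtain ⟨s, rfl⟩ := sh_surj 0 F ξ
  rw [sh_nat] at h
  obtain ⟨j, hj⟩ := (QuotientAddGroup.eq_zero_iff _).1 h
  obtain ⟨t, ht, rfl⟩ := jsec_surj j
  refine ⟨t, ht, s, rfl, fun y => ?_⟩
  have h1 : (F.can b).qm.φ y (cls_k F b y t) = (F.can b).qm.φ y (s.1 (y.comp b)) :=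
    (cls_k_map hb ht (F.can b) (b' := RingHom.id W) et_id (RingHom.id W) rfl y).trans
      (congrFun (congrArg Subtype.val hj) y)
  have h2 : s.1 (y.comp b) ∈ (Q F).M (y.comp b) := (Q F).mem s.2 (y.comp b)
  have h3 := cls_k_mem hb ht y
  refine sub_eq_zero.1 ((qm_can_bij F hb).1 y _ (sub_mem h2 h3) ?_)
  exact ((F.can b).qm.sub y h2 h3).trans (sub_eq_zero.2 h1.symm)

theorem exists_rep (hR : Good R) (ξ : H 1 F) : ∃ (W : Type) (_ : CommRing W) (b : R →+* W)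
    (t : Pnt W → F.A), Cov b ∧ IsCls F ξ b t := by
  obtain ⟨W, _, b, hb, h⟩ := H_loc_cov hR 0 F ξ
  obtain ⟨t, ht⟩ := exists_rep_of hb.et ξ h
  exact ⟨W, _, b, t, hb, ht⟩

theorem IsCls.add (hb : b.Etale) (h : IsCls F ξ b t) (h' : IsCls F ξ' b t') :
    IsCls F (ξ + ξ') b (t + t') := by
  obtain ⟨ht, s, rfl, hs⟩ := h
  obtain ⟨ht', s', rfl, hs'⟩ := h'
  refine ⟨fun y => add_mem (ht y) (ht' y), s + s', map_add (sh 0 F) s s', fun y => ?_⟩
  change s.1 (y.comp b) + s'.1 (y.comp b) = cls_k F b y (t + t')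
  rw [cls_k_add hb ht ht', hs, hs']
  rfl

theorem IsCls.neg (hb : b.Etale) (h : IsCls F ξ b t) : IsCls F (-ξ) b (-t) := by
  obtain ⟨ht, s, rfl, hs⟩ := h
  refine ⟨fun y => neg_mem (ht y), -s, map_neg (sh 0 F) s, fun y => ?_⟩
  change -s.1 (y.comp b) = cls_k F b y (-t)
  rw [← zero_sub t, cls_k_sub (t := 0) hb (fun _ => zero_mem _) ht, cls_k_of_sec hb (zero_mem _), zero_sub,
    hs]
  rfl

theorem IsCls.nsmul (hb : b.Etale) (h : IsCls F ξ b t) (k : ℕ) : IsCls F (k • ξ) b (k • t) := by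
  induction k with
  | zero => rw [zero_nsmul, zero_nsmul]; exact cls_zero hb
  | succ k ih => rw [succ_nsmul, succ_nsmul]; exact ih.add hb h

/-- Changing the representative by a section and a function on the base. -/
theorem IsCls.change (hb : b.Etale) (h : IsCls F ξ b t) (u : Pnt R → F.A) (hu : ∀ x, u x ∈ F.M x)
    (h' : t' - t - rs b u ∈ F.S b) : IsCls F ξ b t' := by
  obtain ⟨ht, s, rfl, hs⟩ := h
  have hu' : ∀ y : Pnt W, rs b u y ∈ F.M (y.comp b) := fun y => hu _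
  have ht' : ∀ y, t' y ∈ F.M (y.comp b) := fun y => by
    have h1 := add_mem (add_mem (F.mem h' y) (hu' y)) (ht y)
    rwa [Pi.sub_apply, Pi.sub_apply, sub_add_cancel, sub_add_cancel] at h1
  refine ⟨ht', s + (piQ F).app (jsec F u hu), ?_, fun y => ?_⟩
  · exact (map_add (sh 0 F) _ _).trans (by rw [cls_sh_pi, add_zero])
  · change s.1 (y.comp b) + ((piQ F).app (jsec F u hu)).1 (y.comp b) = cls_k F b y t'
    have h1 := cls_k_of_sec hb h' y
    rw [cls_k_sub (t := t' - t) hb (fun y => sub_mem (ht' y) (ht y)) hu', cls_k_sub hb ht' ht,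
      sub_sub, sub_eq_zero] at h1
    rw [h1, cls_k_base hb hu, hs]
    rfl

theorem IsCls.zero_iff (hb : Cov b) (h : IsCls F ξ b t) :
    ξ = 0 ↔ ∃ u : Pnt R → F.A, (∀ x, u x ∈ F.M x) ∧ t - rs b u ∈ F.S b := by
  constructor
  · intro h0
    obtain ⟨ht, s, rfl, hs⟩ := h
    obtain ⟨j, rfl⟩ := (QuotientAddGroup.eq_zero_iff _).1 h0
    obtain ⟨u, hu, rfl⟩ := jsec_surj j
    have hu' : ∀ y : Pnt W, rs b u y ∈ F.M (y.comp b) := fun y => hu _
    refine ⟨u, hu, cls_sec_of_k hb.et (fun y => sub_mem (ht y) (hu' y)) fun y => ?_⟩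
    rw [cls_k_sub hb.et ht hu', ← cls_k_base hb.et hu, hs]
    exact sub_self _
  · rintro ⟨u, hu, h'⟩
    exact h.unique hb.sur ((cls_zero hb.et).change hb.et u hu (by rwa [sub_zero]))

/-- Functoriality; with `m` the identity this is refinement. -/
theorem IsCls.map (hb : b.Etale) (h : IsCls F ξ b t) (m : Mor g F F') {b' : R' →+* W'}
    (hb' : b'.Etale) (d : W →+* W') (hd : d.comp b = b'.comp g) :
    IsCls F' (Hmap 1 m ξ) b' fun z => m.φ (z.comp b') (t (z.comp d)) := by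
  obtain ⟨ht, s, rfl, hs⟩ := h
  have e : ∀ z : Pnt W', (z.comp d).comp b = (z.comp b').comp g := fun z => by
    rw [RingHom.comp_assoc, hd, RingHom.comp_assoc]
  refine ⟨fun z => m.mem _ _ (e z ▸ ht (z.comp d)), m.qm.app s, (sh_nat 0 m s).symm, fun z => ?_⟩
  rw [Mor.app_val, ← e, hs]
  exact cls_k_map hb ht m hb' d hd z

theorem IsCls.refine (hb : b.Etale) (h : IsCls F ξ b t) {b' : R →+* W'} (hb' : b'.Etale)
    (d : W →+* W') (hd : d.comp b = b') : IsCls F ξ b' (rs d t) := by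
  have := h.map hb (F.mul 1) hb' d hd
  rw [Hmap_id 1 _ rfl (fun _ u _ => one_zsmul u)] at this
  exact (funext fun z => one_zsmul (t (z.comp d)) : (fun z : Pnt W' => _) = rs d t) ▸ this

/-- The connecting homomorphism in degree zero: `v` is a local lift of `s`, `u` a pointwise lift. -/
theorem SES.del_cls {F₁ F₂ F₃ : Sys R} {i : Hom F₁ F₂} {p : Hom F₂ F₃} (h : SES i p)
    (hb : b.Etale) (s : Z0 F₃) (v : Pnt W → F₂.A) (hv : v ∈ F₂.S b) (u : Pnt R → F₂.A)
    (hu : ∀ x, u x ∈ F₂.M x) (hs : ∀ x, p.φ x (u x) = s.1 x) (t : Pnt W → F₁.A)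
    (ht : ∀ y, t y ∈ F₁.M (y.comp b))
    (e : ∀ y : Pnt W, i.φ (y.comp b) (t y) = u (y.comp b) - v y) :
    IsCls F₁ (h.del 0 s) b t := by
  have h1 : p.jm.app (jsec F₂ u hu) = (eta F₃).app s := Subtype.ext (funext fun x => by
    have e1 := p.jm_germ (c := RingHom.id R) (c' := RingHom.id R) (RingHom.id R) x et_id et_id rfl hu
    have e2 := eta_spec F₃ (c := RingHom.id R) et_id x s.2
    have e3 : (fun z' : Pnt R => p.φ (z'.comp (RingHom.id R)) (u (z'.comp (RingHom.id R)))) = s.1 :=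
      funext hs
    rw [e3] at e1
    exact e1.trans e2.symm)
  have h2 : p.qm.app ((piQ F₂).app (jsec F₂ u hu)) = 0 := Subtype.ext (funext fun x => by
    have e1 := p.qm_pi x ((J F₂).mem (jsec F₂ u hu).2 x)
    have e2 : p.jm.φ x ((jsec F₂ u hu).1 x) = (eta F₃).φ x (s.1 x) :=
      congrFun (congrArg Subtype.val h1) x
    rw [e2] at e1
    exact e1.trans ((eta F₃).cmk_eq_zero.2 (Mor.mem_im.2 ⟨s.1 x, F₃.mem s.2 x, rfl⟩)))
  obtain ⟨w, hw⟩ := (h.qm.app_mid _).1 h2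
  refine ⟨ht, w, (h.del0_eq h1 hw).symm, fun y => ?_⟩
  have hu' : ∀ y : Pnt W, rs b u y ∈ F₂.M (y.comp b) := fun y => hu _
  have h3 : i.qm.φ (y.comp b) (cls_k F₁ b y t) = i.qm.φ (y.comp b) (w.1 (y.comp b)) := by
    have e1 := cls_k_map hb ht i hb (RingHom.id W) rfl y
    have e2 : (fun z : Pnt W => i.φ (z.comp b) (t (z.comp (RingHom.id W)))) = rs b u - v :=
      funext e
    rw [e2, cls_k_sub hb hu' (F₂.mem hv), cls_k_of_sec hb hv, sub_zero, ← cls_k_base hb hu,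
      ← hw] at e1
    exact e1
  have h4 : w.1 (y.comp b) ∈ (Q F₁).M (y.comp b) := (Q F₁).mem w.2 (y.comp b)
  have h5 := cls_k_mem hb ht y
  refine sub_eq_zero.1 (h.qm.inj (y.comp b) _ (sub_mem h4 h5) ?_)
  exact (i.qm.sub (y.comp b) h4 h5).trans (sub_eq_zero.2 h3.symm)

end

end Pool.Agent.Lib.MP_16ef92_ag.RS
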