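import Mathlib
import Pool.Agent.Lib.MP_16ef92_ag.RS.Cls

set_option autoImplicit false
set_option linter.unusedSectionVars false
set_option linter.unusedVariables false
set_option linter.style.haveILetI false

namespace Pool.Agent.Lib.MP_16ef92_ag.RS

noncomputable section

variable [Bg] {R R' V W : Type} [CommRing R] [CommRing R'] [CommRing V] [CommRing W]
  {g : R →+* R'} {F : Sys R} {F' : Sys R'} {n : ℕ} [NeZero n]

/-- `ρ` is multiplication by the section `γ`. -/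
def IsRho (n : ℕ) (F : Sys R) (γ : Z0 (Q (cst R (ZMod n)))) (ρ : Hom F (Q F)) : Prop :=
  ∀ (W : Type) [CommRing W] (c : R →+* W) (y : Pnt W) (σ : Pnt W → ZMod n) (s : Pnt W → F.A),
    c.Etale → s ∈ F.S c →
    γ.1 (y.comp c) = (piQ (cst R (ZMod n))).φ (y.comp c) ((god (cst R (ZMod n))).germ c y σ) →
    ρ.φ (y.comp c) (s y) = (piQ F).φ (y.comp c) ((god F).germ c y fun y' => (σ y').val • s y')

/-- The image in the Godement quotient of the germ of a function. -/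
def cupP (F : Sys R) (c : R →+* W) (y : Pnt W) (t : Pnt W → F.A) : (Q F).A :=
  (piQ F).φ (y.comp c) ((god F).germ c y t)

theorem cupP_res {c : R →+* W} (hc : c.Etale) {c' : R →+* V} (hc' : c'.Etale) (d : W →+* V)
    (h : d.comp c = c') (z : Pnt V) {t : Pnt W → F.A} (ht : ∀ y, t y ∈ F.M (y.comp c)) :
    cupP F c' z (rs d t) = cupP F c (z.comp d) t := by
  subst h
  exact congrArg ((piQ F).φ _) ((god F).gd.germ_res d z hc hc' ht)

theorem cupP_add {c : R →+* W} (hc : c.Etale) (y : Pnt W) {s t : Pnt W → F.A}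
    (hs : ∀ y, s y ∈ F.M (y.comp c)) (ht : ∀ y, t y ∈ F.M (y.comp c)) :
    cupP F c y (s + t) = cupP F c y s + cupP F c y t := by
  have h := (god F).gd.germ_add y hc hs ht
  exact (congrArg ((piQ F).φ _) h).trans (map_add ((eta F).cmk (y.comp c)) _ _)

theorem cupP_sec {c : R →+* W} (hc : c.Etale) {t : Pnt W → F.A}
    (ht : ∀ y, t y ∈ F.M (y.comp c)) : (fun y => cupP F c y t) ∈ (Q F).S c :=
  (piQ F).sec (a := c) (Pre.gs_germ (P := god F) hc ht)

theorem cup_germ_eq {c : R →+* W} (hc : c.Etale) (y : Pnt W) {s t : Pnt W → F.A}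
    (hs : ∀ y, s y ∈ F.M (y.comp c)) (ht : ∀ y, t y ∈ F.M (y.comp c)) :
    (god F).germ c y s = (god F).germ c y t ↔ Nr y fun y' => s y' = t y' := by
  have h0 : s - t ∈ (god F).S c := fun y => sub_mem (hs y) (ht y)
  have h1 : (god F).germ c y s = (god F).gd.germ c y (s - t) + (god F).germ c y t :=
    (congrArg _ (sub_add_cancel s t).symm).trans ((god F).gd.germ_add y hc h0 ht)
  rw [h1, add_eq_right, (god F).gd.germ_zero y hc h0]
  exact ⟨fun h => h.mono fun _ e => sub_eq_zero.1 e, fun h => h.mono fun _ e => sub_eq_zero.2 e⟩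

theorem cupP_eq {c : R →+* W} (hc : c.Etale) (y : Pnt W) {s t r : Pnt W → F.A}
    (hs : ∀ y, s y ∈ F.M (y.comp c)) (ht : ∀ y, t y ∈ F.M (y.comp c)) (hr : r ∈ F.S c)
    (h : Nr y fun y' => s y' = t y' + r y') : cupP F c y s = cupP F c y t := by
  have h1 : cupP F c y s = cupP F c y (t + r) := congrArg ((piQ F).φ _)
    ((cup_germ_eq hc y hs fun y => add_mem (ht y) (F.mem hr y)).2 h)
  have h2 : cupP F c y r = 0 := (eta F).cmk_eq_zero.2
    (Mor.mem_im.2 ⟨r y, F.mem hr y, eta_spec F hc y hr⟩)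
  rw [h1, cupP_add hc y ht (F.mem hr), h2, add_zero]

theorem cupP_cst {M : Type} [AddCommGroup M] {c : R →+* W} (hc : c.Etale) (y : Pnt W)
    {σ τ : Pnt W → M} (h : cupP (cst R M) c y σ = cupP (cst R M) c y τ) :
    ∃ k : M, Nr y fun y' => σ y' = τ y' + k := by
  have h1 : cupP (cst R M) c y σ = cupP (cst R M) c y (σ - τ) + cupP (cst R M) c y τ :=
    (congrArg _ (sub_add_cancel σ τ).symm).trans
      (cupP_add (F := cst R M) hc y (fun _ => trivial) fun _ => trivial)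
  rw [h, right_eq_add] at h1
  obtain ⟨k, -, hk⟩ := Mor.mem_im.1 ((eta (cst R M)).cmk_eq_zero.1 h1)
  have h2 := eta_spec (cst R M) hc y (t := fun _ => k) fun _ => .of_forall fun _ => rfl
  refine ⟨k, ((cup_germ_eq (F := cst R M) hc y (fun _ => trivial) fun _ => trivial).1
    (hk.symm.trans h2)).mono fun y' e => ?_⟩
  exact sub_eq_iff_eq_add'.1 e

theorem cup_val_add {A : Type} [AddCommGroup A] {u : A} (h : n • u = 0) (a b : ZMod n) :
    (a + b).val • u = a.val • u + b.val • u := by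
  rw [ZMod.val_add, ← nsmul_eq_mod_nsmul _ h, add_nsmul]

theorem cup_mem {c : R →+* W} (σ : Pnt W → ZMod n) {s : Pnt W → F.A} (hs : s ∈ F.S c) (y : Pnt W) :
    (σ y).val • s y ∈ F.M (y.comp c) := nsmul_mem (F.mem hs y) _

/-- Independence of the representatives. -/
theorem cupP_indep (h : F.Tor n) {c : R →+* W} (hc : c.Etale) (y : Pnt W) {σ τ : Pnt W → ZMod n}
    {s t : Pnt W → F.A} (hs : s ∈ F.S c) (ht : t ∈ F.S c) (e : s y = t y)
    (e' : cupP (cst R (ZMod n)) c y σ = cupP (cst R (ZMod n)) c y τ) :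
    cupP F c y (fun y' => (σ y').val • s y') = cupP F c y fun y' => (τ y').val • t y' := by
  obtain ⟨k, hk⟩ := cupP_cst hc y e'
  refine cupP_eq hc y (cup_mem σ hs) (cup_mem τ ht) (nsmul_mem ht k.val)
    ((hk.and (F.sep' hs ht e)).mono fun y' hy => ?_)
  rw [hy.1, hy.2, cup_val_add (h _ _ (F.mem ht y'))]
  rfl

/-- Local representation of the sections of the quotient. -/
theorem cup_loc (γ : Z0 (Q F)) {c : R →+* W} (hc : c.Etale) (y : Pnt W) :
    ∃ (V : Type) (_ : CommRing V) (b : W →+* V) (z : Pnt V) (σ : Pnt V → F.A), b.Etale ∧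
      z.comp b = y ∧ (∀ z', σ z' ∈ F.M (z'.comp (b.comp c))) ∧
      ∀ z', γ.1 (z'.comp (b.comp c)) = cupP F (b.comp c) z' σ := by
  obtain ⟨V, _, b, z, t, hb, hz, ht, e⟩ := (Q F).res c γ.2 y
  obtain ⟨h1, h2⟩ := (god_shf F).sec (c := b.comp c) (et_comp hc hb) ht
  exact ⟨V, _, b, z, _, hb, hz, h1, fun z' => (e z').trans (congrArg ((piQ F).φ _) (h2 z'))⟩

theorem cup_chart (γ : Z0 (Q (cst R (ZMod n)))) (x : Pnt R) {u v : F.A} (hu : u ∈ F.M x)
    (hv : v ∈ F.M x) : ∃ (W : Type) (_ : CommRing W) (c : R →+* W) (y : Pnt W)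
      (σ : Pnt W → ZMod n) (s t : Pnt W → F.A), c.Etale ∧ y.comp c = x ∧ s ∈ F.S c ∧ t ∈ F.S c ∧
      s y = u ∧ t y = v ∧ γ.1 (y.comp c) = cupP (cst R (ZMod n)) c y σ := by
  obtain ⟨W, _, c, y, s, hc, rfl, hs, rfl⟩ := F.stalk x u hu
  obtain ⟨W', _, c', y', t, hc', rfl, ht, rfl⟩ := (F.pb c).stalk y v hv
  obtain ⟨V, _, b, z, σ, hb, rfl, -, e⟩ := cup_loc γ (et_comp hc hc') y'
  exact ⟨V, _, b.comp (c'.comp c), z, σ, rs b (rs c' s), rs b t, et_comp (et_comp hc hc') hb, rfl,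
    F.res b (F.res c' hs), F.res b ht, rfl, rfl, e z⟩

theorem cup_isRho (h : F.Tor n) {γ : Z0 (Q (cst R (ZMod n)))} {φ : Pnt R → F.A → (Q F).A}
    (H : ∀ (W : Type) [CommRing W] (c : R →+* W) (y : Pnt W) (s : Pnt W → F.A), c.Etale →
      s ∈ F.S c → ∃ (V : Type) (_ : CommRing V) (c' : R →+* V) (z : Pnt V) (σ : Pnt V → ZMod n)
        (t : Pnt V → F.A), c'.Etale ∧ z.comp c' = y.comp c ∧ t ∈ F.S c' ∧ t z = s y ∧
        γ.1 (y.comp c) = cupP (cst R (ZMod n)) c' z σ ∧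
        φ (y.comp c) (s y) = cupP F c' z fun z' => (σ z').val • t z')
    (W : Type) [CommRing W] (c : R →+* W) (y : Pnt W) (σ : Pnt W → ZMod n) (s : Pnt W → F.A)
    (hc : c.Etale) (hs : s ∈ F.S c) (e : γ.1 (y.comp c) = cupP (cst R (ZMod n)) c y σ) :
    φ (y.comp c) (s y) = cupP F c y fun y' => (σ y').val • s y' := by
  obtain ⟨V, _, c', z, τ, t, hc', hz, ht, e1, e2, e3⟩ := H W c y s hc hs
  have ha : ((Ten.inl c c').comp c).Etale := et_comp hc (Ten.etale_inl c hc')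
  have k1 := Ten.lift_inl y z hz.symm
  have k2 := Ten.lift_inr y z hz.symm
  have k3 := (Ten.comm c c').symm
  have p1 := cupP_res (F := cst R (ZMod n)) hc ha _ rfl (Ten.lift y z hz.symm) (t := σ)
    fun _ => trivial
  have p2 := cupP_res (F := cst R (ZMod n)) hc' ha _ k3 (Ten.lift y z hz.symm) (t := τ)
    fun _ => trivial
  have p3 := cupP_res hc ha _ rfl (Ten.lift y z hz.symm) (cup_mem σ hs)
  have p4 := cupP_res hc' ha _ k3 (Ten.lift y z hz.symm) (cup_mem τ ht)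
  rw [k1] at p1 p3
  rw [k2] at p2 p4
  rw [e3, ← p3, ← p4]
  refine cupP_indep h ha _ (F.res' _ k3 ht) (F.res' _ rfl hs) ?_ ?_
  · exact (congrArg t k2).trans (e1.trans (congrArg s k1).symm)
  · exact p2.trans (e2.symm.trans (e.trans p1.symm))

theorem exists_rho (h : F.Tor n) (γ : Z0 (Q (cst R (ZMod n)))) : ∃ ρ, IsRho n F γ ρ := by
  have h0 : ∀ (x : Pnt R) (u : F.A), ∃ w : (Q F).A, u ∈ F.M x →
      ∃ (V : Type) (_ : CommRing V) (c' : R →+* V) (z : Pnt V) (σ : Pnt V → ZMod n)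
        (t : Pnt V → F.A), c'.Etale ∧ z.comp c' = x ∧ t ∈ F.S c' ∧ t z = u ∧
        γ.1 x = cupP (cst R (ZMod n)) c' z σ ∧ w = cupP F c' z fun z' => (σ z').val • t z' := by
    intro x u
    by_cases hu : u ∈ F.M x
    · obtain ⟨W, _, c, y, σ, s, -, hc, rfl, hs, -, rfl, -, e⟩ := cup_chart γ x hu hu
      exact ⟨_, fun _ => ⟨W, _, c, y, σ, s, hc, rfl, hs, rfl, e, rfl⟩⟩
    · exact ⟨0, fun h => absurd h hu⟩
  choose φ hφ using h0
  have key := cup_isRho h (γ := γ) (φ := φ) fun W _ c y s _ hs => hφ _ _ (F.mem hs y)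
  refine ⟨⟨φ, fun x u hu v hv => ?_, fun x u hu => ?_, fun hs => sec_of_et φ ?_ hs⟩, key⟩
  · obtain ⟨W, _, c, y, σ, s, t, hc, rfl, hs, ht, rfl, rfl, e⟩ := cup_chart γ x hu hv
    rw [key W c y σ s hc hs e, key W c y σ t hc ht e, ← cupP_add hc y (cup_mem σ hs) (cup_mem σ ht)]
    refine (key W c y σ (s + t) hc (add_mem hs ht) e).trans (congrArg _ (funext fun y' => ?_))
    exact nsmul_add _ _ _
  · obtain ⟨W, _, c, y, σ, s, hc, rfl, hs, rfl, -, e⟩ := hφ x u hu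
    rw [e]
    exact (Q F).mem (cupP_sec hc (cup_mem σ hs)) y
  · intro W _ c t hc ht V _ a d hd
    obtain rfl : d.comp c = a := hd
    refine (Q F).res d (s := fun y => φ (y.comp c) (t y)) ((Q F).loc fun y => ?_)
    obtain ⟨V', _, b, z, σ, hb, hz, -, e⟩ := cup_loc γ hc y
    refine ⟨V', _, b, z, hb, hz, ?_⟩
    have hbc := et_comp hc hb
    have : rs b (fun y => φ (y.comp c) (t y)) = _ :=
      funext fun z' => key V' (b.comp c) z' σ (rs b t) hbc (F.res b ht) (e z')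
    rw [this]
    exact cupP_sec hbc (cup_mem σ (F.res b ht))

/-- The cup product with a class of degree one. -/
def cup (h : F.Tor n) (c : H 1 (cst R (ZMod n))) (q : ℕ) : H q F →+ H (q + 1) F :=
  (sh q F).comp (Hmap q (exists_rho h (sh_surj 0 _ c).choose).choose)

theorem cup_unique {γ : Z0 (Q (cst R (ZMod n)))} {ρ ρ' : Hom F (Q F)} (hρ : IsRho n F γ ρ)
    (hρ' : IsRho n F γ ρ') (q : ℕ) (ξ : H q F) : Hmap q ρ ξ = Hmap q ρ' ξ := by
  refine Hmap_congr q _ _ rfl (fun x u hu => ?_) ξ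
  obtain ⟨W, _, c, y, σ, s, -, hc, rfl, hs, -, rfl, -, e⟩ := cup_chart γ x hu hu
  exact (hρ W c y σ s hc hs e).trans (hρ' W c y σ s hc hs e).symm

theorem cup_plus (h : F.Tor n) {γ γ' : Z0 (Q (cst R (ZMod n)))} {ρ ρ' : Hom F (Q F)}
    (hρ : IsRho n F γ ρ) (hρ' : IsRho n F γ' ρ') : IsRho n F (γ + γ') (ρ.plus ρ') := by
  refine cup_isRho h (φ := (ρ.plus ρ').φ) fun W _ c y s hc hs => ?_
  obtain ⟨V, _, b, z, σ, hb, rfl, -, e⟩ := cup_loc γ hc y
  have h1 := et_comp hc hb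
  obtain ⟨V', _, b', z', τ, hb', rfl, -, e'⟩ := cup_loc γ' h1 z
  have h2 := et_comp h1 hb'
  have h3 := F.res b' (F.res b hs)
  have e1 := (e (z'.comp b')).trans
    (cupP_res (F := cst R (ZMod n)) h1 h2 b' rfl z' (t := σ) fun _ => trivial).symm
  refine ⟨V', _, b'.comp (b.comp c), z', rs b' σ + τ, rs b' (rs b s), h2, rfl, h3, rfl, ?_, ?_⟩
  · exact (congrArg₂ (· + ·) e1 (e' z')).trans
      (cupP_add (F := cst R (ZMod n)) h2 z' (fun _ => trivial) fun _ => trivial).symm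
  · refine (congrArg₂ (· + ·) (hρ V' _ z' _ _ h2 h3 e1) (hρ' V' _ z' _ _ h2 h3 (e' z'))).trans ?_
    refine (cupP_add h2 z' (cup_mem _ h3) (cup_mem _ h3)).symm.trans (congrArg _ ?_)
    exact funext fun w => (cup_val_add (h _ _ (F.mem h3 w)) _ _).symm

theorem cup_triv (h : F.Tor n) (j : Z0 (J (cst R (ZMod n)))) :
    ∃ m : Hom F (J F), IsRho n F ((piQ _).app j) (m.comp (piQ F)) := by
  obtain ⟨t, ht, rfl⟩ := jsec_surj j
  let m : PMor (RingHom.id R) F.pre (god F) :=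
    ⟨fun x u => ZMod.val (n := n) (t x) • u, fun _ _ _ _ _ => nsmul_add _ _ _,
      fun hs y => nsmul_mem (F.mem hs y) _⟩
  refine ⟨m.toGerm, cup_isRho h (φ := (Mor.comp m.toGerm (piQ F)).φ) fun W _ c y s hc hs => ?_⟩
  refine ⟨W, _, c, y, rs c t, s, hc, rfl, hs, rfl, ?_, ?_⟩
  · exact (cupP_res (F := cst R (ZMod n)) et_id hc c rfl y ht).symm
  · exact congrArg ((piQ F).φ _) (m.toGerm_spec y hc hs)

theorem cup_eq (h : F.Tor n) {c : H 1 (cst R (ZMod n))} {γ : Z0 (Q (cst R (ZMod n)))}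
    {ρ : Hom F (Q F)} (hc : sh 0 _ γ = c) (hρ : IsRho n F γ ρ) (q : ℕ) (ξ : H q F) :
    cup h c q ξ = sh q F (Hmap q ρ ξ) := by
  have h1 := (sh_surj 0 _ c).choose_spec
  have h2 := (exists_rho h (sh_surj 0 _ c).choose).choose_spec
  change sh q F (Hmap q (exists_rho h (sh_surj 0 _ c).choose).choose ξ) = _
  generalize (exists_rho h (sh_surj 0 _ c).choose).choose = ρ' at h2 ⊢
  generalize (sh_surj 0 _ c).choose = γ' at h1 h2
  obtain ⟨j, hj⟩ := QuotientAddGroup.eq.1 (hc.trans h1.symm)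
  obtain ⟨m, hm⟩ := cup_triv h j
  obtain rfl : γ + (piQ _).app j = γ' := add_eq_of_eq_neg_add hj
  rw [cup_unique h2 (cup_plus h hρ hm), Hmap_plus, map_add,
    (sh_ker q F _).2 ⟨_, Hmap_comp q m (piQ F) ξ⟩, add_zero]

theorem cup_add (h : F.Tor n) (c c' : H 1 (cst R (ZMod n))) (q : ℕ) (ξ : H q F) :
    cup h (c + c') q ξ = cup h c q ξ + cup h c' q ξ := by
  obtain ⟨γ, rfl⟩ := sh_surj 0 _ c
  obtain ⟨γ', rfl⟩ := sh_surj 0 _ c'
  obtain ⟨ρ, hρ⟩ := exists_rho h γ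
  obtain ⟨ρ', hρ'⟩ := exists_rho h γ'
  rw [cup_eq h (map_add _ γ γ') (cup_plus h hρ hρ'), cup_eq h rfl hρ, cup_eq h rfl hρ', Hmap_plus,
    map_add]

/-- The cup product as a biadditive map. -/
def cupL (h : F.Tor n) (q : ℕ) : H 1 (cst R (ZMod n)) →+ H q F →+ H (q + 1) F :=
  AddMonoidHom.mk' (fun c => cup h c q) fun c c' => AddMonoidHom.ext (cup_add h c c' q)

theorem cupP_nat (m : Mor g F F') {c : R →+* W} {c' : R' →+* V} (hc : c.Etale) (hc' : c'.Etale)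
    (d : W →+* V) (hd : d.comp c = c'.comp g) (z : Pnt V) {t : Pnt W → F.A}
    (ht : ∀ y, t y ∈ F.M (y.comp c)) : m.qm.φ (z.comp c') (cupP F c (z.comp d) t) =
      cupP F' c' z fun z' => m.φ (z'.comp c') (t (z'.comp d)) := by
  have e : (z.comp d).comp c = (z.comp c').comp g := congrArg z.comp hd
  have h1 := (god F).gd.germ_mem (z.comp d) hc ht
  unfold cupP
  rw [e] at h1 ⊢
  exact (m.qm_pi _ h1).trans (congrArg _ (m.jm_germ d z hc hc' hd ht))

/-- The multiplication morphisms commute with all morphisms. -/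
theorem IsRho.nat (h : F.Tor n) (h' : F'.Tor n) {γ : Z0 (Q (cst R (ZMod n)))} {ρ : Hom F (Q F)}
    {ρ' : Hom F' (Q F')} (hρ : IsRho n F γ ρ)
    (hρ' : IsRho n F' ((cstMap g (AddMonoidHom.id (ZMod n))).qm.app γ) ρ') (m : Mor g F F')
    (x : Pnt R') {u : F.A} (hu : u ∈ F.M (x.comp g)) :
    m.qm.φ x (ρ.φ (x.comp g) u) = ρ'.φ x (m.φ x u) := by
  obtain ⟨W, _, c, y, σ, s, -, hc, hy, hs, -, rfl, -, e⟩ := cup_chart γ _ hu hu
  have hc' := Ten.etale_inr g hc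
  have k1 := Ten.lift_inl y x hy
  have k2 := Ten.lift_inr y x hy
  generalize Ten.lift y x hy = z at k1 k2
  subst k1 k2
  have hs' := F.res' _ (Ten.comm c g) hs
  have e1 := cupP_nat (cstMap g (AddMonoidHom.id (ZMod n))) hc hc' _ (Ten.comm c g) z (t := σ)
    fun _ => trivial
  rw [← e, hy] at e1
  have e2 := hρ' _ _ z _ _ hc' (m.sec hs') e1
  have e3 := hρ W c _ σ s hc hs e
  rw [hy] at e3
  have e4 := cupP_nat m hc hc' _ (Ten.comm c g) z (cup_mem σ hs)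
  unfold cupP at e4
  rw [hy] at e4
  rw [e3]
  refine e4.trans (Eq.trans (congrArg _ (congrArg _ (funext fun w => ?_))) e2.symm)
  exact m.nsmul _ (F.mem hs' w) _

theorem cup_nat (h : F.Tor n) (h' : F'.Tor n) (m : Mor g F F') (c : H 1 (cst R (ZMod n))) (q : ℕ)
    (ξ : H q F) : Hmap (q + 1) m (cup h c q ξ) =
      cup h' (Hmap 1 (cstMap g (AddMonoidHom.id (ZMod n))) c) q (Hmap q m ξ) := by
  obtain ⟨γ, rfl⟩ := sh_surj 0 _ c
  obtain ⟨ρ, hρ⟩ := exists_rho h γ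
  obtain ⟨ρ', hρ'⟩ := exists_rho h' ((cstMap g (AddMonoidHom.id (ZMod n))).qm.app γ)
  rw [cup_eq h rfl hρ, cup_eq h' (sh_nat 0 _ γ).symm hρ', sh_nat]
  exact congrArg _ (Hmap_sq q ρ m.qm m ρ' rfl (fun x u hu => hρ.nat h h' hρ' m x hu) ξ)

theorem cup_cls (h : F.Tor n) {c : H 1 (cst R (ZMod n))} {b : R →+* W} (hb : b.Etale)
    {σ : Pnt W → ZMod n} (hc : IsCls (cst R (ZMod n)) c b σ) (s : Z0 F) :
    IsCls F (cup h c 0 s) b fun y => (σ y).val • s.1 (y.comp b) := by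
  obtain ⟨-, γ, h1, h2⟩ := hc
  obtain ⟨ρ, hρ⟩ := exists_rho h γ
  have hs : rs b s.1 ∈ F.S b := F.res b s.2
  exact ⟨cup_mem σ hs, ρ.app s, (cup_eq h h1 hρ 0 s).symm, fun y => hρ W b y σ _ hb hs (h2 y)⟩

theorem cup_val_cast {n' : ℕ} [NeZero n'] (hn : n' ∣ n) {A : Type} [AddCommGroup A] {u : A}
    (h : n' • u = 0) (a : ZMod n) : a.val • u = (ZMod.castHom hn (ZMod n') a).val • u := by
  rw [ZMod.castHom_apply, ZMod.cast_eq_val, ZMod.val_natCast, ← nsmul_eq_mod_nsmul _ h]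

/-- Change of the modulus. -/
theorem cup_cast {n' : ℕ} [NeZero n'] (hn : n' ∣ n) (h : F.Tor n) (h' : F.Tor n')
    (c : H 1 (cst R (ZMod n))) (q : ℕ) (ξ : H q F) : cup h c q ξ =
      cup h' (Hmap 1 (cstMap (RingHom.id R) (ZMod.castHom hn (ZMod n')).toAddMonoidHom) c) q ξ := by
  obtain ⟨γ, rfl⟩ := sh_surj 0 _ c
  obtain ⟨ρ, hρ⟩ := exists_rho h γ
  rw [cup_eq h rfl hρ]
  refine (cup_eq h' (sh_nat 0 _ γ).symm
    (cup_isRho h' (φ := ρ.φ) fun W _ c y s hc hs => ?_) q ξ).symm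
  obtain ⟨V, _, b, z, σ, hb, rfl, -, e⟩ := cup_loc γ hc y
  have h1 := et_comp hc hb
  have h2 := F.res b hs
  refine ⟨V, _, b.comp c, z, fun w => ZMod.castHom hn (ZMod n') (σ w), rs b s, h1, rfl, h2, rfl,
    (congrArg _ (e z)).trans (cupP_nat _ h1 h1 (RingHom.id V) rfl z fun _ => trivial),
    (hρ V _ z σ _ h1 h2 (e z)).trans (congrArg (cupP F _ z) (funext fun w => ?_))⟩
  exact cup_val_cast hn (h' _ _ (F.mem h2 w)) (σ w)

end

end Pool.Agent.Lib.MP_16ef92_ag.RS
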