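import Mathlib
import Pool.Agent.Lib.MP_16ef92_ag.RS.Les

set_option autoImplicit false
set_option linter.unusedSectionVars false
set_option linter.unusedVariables false
set_option linter.style.haveILetI false

namespace Pool.Agent.Lib.MP_16ef92_ag.RS

noncomputable section

variable [Bg] {R R' T T' V W : Type} [CommRing R] [CommRing R'] [CommRing T] [CommRing T']
  [CommRing V] [CommRing W]

/-- Functions on the fibre. -/
def pushM (g : R →+* T) (F : Sys T) (x : Pnt R) : AddSubgroup (Pnt T → F.A) where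
  carrier := {u | ∀ τ : Pnt T, (τ.comp g = x → u τ ∈ F.M τ) ∧ (τ.comp g ≠ x → u τ = 0)}
  add_mem' hu hv τ := ⟨fun h => add_mem ((hu τ).1 h) ((hv τ).1 h), fun h => by
    rw [Pi.add_apply, (hu τ).2 h, (hv τ).2 h, add_zero]⟩
  zero_mem' _ := ⟨fun _ => zero_mem _, fun _ => rfl⟩
  neg_mem' hu τ := ⟨fun h => neg_mem ((hu τ).1 h), fun h => by
    rw [Pi.neg_apply, (hu τ).2 h, neg_zero]⟩

/-- The direct image presheaf. -/
def pushPre (g : R →+* T) (F : Sys T) : Pre R where
  B := Pnt T → F.A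
  M := pushM g F
  S {W} _ c :=
    { carrier := {t | (∀ y : Pnt W, t y ∈ pushM g F (y.comp c)) ∧
        ∀ (V : Type) [CommRing V] (d : W →+* V) (e : T →+* V), d.comp c = e.comp g →
          (fun z : Pnt V => t (z.comp d) (z.comp e)) ∈ F.S e}
      add_mem' := fun hs ht => ⟨fun y => add_mem (hs.1 y) (ht.1 y),
        fun V _ d e h => add_mem (hs.2 V d e h) (ht.2 V d e h)⟩
      zero_mem' := ⟨fun _ => zero_mem _, fun _ _ _ _ _ => zero_mem _⟩
      neg_mem' := fun hs => ⟨fun y => neg_mem (hs.1 y), fun V _ d e h => neg_mem (hs.2 V d e h)⟩ }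
  mem h := h.1
  res b _ h := ⟨fun z => h.1 (z.comp b), fun V _ d e hd => h.2 V (d.comp b) e hd⟩

/-- The direct image. -/
def push (g : R →+* T) (F : Sys T) : Sys R := (pushPre g F).sys

variable {g : R →+* T} {F : Sys T}

theorem pushPre_shf (g : R →+* T) (F : Sys T) : (pushPre g F).Shf := by
  intro V _ a s ha h
  refine ⟨fun y => ?_, fun V' _ d e hde => F.loc fun z' => ?_⟩
  · obtain ⟨W, _, b, z, -, rfl, hs⟩ := h y
    exact hs.1 z
  · obtain ⟨W, _, b, z, hb, hz, hs⟩ := h (z'.comp d)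
    refine ⟨Ten b d, _, Ten.inr b d, Ten.lift z z' hz, Ten.etale_inr d hb, Ten.lift_inr .., ?_⟩
    have h1 := hs.2 (Ten b d) (Ten.inl b d) ((Ten.inr b d).comp e) (by
      rw [← RingHom.comp_assoc, Ten.comm, RingHom.comp_assoc, hde, RingHom.comp_assoc])
    have h2 : (rs (Ten.inr b d) fun z : Pnt V' => s (z.comp d) (z.comp e)) =
        fun w : Pnt (Ten b d) =>
          rs b s (w.comp (Ten.inl b d)) (w.comp ((Ten.inr b d).comp e)) := funext fun w => by
      change s (w.comp ((Ten.inr b d).comp d)) _ = s (w.comp ((Ten.inl b d).comp b)) _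
      rw [Ten.comm]
      rfl
    rw [h2]
    exact h1

open Classical in
/-- A function on the points of the tensor product as a function of two points. -/
def pext (g : R →+* T) (F : Sys T) (c : R →+* W) (s : Pnt (Ten c g) → F.A) (y : Pnt W)
    (τ : Pnt T) : F.A :=
  if h : y.comp c = τ.comp g then s (Ten.lift y τ h) else 0

theorem pa_pos (c : R →+* W) (s : Pnt (Ten c g) → F.A) (y : Pnt W) (τ : Pnt T)
    (h : y.comp c = τ.comp g) : pext g F c s y τ = s (Ten.lift y τ h) := dif_pos h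

theorem pa_neg (c : R →+* W) (s : Pnt (Ten c g) → F.A) (y : Pnt W) (τ : Pnt T)
    (h : y.comp c ≠ τ.comp g) : pext g F c s y τ = 0 := dif_neg h

theorem pa_comm (c : R →+* W) (z : Pnt (Ten c g)) :
    (z.comp (Ten.inl c g)).comp c = (z.comp (Ten.inr c g)).comp g := by
  rw [RingHom.comp_assoc, RingHom.comp_assoc, Ten.comm]

theorem pext_apply (c : R →+* W) (s : Pnt (Ten c g) → F.A) (z : Pnt (Ten c g)) :
    pext g F c s (z.comp (Ten.inl c g)) (z.comp (Ten.inr c g)) = s z := by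
  rw [pa_pos c s _ _ (pa_comm c z)]
  exact congrArg s (Ten.hom_ext (Ten.lift_inl ..) (Ten.lift_inr ..))

theorem pext_mem {c : R →+* W} {s : Pnt (Ten c g) → F.A} (hs : s ∈ F.S (Ten.inr c g)) :
    pext g F c s ∈ (pushPre g F).S c := by
  refine ⟨fun y τ => ⟨fun h => ?_, fun h => pa_neg c s y τ h.symm⟩, fun V _ d e h => ?_⟩
  · have h1 := F.mem hs (Ten.lift y τ h.symm)
    rw [Ten.lift_inr] at h1
    rwa [pa_pos c s y τ h.symm]
  · have h1 : (fun z : Pnt V => pext g F c s (z.comp d) (z.comp e)) = rs (Ten.lift d e h) s :=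
      funext fun z => by
        rw [rs_apply, ← pext_apply c s, RingHom.comp_assoc, RingHom.comp_assoc, Ten.lift_inl,
          Ten.lift_inr]
    rw [h1]
    exact F.res' _ (Ten.lift_inr ..) hs

theorem pext_surj {c : R →+* W} {t : Pnt W → Pnt T → F.A} (ht : t ∈ (pushPre g F).S c) :
    ∃ s ∈ F.S (Ten.inr c g), pext g F c s = t := by
  refine ⟨_, ht.2 _ (Ten.inl c g) (Ten.inr c g) (Ten.comm c g), funext fun y => funext fun τ => ?_⟩
  by_cases h : y.comp c = τ.comp g
  · rw [pa_pos c _ y τ h, Ten.lift_inl, Ten.lift_inr]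
  · rw [pa_neg c _ y τ h]
    exact ((ht.1 y τ).2 (Ne.symm h)).symm

/-- The germ of a section over the tensor product. -/
def pg (g : R →+* T) (F : Sys T) (c : R →+* W) (y : Pnt W) (s : Pnt (Ten c g) → F.A) :
    (push g F).A := (pushPre g F).germ c y (pext g F c s)

theorem pg_sec {c : R →+* W} (hc : c.Etale) {s : Pnt (Ten c g) → F.A}
    (hs : s ∈ F.S (Ten.inr c g)) : (fun y => pg g F c y s) ∈ (push g F).S c :=
  Pre.gs_germ (P := pushPre g F) hc (pext_mem hs)

theorem pg_add {c : R →+* W} (hc : c.Etale) (y : Pnt W) {s s' : Pnt (Ten c g) → F.A}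
    (hs : s ∈ F.S (Ten.inr c g)) (hs' : s' ∈ F.S (Ten.inr c g)) :
    pg g F c y (s + s') = pg g F c y s + pg g F c y s' := by
  have h1 : pext g F c (s + s') = pext g F c s + pext g F c s' :=
    funext fun y => funext fun τ => by
      change _ = pext g F c s y τ + pext g F c s' y τ
      by_cases h : y.comp c = τ.comp g
      · rw [pa_pos c _ y τ h, pa_pos c _ y τ h, pa_pos c _ y τ h, Pi.add_apply]
      · rw [pa_neg c _ y τ h, pa_neg c _ y τ h, pa_neg c _ y τ h, add_zero]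
  unfold pg
  rw [h1]
  exact (pushPre g F).gd.germ_add y hc (pext_mem hs) (pext_mem hs')

theorem pg_zero {c : R →+* W} (hc : c.Etale) (y : Pnt W) {s : Pnt (Ten c g) → F.A}
    (hs : s ∈ F.S (Ten.inr c g)) : pg g F c y s = 0 ↔
      ∃ f : W, y f ≠ 0 ∧ ∀ z : Pnt (Ten c g), z (Ten.inl c g f) ≠ 0 → s z = 0 := by
  refine ((pushPre g F).gd.germ_zero y hc (pext_mem hs)).trans
    (exists_congr fun f => and_congr_right fun _ => ⟨fun h z hz => ?_, fun h y' hy => ?_⟩)
  · rw [← pext_apply c s z]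
    exact congrFun (h (z.comp (Ten.inl c g)) hz) _
  · refine funext fun τ => ?_
    by_cases h1 : y'.comp c = τ.comp g
    · refine (pa_pos c s y' τ h1).trans (h _ ?_)
      rwa [← RingHom.comp_apply, Ten.lift_inl]
    · exact pa_neg c s y' τ h1

theorem pg_res {c : R →+* W} {c' : R →+* V} (hc : c.Etale) (hc' : c'.Etale) (d : W →+* V)
    (h : d.comp c = c') (z : Pnt V) {s : Pnt (Ten c g) → F.A} (hs : s ∈ F.S (Ten.inr c g)) :
    pg g F c' z (rs (Ten.map g d h) s) = pg g F c (z.comp d) s := by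
  subst h
  have h1 : pext g F (d.comp c) (rs (Ten.map g d rfl) s) = rs d (pext g F c s) :=
    funext fun y => funext fun τ => by
      by_cases h : y.comp (d.comp c) = τ.comp g
      · rw [pa_pos _ _ y τ h, rs_apply, rs_apply, ← pext_apply c s, RingHom.comp_assoc,
          RingHom.comp_assoc, Ten.map_inl, Ten.map_inr, ← RingHom.comp_assoc, Ten.lift_inl,
          Ten.lift_inr]
      · rw [pa_neg _ _ y τ h]
        exact (pa_neg c s (y.comp d) τ h).symm
  unfold pg
  rw [h1]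
  exact (pushPre g F).gd.germ_res d z hc hc' (pext_mem hs)

theorem pg_surj (x : Pnt R) {u : (push g F).A} (hu : u ∈ (push g F).M x) :
    ∃ (W : Type) (_ : CommRing W) (c : R →+* W) (y : Pnt W) (s : Pnt (Ten c g) → F.A), c.Etale ∧
      y.comp c = x ∧ s ∈ F.S (Ten.inr c g) ∧ pg g F c y s = u := by
  obtain ⟨W, _, c, y, t, hc, hy, ht, rfl⟩ := (pushPre g F).gd.surj x u hu
  obtain ⟨s, hs, rfl⟩ := pext_surj ht
  exact ⟨W, _, c, y, s, hc, hy, hs, rfl⟩

/-- Sections of the direct image over an etale algebra. -/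
theorem push_sec {c : R →+* W} (hc : c.Etale) {σ : Pnt W → (push g F).A}
    (hσ : σ ∈ (push g F).S c) : ∃ s ∈ F.S (Ten.inr c g), ∀ y, σ y = pg g F c y s := by
  obtain ⟨h1, h2⟩ := (pushPre_shf g F).sec hc hσ
  obtain ⟨s, hs, e⟩ := pext_surj h1
  refine ⟨s, hs, fun y => (h2 y).trans ?_⟩
  unfold pg
  rw [e]

theorem push_tor {n : ℕ} (h : F.Tor n) (g : R →+* T) : (push g F).Tor n := by
  intro x u hu
  obtain ⟨W, _, c, y, s, hc, -, hs, rfl⟩ := pg_surj x hu
  have h0 : pg g F c y 0 = 0 :=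
    (pg_zero hc y (zero_mem _)).2 ⟨1, by simp, fun _ _ => rfl⟩
  have h1 : ∀ k : ℕ, pg g F c y (k • s) = k • pg g F c y s := fun k => by
    induction k with
    | zero => rw [zero_nsmul, zero_nsmul, h0]
    | succ k ih => rw [succ_nsmul, succ_nsmul, pg_add hc y (nsmul_mem hs k) hs, ih]
  have h2 : n • s = 0 := funext fun z => h _ _ (F.mem hs z)
  rw [← h1, h2, h0]

/-- The counit. -/
def eps (g : R →+* T) (F : Sys T) : Mor g (push g F) F :=
  PMor.ofGerm (P := pushPre g F) ⟨fun τ u => u τ, fun _ _ _ _ _ => rfl,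
    fun {V} _ {a} _ hs => hs.2 V (RingHom.id V) a rfl⟩

theorem eps_pg {c : R →+* W} (hc : c.Etale) {s : Pnt (Ten c g) → F.A}
    (hs : s ∈ F.S (Ten.inr c g)) (z : Pnt (Ten c g)) :
    (eps g F).φ (z.comp (Ten.inr c g)) (pg g F c (z.comp (Ten.inl c g)) s) = s z := by
  have h1 := (pushPre g F).gd.germ_mem (z.comp (Ten.inl c g)) hc (pext_mem hs)
  have h2 := Pre.ev_germ (P := pushPre g F) hc (z.comp (Ten.inl c g)) (pext_mem hs)
  rw [pa_comm] at h1 h2
  exact (PMor.ofGerm_spec _ _ h1).trans ((congrFun h2 _).trans (pext_apply c s z))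

open Classical in
/-- The adjoint morphism of presheaves. -/
def pbAdj {K : Sys R} (m : Mor g K F) : PMor (RingHom.id R) K.pre (pushPre g F) where
  φ x u τ := if τ.comp g = x then m.φ τ u else 0
  add x u hu v hv := by
    funext τ
    by_cases h : τ.comp g = x
    · subst h
      exact (if_pos rfl).trans ((m.add τ u hu v hv).trans
        (congrArg₂ (· + ·) (if_pos rfl).symm (if_pos rfl).symm))
    · exact (if_neg h).trans ((add_zero _).symm.trans
        (congrArg₂ (· + ·) (if_neg h).symm (if_neg h).symm))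
  sec {V} _ {a} {s} hs := by
    refine ⟨fun y τ => ⟨fun h => ?_, fun h => if_neg h⟩, fun V' _ d e hd => ?_⟩
    · have h1 : s y ∈ K.M (τ.comp g) := h ▸ K.mem hs y
      exact Set.mem_of_eq_of_mem (if_pos h) (m.mem τ _ h1)
    · have h1 := m.sec (a := e) (K.res' d hd hs)
      have h2 : ∀ z : Pnt V', (z.comp e).comp g = (z.comp d).comp a := fun z =>
        congrArg z.comp hd.symm
      exact (funext fun z => (if_pos (h2 z)).symm : _ = fun z : Pnt V' =>
        if (z.comp e).comp g = (z.comp d).comp a then m.φ (z.comp e) (s (z.comp d)) else 0) ▸ h1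

theorem Mor.exists_adj {K : Sys R} (m : Mor g K F) : ∃ m' : Hom K (push g F),
    ∀ (W : Type) [CommRing W] (c : R →+* W) (y : Pnt W) (t : Pnt W → K.A), c.Etale → t ∈ K.S c →
      m'.φ (y.comp c) (t y) =
        pg g F c y fun z => m.φ (z.comp (Ten.inr c g)) (t (z.comp (Ten.inl c g))) := by
  refine ⟨PMor.toGerm (pbAdj m), fun W _ c y t hc ht => ?_⟩
  refine (PMor.toGerm_spec (pbAdj m) y hc ht).trans (congrArg _ ?_)
  funext y' τ
  by_cases h : y'.comp c = τ.comp g
  · refine (if_pos h.symm).trans ((dif_pos h).trans ?_).symm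
    simp only [Ten.lift_inl, Ten.lift_inr]
  · exact (if_neg fun e => h e.symm).trans (Eq.symm (by rw [pext, dif_neg h]))

/-- The adjoint morphism; the unit is `(K.can g).adj`. -/
def Mor.adj {K : Sys R} (m : Mor g K F) : Hom K (push g F) := m.exists_adj.choose

theorem Mor.adj_spec {K : Sys R} (m : Mor g K F) {c : R →+* W} (hc : c.Etale) (y : Pnt W)
    {t : Pnt W → K.A} (ht : t ∈ K.S c) : m.adj.φ (y.comp c) (t y) =
      pg g F c y fun z => m.φ (z.comp (Ten.inr c g)) (t (z.comp (Ten.inl c g))) :=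
  m.exists_adj.choose_spec W c y t hc ht

theorem Mor.eps_adj {K : Sys R} (m : Mor g K F) (τ : Pnt T) {u : K.A} (hu : u ∈ K.M (τ.comp g)) :
    (eps g F).φ τ (m.adj.φ (τ.comp g) u) = m.φ τ u := by
  obtain ⟨W, _, c, y, t, hc, hy, ht, rfl⟩ := K.stalk _ u hu
  have h1 := eps_pg hc (m.sec (a := Ten.inr c g) (K.res' _ (Ten.comm c g) ht)) (Ten.lift y τ hy)
  rw [← hy, m.adj_spec hc y ht]
  simp only [rs_apply, Ten.lift_inl, Ten.lift_inr] at h1
  exact h1

/-- Morphisms to a direct image are determined by their composite with the counit. -/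
theorem push_ext {K : Sys R} (m m' : Hom K (push g F))
    (h : ∀ τ : Pnt T, ∀ u ∈ K.M (τ.comp g),
      (eps g F).φ τ (m.φ (τ.comp g) u) = (eps g F).φ τ (m'.φ (τ.comp g) u))
    (x : Pnt R) {u : K.A} (hu : u ∈ K.M x) : m.φ x u = m'.φ x u := by
  obtain ⟨W, _, c, y, t, hc, rfl, ht, rfl⟩ := K.stalk _ u hu
  obtain ⟨s, hs, e⟩ := push_sec hc (m.sec (a := c) ht)
  obtain ⟨s', hs', e'⟩ := push_sec hc (m'.sec (a := c) ht)
  have : s = s' := funext fun z => by
    have h1 : (z.comp (Ten.inl c g)).comp c = (z.comp (Ten.inr c g)).comp g :=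
      congrArg z.comp (Ten.comm c g)
    have h2 := h (z.comp (Ten.inr c g)) _ (h1 ▸ K.mem ht (z.comp (Ten.inl c g)))
    rw [← eps_pg hc hs z, ← eps_pg hc hs' z, ← e, ← e', h1]
    exact h2
  exact (e y).trans (this ▸ (e' y).symm)

section Sq

variable {g' : R' →+* T'} {f : R →+* R'} {e : T →+* T'} {F' : Sys T'}

open Classical in
/-- The morphism of direct image presheaves. -/
def pbPush (m : Mor e F F') (h : e.comp g = g'.comp f) :
    PMor f (pushPre g F) (pushPre g' F') where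
  φ x u τ := if τ.comp g' = x then m.φ τ (u (τ.comp e)) else 0
  add x u hu v hv := by
    funext τ
    by_cases h1 : τ.comp g' = x
    · subst h1
      have h2 : (τ.comp e).comp g = (τ.comp g').comp f := congrArg τ.comp h
      exact (if_pos rfl).trans ((m.add τ _ ((hu _).1 h2) _ ((hv _).1 h2)).trans
        (congrArg₂ (· + ·) (if_pos rfl).symm (if_pos rfl).symm))
    · exact (if_neg h1).trans ((add_zero _).symm.trans
        (congrArg₂ (· + ·) (if_neg h1).symm (if_neg h1).symm))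
  sec {V} _ {a} {s} hs := by
    refine ⟨fun y τ => ⟨fun h1 => ?_, fun h1 => if_neg h1⟩, fun V' _ d e' hd => ?_⟩
    · have h2 : (τ.comp e).comp g = y.comp (a.comp f) :=
        (congrArg τ.comp h).trans (congrArg (fun w : Pnt R' => w.comp f) h1)
      exact Set.mem_of_eq_of_mem (if_pos h1) (m.mem τ _ ((hs.1 y _).1 h2))
    · have h0 : d.comp (a.comp f) = (e'.comp e).comp g :=
        (congrArg (fun w : R' →+* V' => w.comp f) hd).trans (congrArg e'.comp h.symm)
      have h1 := m.sec (a := e') (hs.2 V' d (e'.comp e) h0)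
      have h2 : ∀ z : Pnt V', (z.comp e').comp g' = (z.comp d).comp a := fun z =>
        congrArg z.comp hd.symm
      exact (funext fun z => (if_pos (h2 z)).symm : _ = fun z : Pnt V' =>
        if (z.comp e').comp g' = (z.comp d).comp a then
          m.φ (z.comp e') (s (z.comp d) ((z.comp e').comp e)) else 0) ▸ h1

theorem Mor.exists_push (m : Mor e F F') (h : e.comp g = g'.comp f) :
    ∃ m' : Mor f (push g F) (push g' F'),
      ∀ (W W' : Type) [CommRing W] [CommRing W'] (c : R →+* W) (c' : R' →+* W') (d : W →+* W')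
        (z : Pnt W') (s : Pnt (Ten c g) → F.A) (k : Ten c g →+* Ten c' g'), c.Etale → c'.Etale →
        d.comp c = c'.comp f → s ∈ F.S (Ten.inr c g) →
        k.comp (Ten.inl c g) = (Ten.inl c' g').comp d →
        k.comp (Ten.inr c g) = (Ten.inr c' g').comp e →
        m'.φ (z.comp c') (pg g F c (z.comp d) s) =
          pg g' F' c' z fun w => m.φ (w.comp (Ten.inr c' g')) (s (w.comp k)) := by
  refine ⟨PMor.mor (pbPush m h), fun W W' _ _ c c' d z s k hc hc' hd hs k1 k2 => ?_⟩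
  refine (PMor.mor_germ (pbPush m h) d z hc hc' hd (pext_mem hs)).trans (congrArg _ ?_)
  funext y' τ
  by_cases h1 : y'.comp c' = τ.comp g'
  · refine (if_pos h1.symm).trans ((dif_pos h1).trans ?_).symm
    have h2 := pext_apply (F := F) c s ((Ten.lift y' τ h1).comp k)
    rw [RingHom.comp_assoc, RingHom.comp_assoc, k1, k2, ← RingHom.comp_assoc,
      ← RingHom.comp_assoc, Ten.lift_inl, Ten.lift_inr] at h2
    simp only [Ten.lift_inr, h2]
  · exact (if_neg fun e => h1 e.symm).trans (Eq.symm (by rw [pext, dif_neg h1]))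

/-- Functoriality of direct images for a commutative square; includes the base change map. -/
def Mor.push (m : Mor e F F') (h : e.comp g = g'.comp f) : Mor f (push g F) (push g' F') :=
  (m.exists_push h).choose

theorem Mor.push_pg (m : Mor e F F') (h : e.comp g = g'.comp f) {W' : Type} [CommRing W']
    {c : R →+* W} {c' : R' →+* W'} (hc : c.Etale) (hc' : c'.Etale) (d : W →+* W')
    (hd : d.comp c = c'.comp f) (z : Pnt W') {s : Pnt (Ten c g) → F.A}
    (hs : s ∈ F.S (Ten.inr c g)) (k : Ten c g →+* Ten c' g')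
    (k1 : k.comp (Ten.inl c g) = (Ten.inl c' g').comp d)
    (k2 : k.comp (Ten.inr c g) = (Ten.inr c' g').comp e) :
    (m.push h).φ (z.comp c') (pg g F c (z.comp d) s) =
      pg g' F' c' z fun w => m.φ (w.comp (Ten.inr c' g')) (s (w.comp k)) :=
  (m.exists_push h).choose_spec W W' c c' d z s k hc hc' hd hs k1 k2

theorem Mor.eps_push (m : Mor e F F') (h : e.comp g = g'.comp f) (τ : Pnt T') {u : (RS.push g F).A}
    (hu : u ∈ (RS.push g F).M (τ.comp (e.comp g))) :
    (eps g' F').φ τ ((m.push h).φ (τ.comp g') u) = m.φ τ ((eps g F).φ (τ.comp e) u) := by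
  obtain ⟨W, _, c, y, s, hc, hy, hs, rfl⟩ := pg_surj _ hu
  have hy' : y.comp c = (τ.comp g').comp f := hy.trans (congrArg τ.comp h)
  have hc' := Ten.etale_inr f hc
  have hk : ((Ten.inl (Ten.inr c f) g').comp (Ten.inl c f)).comp c =
      ((Ten.inr (Ten.inr c f) g').comp e).comp g := by
    rw [RingHom.comp_assoc, Ten.comm, ← RingHom.comp_assoc, Ten.comm, RingHom.comp_assoc,
      RingHom.comp_assoc, h]
  have k1 := Ten.lift_inl _ _ hk
  have k2 := Ten.lift_inr _ _ hk
  have h1 := m.push_pg h hc hc' (Ten.inl c f) (Ten.comm c f) (Ten.lift y _ hy') hs _ k1 k2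
  have hw : (Ten.lift y _ hy').comp (Ten.inr c f) = τ.comp g' := Ten.lift_inr ..
  have h2 := eps_pg hc' (m.sec (a := Ten.inr (Ten.inr c f) g') (F.res' _ k2 hs))
    (Ten.lift _ τ hw)
  have h3 := eps_pg hc hs ((Ten.lift _ τ hw).comp (Ten.lift _ _ hk))
  rw [RingHom.comp_assoc, RingHom.comp_assoc, k1, k2, ← RingHom.comp_assoc,
    ← RingHom.comp_assoc, Ten.lift_inl, Ten.lift_inr, Ten.lift_inl] at h3
  rw [Ten.lift_inl, Ten.lift_inr] at h1
  simp only [rs_apply, Ten.lift_inl, Ten.lift_inr] at h2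
  rw [h1, h3]
  exact h2

end Sq

/-- The direct image of a morphism. -/
abbrev Mor.pu {F G : Sys T} (m : Hom F G) (g : R →+* T) : Hom (RS.push g F) (RS.push g G) :=
  m.push (g := g) (g' := g) (f := RingHom.id R) rfl

theorem pb_pu_pg {F G : Sys T} (m : Hom F G) {c : R →+* W} (hc : c.Etale) (y : Pnt W)
    {s : Pnt (Ten c g) → F.A} (hs : s ∈ F.S (Ten.inr c g)) :
    (m.pu g).φ (y.comp c) (pg g F c y s) =
      pg g G c y fun w => m.φ (w.comp (Ten.inr c g)) (s w) :=
  m.push_pg (g := g) (g' := g) (f := RingHom.id R) rfl hc hc (RingHom.id W) rfl y hs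
    (RingHom.id _) rfl rfl

theorem push_inj {F G : Sys T} {m : Hom F G} (h : m.Inj) (g : R →+* T) : (m.pu g).Inj := by
  intro x u hu h0
  obtain ⟨W, _, c, y, s, hc, hy, hs, rfl⟩ := pg_surj _ hu
  obtain rfl : y.comp c = x := hy
  rw [pb_pu_pg m hc y hs, pg_zero hc y (m.sec (a := Ten.inr c g) hs)] at h0
  obtain ⟨f, hf, h0⟩ := h0
  exact (pg_zero hc y hs).2 ⟨f, hf, fun z hz => h _ _ (F.mem hs z) (h0 z hz)⟩

/-- Left exactness. -/
theorem SES.push_ex {F₁ F₂ F₃ : Sys T} {i : Hom F₁ F₂} {p : Hom F₂ F₃} (h : SES i p) (g : R →+* T)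
    (x : Pnt R) {v : (RS.push g F₂).A} (hv : v ∈ (RS.push g F₂).M x) :
    (p.pu g).φ x v = 0 ↔ v ∈ (i.pu g).im x := by
  constructor
  · intro h0
    obtain ⟨W, _, c, y, s, hc, rfl, hs, rfl⟩ := pg_surj _ hv
    rw [pb_pu_pg p hc y hs, pg_zero hc y (p.sec (a := Ten.inr c g) hs)] at h0
    obtain ⟨f, hf, h0⟩ := h0
    obtain ⟨y', rfl⟩ := pnt_away y hf
    set d := algebraMap W (Localization.Away f) with hd
    have hc' : (d.comp c).Etale := et_comp hc (et_away f)
    have hs' := F₂.res' _ (Ten.map_inr g d rfl) hs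
    have h1 : ∀ w : Pnt (Ten (d.comp c) g), ∃ u ∈ F₁.M (w.comp (Ten.inr (d.comp c) g)),
        i.φ (w.comp (Ten.inr (d.comp c) g)) u = rs (Ten.map g d rfl) s w := fun w => by
      refine Mor.mem_im.1 ((h.ex _ _ (F₂.mem hs' w)).1 ?_)
      have h2 := h0 (w.comp (Ten.map g d rfl)) (by
        have h3 := pnt_away_ne (w.comp (Ten.inl (d.comp c) g))
        rw [RingHom.comp_assoc, ← Ten.map_inl g d rfl] at h3
        exact h3)
      rw [RingHom.comp_assoc, Ten.map_inr] at h2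
      exact h2
    choose t ht1 ht2 using h1
    have ht : t ∈ F₁.S (Ten.inr (d.comp c) g) :=
      i.sec_of_inj h.inj ht1 ((funext ht2 : _ = rs (Ten.map g d rfl) s) ▸ hs')
    refine Mor.mem_im.2 ⟨pg g F₁ (d.comp c) y' t, (RS.push g F₁).mem (pg_sec hc' ht) y', ?_⟩
    refine (pb_pu_pg i hc' y' ht).trans ?_
    rw [funext ht2]
    exact pg_res hc hc' d rfl y' hs
  · intro h0
    obtain ⟨u, hu, rfl⟩ := Mor.mem_im.1 h0
    obtain ⟨W, _, c, y, t, hc, hy, ht, rfl⟩ := pg_surj _ hu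
    obtain rfl : y.comp c = x := hy
    have hs := i.sec (a := Ten.inr c g) ht
    rw [pb_pu_pg i hc y ht, pb_pu_pg p hc y hs, pg_zero hc y (p.sec (a := Ten.inr c g) hs)]
    exact ⟨1, by simp, fun z _ => (h.ex _ _ (F₂.mem hs z)).2
      (Mor.mem_im.2 ⟨t z, F₁.mem ht z, rfl⟩)⟩

theorem pc_eps {c : R →+* W} (hc : c.Etale) {s : Pnt (Ten c g) → F.A}
    (hs : s ∈ F.S (Ten.inr c g)) (y : Pnt W) (τ : Pnt T) (h : y.comp c = τ.comp g) :
    (eps g F).φ τ (pg g F c y s) = s (Ten.lift y τ h) := by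
  have := eps_pg hc hs (Ten.lift y τ h)
  rwa [Ten.lift_inl, Ten.lift_inr] at this

theorem push_H0 (g : R →+* T) (F : Sys T) : Function.Bijective (eps g F).app := by
  refine ⟨(injective_iff_map_eq_zero _).2 fun σ h => ?_, fun t => ?_⟩
  · obtain ⟨s, hs, e⟩ := push_sec et_id σ.2
    refine Subtype.ext (funext fun y => (e y).trans ((pg_zero et_id y hs).2
      ⟨1, by simp, fun z _ => ?_⟩))
    have h1 := congrFun (congrArg Subtype.val h) (z.comp (Ten.inr _ g))
    rw [Mor.app_val, e, RingHom.comp_assoc, ← Ten.comm] at h1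
    exact (eps_pg et_id hs z).symm.trans h1
  · have hs : rs (Ten.inr (RingHom.id R) g) t.1 ∈ F.S (Ten.inr (RingHom.id R) g) :=
      F.res (Ten.inr (RingHom.id R) g) t.2
    refine ⟨⟨_, pg_sec et_id hs⟩, Subtype.ext (funext fun τ => ?_)⟩
    rw [Mor.app_val]
    refine (pc_eps et_id hs (τ.comp g) τ rfl).trans ?_
    rw [rs_apply, Ten.lift_inr]

theorem pc_ret (F : Sys T) : ∃ r : Hom (J (J F)) (J F),
    ∀ x, ∀ u ∈ (J F).M x, r.φ x ((eta (J F)).φ x u) = u := by
  let m : PMor (RingHom.id T) (god (J F)) (god F) := ⟨(god F).ev,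
    fun x u hu v hv => Pre.ev_add x hu hv, fun hs y => Pre.ev_mem (P := god F) _ (hs y)⟩
  refine ⟨m.mor, fun x u hu => ?_⟩
  obtain ⟨W, _, c, y, t, hc, rfl, ht, rfl⟩ := (god F).gd.surj x u hu
  have h1 : (fun y => (god F).germ c y t) ∈ (J F).S c := Pre.gs_germ hc ht
  refine (congrArg _ (eta_spec (J F) hc y h1)).trans
    ((m.mor_germ (RingHom.id W) y hc hc rfl ((J F).mem h1)).trans ?_)
  exact congrArg _ (funext fun z => Pre.ev_germ hc z ht)

theorem H_push_J (g : R →+* T) (F : Sys T) (q : ℕ) (ξ : H (q + 1) (push g (J F))) : ξ = 0 := by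
  obtain ⟨r, hr⟩ := pc_ret F
  let m : Mor g (J (push g (J F))) (J F) := (eps g (J F)).jm.comp r
  refine H_retract m.adj (fun x u hu => push_ext ((eta _).comp m.adj) ((push g (J F)).mul 1)
    (fun τ u hu => ?_) x hu |>.trans (one_zsmul u)) q ξ
  refine (m.eps_adj τ ((eta _).mem _ u hu)).trans ?_
  refine (congrArg (r.φ τ) ((eps g (J F)).jm_eta τ hu)).trans ?_
  rw [hr τ _ ((eps g (J F)).mem τ u hu)]
  exact congrArg _ (one_zsmul u).symm

/-- The higher direct image of degree `q + 1` vanishes. -/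
def Dies (g : R →+* T) (F : Sys T) (q : ℕ) : Prop :=
  ∀ (W : Type) [CommRing W] (c : R →+* W) (y : Pnt W) (ξ : HH (q + 1) F (Ten.inr c g)), c.Etale →
    ∃ (W' : Type) (_ : CommRing W') (d : W →+* W') (z : Pnt W'), d.Etale ∧ z.comp d = y ∧
      HR (q + 1) F (Ten.map g d rfl) (Ten.map_inr g d rfl) ξ = 0

theorem pc_jm {e : T →+* V} {b : V →+* W} {F' : Sys V} {F'' : Sys W} (m : Mor e F F')
    (m' : Mor b F' F'') (m'' : Mor (b.comp e) F F'')
    (h : ∀ x, ∀ u ∈ F.M (x.comp (b.comp e)), m'.φ x (m.φ (x.comp b) u) = m''.φ x u) (x : Pnt W)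
    {u : (J F).A} (hu : u ∈ (J F).M (x.comp (b.comp e))) :
    m'.jm.φ x (m.jm.φ (x.comp b) u) = m''.jm.φ x u := by
  obtain ⟨U, U', _, _, c, c', d, y, t, hc, hc', hd, ht, hy, rfl⟩ :=
    (god F).germ_ind e (x.comp b) hu
  have h1 := m.jm_germ d y hc hc' hd ht
  have h2 := m'.jm_germ (Ten.inl c' b) (Ten.lift y x hy) hc' (Ten.etale_inr b hc') (Ten.comm c' b)
    (t := fun z' => m.φ (z'.comp c') (t (z'.comp d))) fun z' => m.mem _ _ (by
      rw [RingHom.comp_assoc, ← hd]
      exact ht (z'.comp d))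
  have h3 := m''.jm_germ ((Ten.inl c' b).comp d) (Ten.lift y x hy) hc (Ten.etale_inr b hc')
    (by rw [RingHom.comp_assoc, hd, ← RingHom.comp_assoc, Ten.comm, RingHom.comp_assoc]) ht
  rw [← RingHom.comp_assoc, Ten.lift_inl, Ten.lift_inr] at h3
  rw [Ten.lift_inl, Ten.lift_inr] at h2
  rw [hy] at h1
  rw [h1, h2, h3]
  refine congrArg _ (funext fun z => ?_)
  rw [RingHom.comp_assoc, Ten.comm]
  refine h _ _ ?_
  have h4 := ht (z.comp ((Ten.inl c' b).comp d))
  rwa [RingHom.comp_assoc, RingHom.comp_assoc, hd, ← RingHom.comp_assoc e, Ten.comm] at h4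

theorem pc_sq {e : T →+* V} {e' : T →+* W} (b : V →+* W) (h : b.comp e = e') (q : ℕ)
    (ξ : H q ((Q F).pb e)) : Hmap q (F.rm b h).qm (Hmap q (F.can e).qm.toHom ξ) =
      Hmap q (F.can e').qm.toHom (Hmap q ((Q F).rm b h) ξ) := by
  subst h
  refine Hmap_sq q (F.can e).qm.toHom (F.rm b rfl).qm ((Q F).rm b rfl)
    (F.can (b.comp e)).qm.toHom rfl (fun x u hu => ?_) ξ
  obtain ⟨v, hv, rfl⟩ := (ses_can F).surj _ u hu
  refine (congrArg _ ((F.can e).qm_pi (x.comp b) hv)).trans ?_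
  refine ((F.rm b rfl).qm_pi x ((F.can e).jm.mem _ v hv)).trans ?_
  rw [pc_jm (F.can e) (F.rm b rfl) (F.can (b.comp e)) (fun _ _ _ => rfl) x hv]
  exact ((F.can (b.comp e)).qm_pi x hv).symm

theorem pc_bij {e : T →+* V} (he : e.Etale) (q : ℕ) :
    Function.Bijective (Hmap q (F.can e).qm.toHom) :=
  Hmap_bij q _ (qm_can_bij F he).1 (qm_can_bij F he).2

theorem Dies.q {q : ℕ} : Dies g F (q + 1) ↔ Dies g (Q F) q := by
  constructor
  · intro h W _ c y ξ hc
    obtain ⟨W', _, d, z, hd, hz, h0⟩ := h W c y (Hmap (q + 1) (F.can _).qm.toHom ξ) hc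
    refine ⟨W', _, d, z, hd, hz, (pc_bij (Ten.etale_inr g (et_comp hc hd)) (q + 1)).1 ?_⟩
    rw [map_zero, ← pc_sq]
    exact h0
  · intro h W _ c y ξ hc
    obtain ⟨ζ, rfl⟩ := (pc_bij (F := F) (Ten.etale_inr g hc) (q + 1)).2 ξ
    obtain ⟨W', _, d, z, hd, hz, h0⟩ := h W c y ζ hc
    refine ⟨W', _, d, z, hd, hz, (pc_sq _ _ (q + 1) ζ).trans ?_⟩
    exact (congrArg _ h0).trans (map_zero _)

theorem SES.push {F₁ F₂ F₃ : Sys T} {i : Hom F₁ F₂} {p : Hom F₂ F₃} (h : SES i p)
    (hd : Dies g F₁ 0) : SES (i.pu g) (p.pu g) := by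
  refine ⟨push_inj h.inj g, fun x v hv => h.push_ex g x hv, fun x v hv => ?_⟩
  obtain ⟨W, _, c, y, s, hc, rfl, hs, rfl⟩ := pg_surj x hv
  obtain ⟨W', _, d, z, hd', rfl, h0⟩ := hd W c y ((h.pb (Ten.inr c g)).del 0 ⟨s, hs⟩) hc
  have hc' := et_comp hc hd'
  have h1 := (h.pb (Ten.inr c g)).del_nat (h.pb (Ten.inr (d.comp c) g))
    (F₁.rm _ (Ten.map_inr g d rfl)) (F₂.rm _ (Ten.map_inr g d rfl)) (F₃.rm _ (Ten.map_inr g d rfl))
    (fun x u _ => congrArg (i.φ · u) (congrArg x.comp (Ten.map_inr g d rfl)))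
    (fun x u _ => congrArg (p.φ · u) (congrArg x.comp (Ten.map_inr g d rfl))) 0 ⟨s, hs⟩
  obtain ⟨t, ht⟩ := (SES.del_ker _ 0 _).1 (h1.symm.trans h0)
  refine ⟨pg g F₂ (d.comp c) z t.1, (RS.push g F₂).mem (pg_sec hc' t.2) z, ?_⟩
  refine (p.push_pg (g := g) (g' := g) (f := RingHom.id R) rfl hc' hc' (RingHom.id W') rfl z t.2
    (RingHom.id _) rfl rfl).trans ?_
  rw [← pg_res hc hc' d rfl z hs]
  exact congrArg _ (congrArg Subtype.val ht)

theorem pc_nat {F G : Sys T} (m : Hom F G) (τ : Pnt T) (u : (push g F).A)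
    (hu : u ∈ (push g F).M (τ.comp g)) :
    (eps g G).φ τ ((m.pu g).φ (τ.comp g) u) = m.φ τ ((eps g F).φ τ u) :=
  m.eps_push (g := g) (g' := g) (f := RingHom.id R) rfl τ hu

theorem pc_one (F : Sys T) : Function.Injective (Hmap 1 (eps g F)) := by
  refine (injective_iff_map_eq_zero _).2 fun ξ h0 => ?_
  have hs := ((eta F).pu g).ses_cok (push_inj (eta_inj F) g)
  obtain ⟨ζ, rfl⟩ := (hs.del_range 0 ξ).1 (H_push_J g F 0 _)
  obtain ⟨j, hj⟩ := Mor.exists_desc _ hs.surj ((piQ F).pu g) fun x u hu h =>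
    ((ses_can F).push_ex g x hu).2 ((hs.ex x u hu).1 h)
  have hi : j.Inj := fun x u hu h => by
    obtain ⟨v, hv, rfl⟩ := hs.surj x u hu
    exact (hs.ex x v hv).2 (((ses_can F).push_ex g x hv).1 ((hj x v hv).symm.trans h))
  have h2 : ∀ x, ∀ u ∈ (push g (J F)).M (x.comp g), (eps g (Q F)).φ x (j.φ (x.comp g)
      (((eta F).pu g).pr.φ (x.comp g) u)) = (piQ F).φ x ((eps g (J F)).φ x u) := fun x u hu =>
    (congrArg _ (hj _ u hu)).trans (pc_nat _ x u hu)
  have h1 := hs.del_nat (ses_can F) (eps g F) (eps g (J F)) (j.comp (eps g (Q F))) (pc_nat _) h2 0 ζ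
  obtain ⟨t, ht⟩ := (SES.del_ker _ 0 _).1 (h1.symm.trans h0)
  obtain ⟨t, rfl⟩ := (push_H0 g (J F)).2 t
  refine (hs.del_ker 0 ζ).2 ⟨t, hi.app ((push_H0 g (Q F)).1 (Subtype.ext (funext fun x => ?_)))⟩
  exact (h2 x _ ((push g (J F)).mem t.2 (x.comp g))).trans (congrFun (congrArg Subtype.val ht) x)

/-- The degenerate Leray spectral sequence. -/
theorem eps_inj (q : ℕ) (F : Sys T) (h : ∀ i, i + 1 < q → Dies g F i) :
    Function.Injective (Hmap q (eps g F)) := by
  induction q generalizing F with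
  | zero => exact (push_H0 g F).1
  | succ q ih =>
    cases q with
    | zero => exact pc_one F
    | succ q =>
      refine (injective_iff_map_eq_zero _).2 fun ξ h0 => ?_
      have hs := (ses_can F).push (h 0 (by omega))
      obtain ⟨ζ, rfl⟩ := (hs.del_range (q + 1) ξ).1 (H_push_J g F (q + 1) _)
      have h1 := hs.del_nat (ses_can F) (eps g F) (eps g (J F)) (eps g (Q F)) (pc_nat _) (pc_nat _)
        (q + 1) ζ
      obtain ⟨t, ht⟩ := (SES.del_ker _ _ _).1 (h1.symm.trans h0)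
      rw [H_J q F t, map_zero] at ht
      rw [(injective_iff_map_eq_zero _).1 (ih (Q F) fun i hi => Dies.q.1 (h (i + 1) (by omega))) ζ
        ht.symm, map_zero]

theorem eps_surj (q : ℕ) (F : Sys T) (h : ∀ i, i < q → Dies g F i) :
    Function.Surjective (Hmap q (eps g F)) := by
  induction q generalizing F with
  | zero => exact (push_H0 g F).2
  | succ q ih =>
    intro ξ
    obtain ⟨ζ, rfl⟩ := del_can_surj F q ξ
    obtain ⟨ζ, rfl⟩ := ih (Q F) (fun i hi => Dies.q.1 (h (i + 1) (by omega))) ζ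
    exact ⟨_, ((ses_can F).push (h 0 (by omega))).del_nat (ses_can F) (eps g F) (eps g (J F))
      (eps g (Q F)) (pc_nat _) (pc_nat _) q ζ⟩

end

end Pool.Agent.Lib.MP_16ef92_ag.RS
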